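import Mathlib
import Pool.Agent.Q4.Tube.Eng

set_option autoImplicit false
set_option linter.unusedSectionVars false

/-!
# The subspace theorem for sequences of integral points
-/

namespace Pool.Agent.Q4.Opt

open Filter Topology Pool.Agent.TH932.Abs Pool.Agent.TH932.Germs Pool.Agent.TH932.Chi
open Pool.Agent.TH796.AL Pool.Agent.Q4.Blk Pool.Agent.Q4.Gcd Pool.Agent.Q4.Cov Module
open Pool.Agent.Q4.Tube

/-- divisibility by powers of a prime, on the scale of `log q` -/
def Dv (S : Finset ℕ) (hS : ∀ p ∈ S, p.Prime) (q : ℕ → ℕ) (v : Fin S.card) (w : ℝ) (Z : ℕ → ℤ) :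
    Prop :=
  ∀ ε : ℝ, 0 < ε → ∀ᶠ n in (UU : Filter ℕ), ∃ k : ℕ, ((bas S hS).P v : ℤ) ^ k ∣ Z n ∧
    (w - ε) * Real.log (q n) ≤ k * Real.log ((bas S hS).P v)

section
variable {S : Finset ℕ} {hS : ∀ p ∈ S, p.Prime} {q : ℕ → ℕ}

lemma Dv.zero (hq : ∀ n, n + 2 ≤ q n) (v : Fin S.card) (Z : ℕ → ℤ) : Dv S hS q v 0 Z := by
  intro ε hε
  refine Eventually.of_forall fun n => ⟨0, by simp, ?_⟩
  have h1 : 0 ≤ Real.log (q n) := Real.log_nonneg (qone hq n)
  simp only [Nat.cast_zero, zero_mul]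
  nlinarith

lemma Dv.mul {v : Fin S.card} {w w' : ℝ} {Z Z' : ℕ → ℤ}
    (h : Dv S hS q v w Z) (h' : Dv S hS q v w' Z') : Dv S hS q v (w + w') (fun n => Z n * Z' n) := by
  intro ε hε
  filter_upwards [h (ε / 2) (by positivity), h' (ε / 2) (by positivity)] with n h1 h2
  obtain ⟨k, hk, hk'⟩ := h1
  obtain ⟨l, hl, hl'⟩ := h2
  refine ⟨k + l, ?_, ?_⟩
  · rw [pow_add]
    exact mul_dvd_mul hk hl
  · push_cast
    linarith

lemma Dv.pow (hq : ∀ n, n + 2 ≤ q n) {v : Fin S.card} {w : ℝ} {Z : ℕ → ℤ}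
    (h : Dv S hS q v w Z) (j : ℕ) : Dv S hS q v (j * w) (fun n => Z n ^ j) := by
  induction j with
  | zero =>
    simp only [Nat.cast_zero, zero_mul, pow_zero]
    exact Dv.zero hq v _
  | succ j ih =>
    have h1 := ih.mul h
    simp only [pow_succ]
    push_cast
    rw [add_mul, one_mul]
    exact h1

lemma Dv.anti {v : Fin S.card} {w w' : ℝ} (hq : ∀ n, n + 2 ≤ q n) (hw : w' ≤ w) {Z : ℕ → ℤ}
    (h : Dv S hS q v w Z) : Dv S hS q v w' Z := by
  intro ε hε
  filter_upwards [h ε hε] with n h1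
  obtain ⟨k, hk, hk'⟩ := h1
  refine ⟨k, hk, le_trans ?_ hk'⟩
  have h1 : 0 ≤ Real.log (q n) := Real.log_nonneg (qone hq n)
  nlinarith

end

/-- **The subspace theorem**, for sequences of integral points with real algebraic linear forms. -/
theorem sub0 {S : Finset ℕ} (hS : ∀ p ∈ S, p.Prime) {q : ℕ → ℕ} (hq : ∀ n, n + 2 ≤ q n)
    {ι : Type} [Fintype ι] [DecidableEq ι] (X : ι → ℕ → ℤ)
    (hX : ∀ c : ι → ℤ, (∀ᶠ n in (UU : Filter ℕ), ∑ i, c i * X i n = 0) → ∀ i, c i = 0)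
    (A : ι → ι → ℝ) (hA : ∀ k i, IsAlgebraic ℚ (A k i))
    (hrank : ∀ b : ι → ℝ, (∀ i, ∑ k, b k * A k i = 0) → ∀ k, b k = 0)
    (ω : Fin S.card → ι → ℝ) (hω : ∀ v i, Dv S hS q v (ω v i) (X i))
    (lam : ι → ℝ) (hlam : ∀ k, Sm q (lam k) (fun n => ((∑ i, A k i * X i n : ℝ) : ℂ))) :
    ∑ v, ∑ i, ω v i ≤ ∑ k, lam k := by
  classical
  have hL : Tendsto (fun n => Real.log (q n)) atTop atTop := tendsto_logq hq
  set F : IntermediateField ℚ ℝ := IntermediateField.adjoin ℚ (Set.range (fun p : ι × ι => A p.1 p.2))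
    with hF
  have hfin : FiniteDimensional ℚ F := by
    apply IntermediateField.finiteDimensional_adjoin
    rintro _ ⟨⟨k, i⟩, rfl⟩
    exact (hA k i).isIntegral
  have hAF : ∀ k i, A k i ∈ F := fun k i => IntermediateField.subset_adjoin ℚ _ ⟨(k, i), rfl⟩
  set A' : ι → ι → F := fun k i => ⟨A k i, hAF k i⟩ with hA'
  have hsm : ∀ (b : F) (w : HR), b • w = algebraMap ℝ HR (b : ℝ) * w := by
    intro b w
    rw [Algebra.smul_def]
    rfl
  set x : ι → GG := fun i => gm (fun n => (X i n : ℚ)) with hx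
  have hxi : ∀ c : ι → ℤ, ∑ i, (c i : GG) * x i = 0 → ∀ i, c i = 0 := by
    intro c hc
    apply hX
    have h1 : ∑ i, (c i : GG) * x i = gm (fun n => ∑ i, (c i : ℚ) * (X i n : ℚ)) := by
      rw [← gm_sum]
      refine Finset.sum_congr rfl fun i _ => ?_
      rw [hx]
      simp only []
      have h2 : ((c i : ℤ) : GG) = (((c i : ℤ) : ℚ) : GG) := by push_cast; rfl
      rw [h2, rat_gm, gm_mul]
    rw [h1, ← gm_zero, gm_eq] at hc
    filter_upwards [hc] with n hn
    exact_mod_cast hn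
  set z : ι → HR := fun k => ∑ i, A' k i • rho (x i) with hz
  have hzg : ∀ k, z k = gr (fun n => ∑ i, A k i * X i n) := by
    intro k
    rw [hz]
    simp only [hsm]
    rw [← gr_sum']
    refine Finset.sum_congr rfl fun i _ => ?_
    rw [cst_eq, hx]
    simp only []
    rw [rho_gm, gr_mul]
    congr 1
  have hzi : LinearIndependent F z := by
    rw [Fintype.linearIndependent_iff]
    intro b hb
    have h1 := ind_F F x hxi (fun i => ∑ k, b k * A' k i) (by
      rw [← hb, hz]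
      simp only [hsm, Finset.mul_sum]
      rw [Finset.sum_comm]
      refine Finset.sum_congr rfl fun i _ => ?_
      rw [AddSubmonoidClass.coe_finsetSum, map_sum, Finset.sum_mul]
      refine Finset.sum_congr rfl fun k _ => ?_
      rw [MulMemClass.coe_mul, map_mul]
      ring)
    have h2 := hrank (fun k => (b k : ℝ)) (by
      intro i
      have h3 : ((∑ k, b k * A' k i : F) : ℝ) = ((0 : F) : ℝ) := by rw [h1 i]
      rw [AddSubmonoidClass.coe_finsetSum] at h3
      simpa using h3)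
    intro k
    exact Subtype.ext (h2 k)
  obtain ⟨N, ε'⟩ : Σ N : ℕ, Fin N ≃ ι := ⟨_, (Fintype.equivFin _).symm⟩
  have key := fixa_thm S.card (bas S hS) (fun n => Real.log (q n)) hL F inferInstance N
    (fun k => x (ε' k)) (fun k => z (ε' k)) (fun v k => ω v (ε' k)) (fun k => -lam (ε' k))
    ?_ (hzi.comp _ ε'.injective) ?_ ?_ ?_ ?_
  · have e1 : ∀ v, ∑ k, ω v (ε' k) = ∑ i : ι, ω v i := fun v => Equiv.sum_comp ε' (ω v)
    have e2 : ∑ k, -lam (ε' k) = -∑ i : ι, lam i := by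
      rw [Finset.sum_neg_distrib]
      congr 1
      exact Equiv.sum_comp ε' lam
    simp only [e1] at key
    rw [e2] at key
    linarith
  · intro b hb i
    have h1 := hxi (fun j => b (ε'.symm j)) (by
      rw [← hb, ← Equiv.sum_comp ε']
      refine Finset.sum_congr rfl fun k _ => ?_
      rw [Equiv.symm_apply_apply]) (ε' i)
    simpa using h1
  · intro i
    rw [hz]
    refine Submodule.sum_mem _ fun j _ => Submodule.smul_mem _ _ (Submodule.subset_span ?_)
    exact ⟨ε'.symm j, by simp⟩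
  · intro v k
    exact dvd_germ (B := bas S hS) hL v (X (ε' k)) _ (hω v (ε' k))
  · intro k
    rw [hzg]
    exact (hlam (ε' k)).toSR hq
  · intro k
    exact Sint_int (B := bas S hS) hL (X (ε' k))

end Pool.Agent.Q4.Opt
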