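import Mathlib
import Pool.Agent.Q4.Opt.Core
import Pool.Agent.Q4.Tube.Voj

set_option autoImplicit false
set_option linter.unusedSectionVars false

/-!
# Monomials in nearly extremal points
-/

namespace Pool.Agent.Q4.Opt

open Filter Topology Pool.Agent.TH932.Abs Pool.Agent.TH932.Germs Pool.Agent.TH932.Chi
open Pool.Agent.TH796.AL Pool.Agent.Q4.Blk Pool.Agent.Q4.Gcd Pool.Agent.Q4.Cov Module
open Pool.Agent.Q4.Tube MvPolynomial

section
variable {σ : Type} [Fintype σ] [DecidableEq σ]

/-! ### the change of basis -/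

lemma tw_deg {R : Type*} [CommRing R] (θ : σ → R) (F : MvPolynomial (Option σ) R) :
    (tw θ F).totalDegree ≤ F.totalDegree := by
  classical
  rcases subsingleton_or_nontrivial R with hR | hR
  · have : tw θ F = 0 := Subsingleton.elim _ _
    rw [this, totalDegree_zero]
    exact Nat.zero_le _
  conv_lhs => rw [as_sum F]
  rw [map_sum]
  refine (totalDegree_finsetSum _ _).trans (Finset.sup_le fun m hm => ?_)
  have h1 : tw θ (monomial m (coeff m F))
      = C (coeff m F) * m.prod (fun o e => (o.elim (X none) (fun s => C (θ s) * X none - X (some s)) :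
        MvPolynomial (Option σ) R) ^ e) := by
    unfold tw
    rw [bind₁_monomial]
    rfl
  rw [h1]
  refine (totalDegree_mul _ _).trans ?_
  rw [totalDegree_C, zero_add]
  unfold Finsupp.prod
  refine (totalDegree_finsetProd _ _).trans ?_
  refine le_trans ?_ (le_totalDegree hm)
  unfold Finsupp.sum
  refine Finset.sum_le_sum fun o _ => ?_
  refine (totalDegree_pow _ _).trans ?_
  have h2 : (o.elim (X none) (fun s => C (θ s) * X none - X (some s)) :
      MvPolynomial (Option σ) R).totalDegree ≤ 1 := by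
    cases o with
    | none => exact (totalDegree_X _).le
    | some s =>
      refine (totalDegree_sub _ _).trans (max_le ?_ (totalDegree_X _).le)
      refine (totalDegree_mul _ _).trans ?_
      rw [totalDegree_C, zero_add]
      exact (totalDegree_X _).le
  calc _ ≤ m o * 1 := Nat.mul_le_mul_left _ h2
    _ = m o := mul_one _

lemma alg_sum {ι : Type*} (s : Finset ι) (f : ι → ℝ) (h : ∀ i ∈ s, IsAlgebraic ℚ (f i)) :
    IsAlgebraic ℚ (∑ i ∈ s, f i) :=
  mem_algebraicClosure_iff.1 (sum_mem fun i hi => mem_algebraicClosure_iff.2 (h i hi))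

/-- the indices of products with monomials -/
abbrev Ix (σ : Type) [Fintype σ] [DecidableEq σ] {J : Type} (N : J → ℕ) : Type :=
  Σ j : J, Ex (Option σ) (N j)

/-- the matrix of the change of basis -/
noncomputable def Mr (θ : σ → ℝ) (a b : Option σ → ℕ) : ℝ :=
  coeff (fs b) (tw θ (monomial (fs a) 1))

lemma Mr_alg {θ : σ → ℝ} (halg : ∀ s, IsAlgebraic ℚ (θ s)) (a b : Option σ → ℕ) :
    IsAlgebraic ℚ (Mr θ a b) := by
  apply tw_alg halg
  intro m
  rw [coeff_monomial]
  split_ifs
  · exact isAlgebraic_one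
  · exact isAlgebraic_zero

lemma deg_mon (a : Option σ → ℕ) : (monomial (fs a) (1 : ℝ)).totalDegree = ∑ i, a i := by
  rw [totalDegree_monomial _ one_ne_zero]
  have := sum_fs (fs a)
  simpa using this

lemma zv_Mr (θ : σ → ℝ) (q : ℕ) (x : σ → ℤ) {d : ℕ} {a : Option σ → ℕ} (ha : a ∈ Ex (Option σ) d) :
    zv θ q x a = ∑ b : Ex (Option σ) d, Mr θ a b.1 * ∏ i, (px q x i : ℝ) ^ (b.1 i) := by
  have h1 : (tw θ (monomial (fs a) (1 : ℝ))).totalDegree ≤ d := by
    refine (tw_deg θ _).trans ?_
    rw [deg_mon]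
    exact mem_Ex.1 ha
  have h2 := eval_Ex h1 (fun o => ((px q x o : ℤ) : ℝ))
  rw [tw_eval θ, tw_tw] at h2
  unfold Mr
  rw [← h2, eval_monomial, Finsupp.prod_fintype _ _ (by simp), one_mul, Fintype.prod_option]
  rfl

lemma Mr_sq (θ : σ → ℝ) {d : ℕ} (a c : Ex (Option σ) d) :
    ∑ b : Ex (Option σ) d, Mr θ a.1 b.1 * Mr θ b.1 c.1 = if a = c then 1 else 0 := by
  classical
  have h1 : (tw θ (monomial (fs a.1) (1 : ℝ))).totalDegree ≤ d := by
    refine (tw_deg θ _).trans ?_
    rw [deg_mon]
    exact mem_Ex.1 a.2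
  have h2 : tw θ (monomial (fs a.1) (1 : ℝ))
      = ∑ b : Ex (Option σ) d, monomial (fs b.1) (Mr θ a.1 b.1) := by
    ext n
    rw [coeff_sum]
    by_cases hn : (n : Option σ → ℕ) ∈ Ex (Option σ) d
    · rw [Finset.sum_eq_single ⟨(n : Option σ → ℕ), hn⟩]
      · rw [coeff_monomial, fs_coe, if_pos rfl]
        unfold Mr
        rw [fs_coe]
      · intro b _ hb
        rw [coeff_monomial, if_neg]
        rintro rfl
        exact hb rfl
      · intro h
        exact absurd (Finset.mem_univ _) h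
    · rw [Finset.sum_eq_zero]
      · by_contra hne
        have h3 := le_totalDegree (mem_support_iff.2 hne)
        rw [sum_fs] at h3
        exact hn (mem_Ex.2 (h3.trans h1))
      · intro b _
        rw [coeff_monomial, if_neg]
        rintro rfl
        exact hn b.2
  have h3 := congrArg (fun P => coeff (fs c.1) (tw θ P)) h2
  rw [tw_tw, map_sum, coeff_sum, coeff_monomial] at h3
  have h4 : (fs a.1 = fs c.1) ↔ a = c := by
    constructor
    · intro h
      apply Subtype.ext
      exact congrArg (fun n : Option σ →₀ ℕ => (n : Option σ → ℕ)) h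
    · rintro rfl
      rfl
  simp only [h4] at h3
  rw [h3]
  refine Finset.sum_congr rfl fun b _ => ?_
  have h5 : monomial (fs b.1) (Mr θ a.1 b.1) = Mr θ a.1 b.1 • monomial (fs b.1) (1 : ℝ) := by
    rw [smul_monomial, smul_eq_mul, mul_one]
  rw [h5, map_smul, coeff_smul, smul_eq_mul]
  rfl

/-! ### the points -/

/-- sequences of nearly extremal integral points -/
structure Ext (S : Finset ℕ) (hS : ∀ p ∈ S, p.Prime) (θ : σ → ℝ) (q : ℕ → ℕ) (x : ℕ → σ → ℤ)
    (β : Fin S.card → ℝ) (w : σ → ℝ) : Prop where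
  big : ∀ n, n + 2 ≤ q n
  w0 : ∀ s, 0 ≤ w s
  near : ∀ s, Sm q (-(w s)) (fun n => ((fr θ (q n) (x n) s : ℝ) : ℂ))
  β0 : ∀ v, 0 ≤ β v
  fin : ∀ v, Dv S hS q v (β v) (fun n => (q n : ℤ))
  bal : 1 ≤ ∑ v, β v + ∑ s, w s

/-- the exponent of a monomial -/
noncomputable def ex (w : σ → ℝ) (a : Option σ → ℕ) : ℝ := (a none : ℝ) - ∑ s, w s * a (some s)

lemma sum_ex_symm (d : ℕ) (s : σ) :
    ∑ a : Ex (Option σ) d, ((a.1 (some s) : ℕ) : ℝ) = ∑ a : Ex (Option σ) d, ((a.1 none : ℕ) : ℝ) := by
  classical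
  set e : Ex (Option σ) d ≃ Ex (Option σ) d :=
    ⟨fun a => ⟨fun i => a.1 (Equiv.swap none (some s) i), by
        rw [mem_Ex]
        have h := Equiv.sum_comp (Equiv.swap none (some s)) a.1
        rw [h]
        exact mem_Ex.1 a.2⟩,
      fun a => ⟨fun i => a.1 (Equiv.swap none (some s) i), by
        rw [mem_Ex]
        have h := Equiv.sum_comp (Equiv.swap none (some s)) a.1
        rw [h]
        exact mem_Ex.1 a.2⟩,
      fun a => by
        apply Subtype.ext
        funext i
        simp,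
      fun a => by
        apply Subtype.ext
        funext i
        simp⟩ with he
  rw [← Equiv.sum_comp e]
  refine Finset.sum_congr rfl fun a _ => ?_
  have : (e a).1 (some s) = a.1 none := by
    rw [he]
    simp
  rw [this]

variable {S : Finset ℕ} {hS : ∀ p ∈ S, p.Prime} {θ : σ → ℝ} {q : ℕ → ℕ} {x : ℕ → σ → ℤ}
  {β : Fin S.card → ℝ} {w : σ → ℝ}

/-- the balance of the exponents -/
lemma Ext.bal' (H : Ext S hS θ q x β w) (d : ℕ) :
    ∑ a : Ex (Option σ) d, ex w a.1 ≤ ∑ a : Ex (Option σ) d, (∑ v, β v) * (a.1 none : ℝ) := by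
  have h1 : ∑ a : Ex (Option σ) d, ex w a.1
      = (1 - ∑ s, w s) * ∑ a : Ex (Option σ) d, (a.1 none : ℝ) := by
    unfold ex
    rw [Finset.sum_sub_distrib, Finset.sum_comm]
    simp only [← Finset.mul_sum, sum_ex_symm]
    rw [← Finset.sum_mul]
    ring
  rw [h1, ← Finset.mul_sum]
  apply mul_le_mul_of_nonneg_right
  · have := H.bal
    linarith
  · exact Finset.sum_nonneg fun a _ => Nat.cast_nonneg _

lemma Sm.prod' {q : ℕ → ℕ} (hq : ∀ n, n + 2 ≤ q n) {ι : Type*} (s : Finset ι) (e : ι → ℝ)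
    (f : ι → ℕ → ℂ) (h : ∀ i ∈ s, Sm q (e i) (f i)) :
    Sm q (∑ i ∈ s, e i) (fun n => ∏ i ∈ s, f i n) := by
  classical
  induction s using Finset.induction_on with
  | empty => simpa using Sm.const hq 1
  | insert i s hi ih =>
    simp only [Finset.prod_insert hi, Finset.sum_insert hi]
    exact Sm.mul hq (h i (Finset.mem_insert_self _ _))
      (ih fun j hj => h j (Finset.mem_insert_of_mem hj))

lemma Ext.zv (H : Ext S hS θ q x β w) (a : Option σ → ℕ) :
    Sm q (ex w a) (fun n => ((zv θ (q n) (x n) a : ℝ) : ℂ)) := by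
  have h1 := Sm.mul H.big (Sm.qpow H.big (a none)) (Sm.prod' H.big Finset.univ
    (fun s => (a (some s) : ℝ) * (-(w s))) (fun s n => ((fr θ (q n) (x n) s : ℝ) : ℂ) ^ (a (some s)))
    fun s _ => Sm.pow H.big (H.near s) _)
  have e1 : ((a none : ℕ) : ℝ) + ∑ s, (a (some s) : ℝ) * (-(w s)) = ex w a := by
    unfold ex
    rw [sub_eq_add_neg, ← Finset.sum_neg_distrib]
    congr 1
    refine Finset.sum_congr rfl fun s _ => ?_
    ring
  rw [e1] at h1
  refine h1.congr (Eventually.of_forall fun n => ?_)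
  unfold Tube.zv
  push_cast
  rfl

lemma Ext.mono (H : Ext S hS θ q x β w) (v : Fin S.card) (a : Option σ → ℕ) :
    Dv S hS q v (β v * a none) (fun n => ∏ i, (px (q n) (x n) i) ^ (a i)) := by
  have h1 := (Dv.pow H.big (H.fin v) (a none)).mul (Dv.zero H.big v
    (fun n => ∏ s, (x n s) ^ (a (some s))))
  rw [add_zero, mul_comm] at h1
  have e1 : (fun n => ∏ i, (px (q n) (x n) i) ^ (a i))
      = fun n => (q n : ℤ) ^ (a none) * ∏ s, (x n s) ^ (a (some s)) := by
    funext n
    rw [Fintype.prod_option]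
    rfl
  rw [e1]
  exact h1

/-- **The subspace theorem for products with monomials.** -/
theorem sub1 (H : Ext S hS θ q x β w) (halg : ∀ s, IsAlgebraic ℚ (θ s))
    {J : Type} [Fintype J] [DecidableEq J] (N : J → ℕ) (V : J → ℕ → ℤ)
    (hind : ∀ B : J → MvPolynomial (Option σ) ℚ, (∀ j, (B j).totalDegree ≤ N j) →
      (∀ᶠ n in (UU : Filter ℕ), ∑ j, va (q n) (x n) (B j) * V j n = 0) → ∀ j, B j = 0)
    (μ : Fin S.card → J → ℝ) (hμ : ∀ v j, Dv S hS q v (μ v j) (V j))
    (c : Ix σ N → Ix σ N → ℝ)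
    (hc : ∀ k i, IsAlgebraic ℚ (c k i))
    (hrank : ∀ b : Ix σ N → ℝ, (∀ i, ∑ k, b k * c k i = 0) → ∀ k, b k = 0)
    (lam : Ix σ N → ℝ)
    (hlam : ∀ k, Sm q (lam k)
      (fun n => ((∑ i, c k i * (zv θ (q n) (x n) i.2.1 * V i.1 n) : ℝ) : ℂ))) :
    ∑ i : Ix σ N, (ex w i.2.1 + ∑ v, μ v i.1) ≤ ∑ k, lam k := by
  classical
  -- the block matrix
  set Mb : Ix σ N → Ix σ N → ℝ := fun i k => if i.1 = k.1 then Mr θ i.2.1 k.2.1 else 0 with hMb
  have hMsq : ∀ i k : Ix σ N, ∑ l, Mb i l * Mb l k = if i = k then 1 else 0 := by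
    rintro ⟨j, a⟩ ⟨j', b⟩
    rw [Fintype.sum_sigma]
    rw [Finset.sum_eq_single j]
    · simp only [hMb, if_true]
      by_cases hj : j = j'
      · subst hj
        simp only [if_true]
        rw [Mr_sq]
        simp
      · simp only [if_neg hj, mul_zero, Finset.sum_const_zero]
        rw [if_neg]
        intro h
        exact hj (congrArg Sigma.fst h)
    · intro l _ hl
      refine Finset.sum_eq_zero fun a' _ => ?_
      simp only [hMb]
      rw [if_neg (Ne.symm hl), zero_mul]
    · intro h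
      exact absurd (Finset.mem_univ _) h
  have hz : ∀ (n : ℕ) (i : Ix σ N), zv θ (q n) (x n) i.2.1 * V i.1 n
      = ∑ k : Ix σ N, Mb i k * (((∏ o, (px (q n) (x n) o) ^ (k.2.1 o)) * V k.1 n : ℤ) : ℝ) := by
    rintro n ⟨j, a⟩
    rw [Fintype.sum_sigma, Finset.sum_eq_single j]
    · simp only [hMb, if_true]
      rw [zv_Mr θ (q n) (x n) a.2, Finset.sum_mul]
      refine Finset.sum_congr rfl fun b _ => ?_
      push_cast
      ring
    · intro l _ hl
      refine Finset.sum_eq_zero fun a' _ => ?_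
      simp only [hMb]
      rw [if_neg (Ne.symm hl), zero_mul]
    · intro h
      exact absurd (Finset.mem_univ _) h
  have key := sub0 hS H.big (ι := Ix σ N)
    (fun i n => (∏ o, (px (q n) (x n) o) ^ (i.2.1 o)) * V i.1 n) ?_
    (fun k i => ∑ l, c k l * Mb l i) ?_ ?_ (fun v i => β v * i.2.1 none + μ v i.1) ?_ lam ?_
  · have h1 : ∑ v, ∑ i : Ix σ N, (β v * i.2.1 none + μ v i.1)
        = ∑ i : Ix σ N, ((∑ v, β v) * i.2.1 none + ∑ v, μ v i.1) := by
      rw [Finset.sum_comm]
      refine Finset.sum_congr rfl fun i _ => ?_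
      rw [Finset.sum_add_distrib, Finset.sum_mul]
    rw [h1] at key
    refine le_trans ?_ key
    rw [Finset.sum_add_distrib, Finset.sum_add_distrib]
    refine add_le_add ?_ le_rfl
    rw [Fintype.sum_sigma, Fintype.sum_sigma]
    exact Finset.sum_le_sum fun j _ => H.bal' (N j)
  · -- independence
    intro b hb
    have h1 := hind (fun j => ∑ a : Ex (Option σ) (N j), monomial (fs a.1) ((b ⟨j, a⟩ : ℤ) : ℚ))
      (fun j => by
        refine (totalDegree_finsetSum _ _).trans (Finset.sup_le fun a _ => ?_)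
        refine (totalDegree_monomial_le _ _).trans ?_
        have h3 := mem_Ex.1 a.2
        change (fs a.1).sum (fun _ e => e) ≤ _
        rw [sum_fs]
        simpa using h3) (by
        filter_upwards [hb] with n hn
        rw [Fintype.sum_sigma] at hn
        have hn' := congrArg (fun z : ℤ => (z : ℚ)) hn
        simp only [] at hn'
        push_cast at hn'
        rw [← hn']
        refine Finset.sum_congr rfl fun j _ => ?_
        unfold va
        rw [map_sum, Finset.sum_mul]
        refine Finset.sum_congr rfl fun a _ => ?_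
        rw [aeval_monomial, Finsupp.prod_fintype _ _ (by simp)]
        change ((b ⟨j, a⟩ : ℚ) * ∏ i, _) * _ = _
        rw [mul_assoc]
        rfl)
    rintro ⟨j, a⟩
    have h2 := congrArg (coeff (fs a.1)) (h1 j)
    rw [coeff_sum, Finset.sum_eq_single a, coeff_monomial, if_pos rfl, coeff_zero] at h2
    · exact_mod_cast h2
    · intro a' _ ha'
      rw [coeff_monomial, if_neg]
      intro h
      apply ha'
      apply Subtype.ext
      exact congrArg (fun n : Option σ →₀ ℕ => (n : Option σ → ℕ)) h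
    · intro h
      exact absurd (Finset.mem_univ _) h
  · intro k i
    refine alg_sum _ _ fun l _ => (hc k l).mul ?_
    simp only [hMb]
    split_ifs
    · exact Mr_alg halg _ _
    · exact isAlgebraic_zero
  · -- the rank
    intro b hb
    apply hrank
    intro i
    have h1 : ∀ l, ∑ k, b k * ∑ l', c k l' * Mb l' l = 0 := hb
    have h2 : ∑ k, b k * c k i = ∑ l, (∑ k, b k * ∑ l', c k l' * Mb l' l) * Mb l i := by
      simp only [Finset.sum_mul, Finset.mul_sum]
      rw [Finset.sum_comm]
      refine Finset.sum_congr rfl fun k _ => ?_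
      rw [Finset.sum_comm]
      have h3 : ∀ l', ∑ l, b k * (c k l' * Mb l' l) * Mb l i
          = b k * c k l' * (if l' = i then 1 else 0) := by
        intro l'
        rw [← hMsq l' i, Finset.mul_sum]
        refine Finset.sum_congr rfl fun l _ => ?_
        ring
      simp only [h3]
      simp
    rw [h2]
    exact Finset.sum_eq_zero fun l _ => by rw [h1 l, zero_mul]
  · intro v i
    exact (H.mono v i.2.1).mul (hμ v i.1)
  · intro k
    refine (hlam k).congr (Eventually.of_forall fun n => ?_)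
    congr 1
    simp only [hz, Finset.mul_sum]
    rw [Finset.sum_comm]
    refine Finset.sum_congr rfl fun i _ => ?_
    rw [Finset.sum_mul]
    refine Finset.sum_congr rfl fun l _ => ?_
    ring

end

end Pool.Agent.Q4.Opt
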