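import Mathlib
import Pool.Agent.Q4.Tube.Root
import Pool.Agent.Q4.Opt.Mon

set_option autoImplicit false
set_option linter.unusedSectionVars false

/-!
# Algebraic functions at integral points near a ray, without conditions at the finite places
-/

namespace Pool.Agent.Q4.Opt

open Filter Topology Pool.Agent.TH932.Abs Pool.Agent.TH932.Germs Pool.Agent.TH932.Chi
open Pool.Agent.TH796.AL Pool.Agent.Q4.Blk Pool.Agent.Q4.Gcd Pool.Agent.Q4.Cov Module
open Pool.Agent.Q4.Tube hiding Near sm_fr sm_vs sm_dl dl_tendsto dl_le_one sm_ord sm_any lim_evr branch' expand' px_ne root_bnd approxS root_exp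

section
variable {σ : Type} [Fintype σ] [DecidableEq σ]

/-- integral points near a ray -/
structure Nr (θ : σ → ℝ) (q : ℕ → ℕ) (x : ℕ → σ → ℤ) : Prop where
  big : ∀ n, n + 2 ≤ q n
  near : ∀ ε : ℝ, 0 < ε → ∀ᶠ n in (UU : Filter ℕ), ∀ s, |fr θ (q n) (x n) s| ≤ (q n : ℝ) ^ ε

lemma Ext.nr {S : Finset ℕ} {hS : ∀ p ∈ S, p.Prime} {θ : σ → ℝ} {q : ℕ → ℕ} {x : ℕ → σ → ℤ}
    {β : Fin S.card → ℝ} {w : σ → ℝ} (H : Ext S hS θ q x β w) : Nr θ q x := by
  refine ⟨H.big, fun ε hε => ?_⟩
  rw [Filter.eventually_all]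
  intro s
  filter_upwards [H.near s ε hε] with n hn
  rw [Complex.norm_real, Real.norm_eq_abs] at hn
  refine hn.trans (Real.rpow_le_rpow_of_exponent_le (qone H.big n) ?_)
  have := H.w0 s
  linarith

end

section
variable {σ : Type} [Fintype σ] [DecidableEq σ] {K : Type*} [Field K] (φ : K →+* ℂ)

open MvPolynomial

variable {θ : σ → ℝ} {q : ℕ → ℕ} {x : ℕ → σ → ℤ} (H : Nr θ q x)

include H

lemma sm_fr (s : σ) : Sm q 0 (fun n => ((fr θ (q n) (x n) s : ℝ) : ℂ)) := by
  intro ε hε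
  filter_upwards [H.near ε hε] with n hn
  rw [Complex.norm_real, Real.norm_eq_abs, zero_add]
  exact hn s

lemma sm_vs (i : Option σ) : Sm q (-1) (fun n => ((vs θ q x n i : ℝ) : ℂ)) := by
  cases i with
  | none =>
    refine (Sm.qinv H.big).congr (Eventually.of_forall fun n => ?_)
    simp only [vs, vv, Option.elim]
    push_cast
    rfl
  | some s =>
    have h1 := Sm.mul H.big (sm_fr H s).neg (Sm.qinv H.big)
    rw [zero_add] at h1
    refine h1.congr (Eventually.of_forall fun n => ?_)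
    simp only [vs, vv, Option.elim]
    push_cast
    ring

lemma sm_dl : Sm q (-1) (fun n => ((dl θ q x n : ℝ) : ℂ)) := by
  have h1 := Sm.sum H.big Finset.univ (fun i n => ((|vs θ q x n i| : ℝ) : ℂ)) (e := -1)
    (fun i _ => (sm_vs H i).le (Eventually.of_forall fun n => by
      rw [Complex.norm_real, Complex.norm_real, Real.norm_eq_abs, abs_abs, Real.norm_eq_abs]))
  refine h1.congr (Eventually.of_forall fun n => ?_)
  unfold dl
  push_cast
  rfl

lemma dl_tendsto : Tendsto (dl θ q x) (UU : Filter ℕ) (𝓝 0) := by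
  have h1 := Sm.tendsto H.big (by norm_num) (sm_dl H)
  have h2 := (Complex.continuous_re.tendsto 0).comp h1
  simpa [Function.comp_def] using h2

lemma dl_le_one : ∀ᶠ n in (UU : Filter ℕ), dl θ q x n ≤ 1 := by
  filter_upwards [(dl_tendsto H).eventually (gt_mem_nhds (show (0 : ℝ) < 1 by norm_num))] with n hn
  exact hn.le

lemma sm_ord {R : MvPolynomial (Option σ) K} {r : ℕ} (hR : Ord φ r R) :
    Sm q (-r) (fun n => evr φ (vs θ q x n) R) := by
  obtain ⟨C, hC, hb⟩ := hR
  have h1 := Sm.mul H.big (Sm.const H.big (C : ℂ)) (Sm.pow H.big (sm_dl H) r)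
  rw [zero_add, mul_neg, mul_one] at h1
  refine h1.le ?_
  filter_upwards [dl_le_one H] with n hn
  rw [norm_mul, norm_pow, Complex.norm_real, Complex.norm_real, Real.norm_of_nonneg hC,
    Real.norm_of_nonneg (dl_nonneg _ _ _ _)]
  exact hb _ _ (dl_nonneg _ _ _ _) hn (le_dl _ _ _ _)

lemma sm_any (R : MvPolynomial (Option σ) K) : Sm q 0 (fun n => evr φ (vs θ q x n) R) := by
  have := sm_ord φ H (Ord.any φ R)
  simpa using this

/-- limits of values -/
lemma lim_evr (f : MvPolynomial (Option σ) K) :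
    Tendsto (fun n => evr φ (vs θ q x n) f) (UU : Filter ℕ) (𝓝 (φ (constantCoeff f))) := by
  have hf : f - C (constantCoeff f) ∈ RingHom.ker (constantCoeff (σ := Option σ) (R := K)) := by
    rw [RingHom.mem_ker, map_sub, constantCoeff_C, sub_self]
  have h1 := Sm.tendsto H.big (by norm_num) (sm_ord φ H (Ord.ker φ hf))
  have h2 := h1.add_const (φ (constantCoeff f))
  rw [zero_add] at h2
  refine h2.congr fun n => ?_
  rw [map_sub]
  have h4 : evr φ (vs θ q x n) (C (constantCoeff f)) = φ (constantCoeff f) := by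
    unfold evr
    simp
  rw [h4]
  ring

/-- **Approximation of a branch.** -/
theorem branch' (p : Polynomial (MvPolynomial (Option σ) K)) (η : K)
    (h0 : (p.map constantCoeff).eval η = 0) (h1 : (p.map constantCoeff).derivative.eval η ≠ 0)
    (Y : ℕ → ℂ) (hY : Tendsto Y (UU : Filter ℕ) (𝓝 (φ η)))
    (hroot : ∀ᶠ n in (UU : Filter ℕ), (p.map (evr φ (vs θ q x n))).eval (Y n) = 0) (r : ℕ) :
    ∃ E : MvPolynomial (Option σ) K, Sm q (-(r + 1 : ℕ)) (fun n => Y n - evr φ (vs θ q x n) E) := by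
  classical
  set v' : ℕ → Option σ → ℝ := fun n => if dl θ q x n ≤ 1 then vs θ q x n else 0 with hv'
  set δ' : ℕ → ℝ := fun n => if dl θ q x n ≤ 1 then dl θ q x n else 0 with hδ'
  have hv1 : ∀ᶠ n in (UU : Filter ℕ), v' n = vs θ q x n := by
    filter_upwards [dl_le_one H] with n hn
    rw [hv']
    simp only [if_pos hn]
  have hδ1 : ∀ᶠ n in (UU : Filter ℕ), δ' n = dl θ q x n := by
    filter_upwards [dl_le_one H] with n hn
    rw [hδ']
    simp only [if_pos hn]
  obtain ⟨E, C, hC, hE⟩ := branch φ p η h0 h1 v' δ' (by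
    intro n
    rw [hδ']
    simp only []
    split_ifs with h
    · exact ⟨dl_nonneg _ _ _ _, h⟩
    · exact ⟨le_rfl, zero_le_one⟩) ((dl_tendsto H).congr' (by
      filter_upwards [hδ1] with n hn
      exact hn.symm)) (by
    intro n i
    rw [hv', hδ']
    simp only []
    split_ifs with h
    · exact le_dl _ _ _ _ _
    · simp) Y hY (by
    filter_upwards [hroot, hv1] with n h2 h3
    rw [h3]
    exact h2) r
  refine ⟨E, ?_⟩
  have h2 := Sm.mul H.big (Sm.const H.big (C : ℂ)) (Sm.pow H.big (sm_dl H) (r + 1))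
  rw [zero_add, mul_neg, mul_one] at h2
  refine h2.le ?_
  filter_upwards [hE, hv1, hδ1] with n h3 h4 h5
  rw [h4, h5] at h3
  rw [norm_mul, norm_pow, Complex.norm_real, Complex.norm_real, Real.norm_of_nonneg hC,
    Real.norm_of_nonneg (dl_nonneg _ _ _ _)]
  exact h3

/-- the expansion along a sequence of points -/
theorem expand' (E : MvPolynomial (Option σ) K) (D : ℕ) :
    ∃ c : Ex (Option σ) D → K, Sm q (-1) (fun n => (q n : ℂ) ^ D * evr φ (vs θ q x n) E
      - ∑ a : Ex (Option σ) D, φ (c a) * ((zv θ (q n) (x n) a.1 : ℝ) : ℂ)) := by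
  obtain ⟨c, C, hC, hc⟩ := expandδ φ E D
  refine ⟨c, ?_⟩
  have h1 := Sm.mul H.big (Sm.qpow H.big D) (Sm.mul H.big (Sm.const H.big (C : ℂ))
    (Sm.pow H.big (sm_dl H) (D + 1)))
  have e1 : (D : ℝ) + (0 + ((D + 1 : ℕ) : ℝ) * -1) = -1 := by push_cast; ring
  rw [e1] at h1
  refine h1.le ?_
  filter_upwards [dl_le_one H] with n hn
  have h2 := hc (q n) (qpos H.big n) (fr θ (q n) (x n)) (dl θ q x n) (dl_nonneg _ _ _ _) hn
    (le_dl _ _ _ _)
  have h3 : ∀ a : Ex (Option σ) D, ((zv θ (q n) (x n) a.1 : ℝ) : ℂ)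
      = ((q n : ℝ) : ℂ) ^ (a.1 none) * ∏ s, (fr θ (q n) (x n) s : ℂ) ^ (a.1 (some s)) := by
    intro a
    unfold zv
    push_cast
    rfl
  simp only [h3]
  rw [norm_mul, norm_pow, norm_mul, norm_pow, Complex.norm_real, Complex.norm_real,
    Complex.norm_natCast, Real.norm_of_nonneg hC, Real.norm_of_nonneg (dl_nonneg _ _ _ _)]
  push_cast at h2 ⊢
  exact h2

end


section
variable {σ : Type} [Fintype σ] [DecidableEq σ]

open MvPolynomial

variable {P : Polynomial (MvPolynomial (Option σ) ℤ)} {D d : ℕ}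

variable {θ : σ → ℝ} {q : ℕ → ℕ} {x : ℕ → σ → ℤ} (H : Nr θ q x)

include H

lemma px_ne (n : ℕ) : q n ≠ 0 := by have := H.big n; omega

/-- roots of the polynomials are bounded -/
lemma root_bnd (θK : σ → QB) (hlead : topv d P.leadingCoeff θK ≠ 0)
    (hdeg : ∀ i, (P.coeff i).totalDegree ≤ (P.natDegree - i) * D + d) :
    ∃ M : ℝ, ∀ᶠ n in (UU : Filter ℕ), ∀ y : ℂ,
      ((ptl P D d θK).map (evr phi (vs θ q x n))).eval y = 0 → ‖y‖ ≤ M := by
  have hb : ∀ E : MvPolynomial (Option σ) QB, ∃ M : ℝ, 0 ≤ M ∧ ∀ᶠ n in (UU : Filter ℕ),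
      ‖evr phi (vs θ q x n) E‖ ≤ M := by
    intro E
    refine ⟨‖phi (constantCoeff E)‖ + 1, by positivity, ?_⟩
    filter_upwards [(lim_evr phi H E).norm.eventually (gt_mem_nhds
      (show ‖phi (constantCoeff E)‖ < ‖phi (constantCoeff E)‖ + 1 by linarith))] with n hn
    exact hn.le
  choose M hM0 hM using fun i => hb (hmg θK ((P.natDegree - i) * D + d) (P.coeff i))
  have hlim := (lim_evr phi H (hmg θK d P.leadingCoeff)).norm
  have hdl : (P.leadingCoeff).totalDegree ≤ d := by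
    have := hdeg P.natDegree
    rwa [Nat.sub_self, zero_mul, zero_add] at this
  rw [cc_hmg θK d _ hdl] at hlim
  set c : ℝ := ‖phi (topv d P.leadingCoeff θK)‖ with hc
  have hc0 : 0 < c := norm_pos_iff.2 ((map_ne_zero _).2 hlead)
  refine ⟨max 1 ((∑ i ∈ Finset.range P.natDegree, M i) / (c / 2)), ?_⟩
  have hall : ∀ᶠ n in (UU : Filter ℕ), ∀ i ∈ Finset.range P.natDegree,
      ‖evr phi (vs θ q x n) (hmg θK ((P.natDegree - i) * D + d) (P.coeff i))‖ ≤ M i := by
    rw [Filter.eventually_all_finset]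
    exact fun i _ => hM i
  filter_upwards [hlim.eventually (lt_mem_nhds (show c / 2 < c by linarith)), hall] with n hn hMn y hy
  by_cases hy1 : ‖y‖ ≤ 1
  · exact hy1.trans (le_max_left _ _)
  push Not at hy1
  refine le_trans ?_ (le_max_right _ _)
  unfold ptl at hy
  rw [Polynomial.map_sum, Polynomial.eval_finsetSum, Finset.sum_range_succ] at hy
  have h1 : ∀ i, (Polynomial.map (evr phi (vs θ q x n))
      (Polynomial.C (hmg θK ((P.natDegree - i) * D + d) (P.coeff i)) * Polynomial.X ^ i)).eval y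
      = evr phi (vs θ q x n) (hmg θK ((P.natDegree - i) * D + d) (P.coeff i)) * y ^ i := by
    intro i
    rw [Polynomial.map_mul, Polynomial.map_pow, Polynomial.map_X, Polynomial.map_C,
      Polynomial.eval_mul, Polynomial.eval_pow, Polynomial.eval_X, Polynomial.eval_C]
  simp only [h1] at hy
  rw [Nat.sub_self, zero_mul, zero_add] at hy
  have hlc : P.coeff P.natDegree = P.leadingCoeff := rfl
  rw [hlc] at hy
  by_cases hk : P.natDegree = 0
  · rw [hk] at hy
    simp only [Finset.range_zero, Finset.sum_empty, pow_zero, mul_one, zero_add] at hy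
    rw [hy, norm_zero] at hn
    linarith
  have h2 : evr phi (vs θ q x n) (hmg θK d P.leadingCoeff) * y ^ P.natDegree
      = -∑ i ∈ Finset.range P.natDegree,
      evr phi (vs θ q x n) (hmg θK ((P.natDegree - i) * D + d) (P.coeff i)) * y ^ i :=
    eq_neg_of_add_eq_zero_right hy
  have h3 : c / 2 * ‖y‖ ^ P.natDegree
      ≤ (∑ i ∈ Finset.range P.natDegree, M i) * ‖y‖ ^ (P.natDegree - 1) := by
    calc c / 2 * ‖y‖ ^ P.natDegree
        ≤ ‖evr phi (vs θ q x n) (hmg θK d P.leadingCoeff)‖ * ‖y‖ ^ P.natDegree :=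
          mul_le_mul_of_nonneg_right hn.le (by positivity)
      _ = ‖evr phi (vs θ q x n) (hmg θK d P.leadingCoeff) * y ^ P.natDegree‖ := by
          rw [norm_mul, norm_pow]
      _ ≤ _ := by
          rw [h2, norm_neg, Finset.sum_mul]
          refine (norm_sum_le _ _).trans (Finset.sum_le_sum fun i hi => ?_)
          rw [norm_mul, norm_pow]
          have := Finset.mem_range.1 hi
          exact mul_le_mul (hMn i hi) (pow_le_pow_right₀ hy1.le (by omega)) (by positivity) (hM0 i)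
  have h4 : ‖y‖ ^ P.natDegree = ‖y‖ * ‖y‖ ^ (P.natDegree - 1) := by
    rw [← pow_succ']
    congr 1
    omega
  rw [h4, ← mul_assoc] at h3
  have h5 : (0 : ℝ) < ‖y‖ ^ (P.natDegree - 1) := by positivity
  have h6 := le_of_mul_le_mul_right h3 h5
  rw [le_div_iff₀ (by positivity)]
  linarith

/-- **Approximation of the roots.** -/
theorem approxS (p : Polynomial (MvPolynomial (Option σ) QB)) (hp0 : p.map constantCoeff ≠ 0)
    (hsep : ∀ η : QB, (p.map constantCoeff).eval η = 0 →
      (p.map constantCoeff).derivative.eval η ≠ 0)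
    (Y : ℕ → ℂ) (M : ℝ) (hYb : ∀ᶠ n in (UU : Filter ℕ), ‖Y n‖ ≤ M)
    (hroot : ∀ᶠ n in (UU : Filter ℕ), (p.map (evr phi (vs θ q x n))).eval (Y n) = 0)
    (R : ℕ) :
    ∃ E : MvPolynomial (Option σ) QB, Sm q (-(R + 1 : ℕ)) (fun n => Y n - evr phi (vs θ q x n) E) := by
  obtain ⟨η, hη⟩ := exists_limc Y M hYb
  have hsum : ∀ (n : ℕ) (z : ℂ), (p.map (evr phi (vs θ q x n))).eval z
      = ∑ i ∈ Finset.range (p.natDegree + 1), evr phi (vs θ q x n) (p.coeff i) * z ^ i := by
    intro n z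
    rw [Polynomial.eval_map, Polynomial.eval₂_eq_sum_range]
  have h1 : Tendsto (fun n => (p.map (evr phi (vs θ q x n))).eval (Y n)) (UU : Filter ℕ)
      (𝓝 (∑ i ∈ Finset.range (p.natDegree + 1), phi (constantCoeff (p.coeff i)) * η ^ i)) := by
    simp only [hsum]
    exact tendsto_finsetSum _ fun i _ => (lim_evr phi H _).mul (hη.pow i)
  have h2 : ∑ i ∈ Finset.range (p.natDegree + 1), phi (constantCoeff (p.coeff i)) * η ^ i = 0 := by
    refine tendsto_nhds_unique h1 ?_
    refine tendsto_const_nhds.congr' ?_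
    filter_upwards [hroot] with n hn
    exact hn.symm
  have h3 : Polynomial.aeval η (p.map constantCoeff) = 0 := by
    rw [Polynomial.aeval_eq_sum_range' (n := p.natDegree + 1)
      (Nat.lt_succ_of_le Polynomial.natDegree_map_le), ← h2]
    refine Finset.sum_congr rfl fun i _ => ?_
    rw [Polynomial.coeff_map, Algebra.smul_def]
  have h4 : IsAlgebraic ℚ η := by
    have h5 : IsAlgebraic QB η := ⟨_, hp0, h3⟩
    have h6 : Algebra.IsAlgebraic ℚ QB := algebraicClosure.isAlgebraic ℚ ℂ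
    exact h5.restrictScalars ℚ
  set η' : QB := ⟨η, mem_algebraicClosure_iff.2 h4⟩ with hη'
  have h5 : phi η' = η := rfl
  have h6 : (p.map constantCoeff).eval η' = 0 := by
    apply phi.injective
    rw [map_zero, ← h3, Polynomial.aeval_def, ← h5, Polynomial.eval₂_at_apply]
  exact branch' phi H p η' h6 (hsep η' h6) Y (by rw [h5]; exact hη) hroot R

/-- expansion of the roots -/
theorem root_exp (halg : ∀ s, IsAlgebraic ℚ (θ s)) (hlead : topv d P.leadingCoeff θ ≠ 0)
    (hdeg : ∀ i, (P.coeff i).totalDegree ≤ (P.natDegree - i) * D + d)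
    (hsep : (pnf P D d θ).Separable)
    (ρ : ℕ → ℂ) (hρ : ∀ᶠ n in (UU : Filter ℕ), (P.map (evx (q n) (x n) ℂ)).eval (ρ n) = 0) (R : ℕ) :
    ∃ c : Ex (Option σ) (R + D) → QB, Sm q (-1) (fun n => (q n : ℂ) ^ R * ρ n
      - ∑ a, phi (c a) * ((zv θ (q n) (x n) a.1 : ℝ) : ℂ)) := by
  have hqn0 : ∀ n, q n ≠ 0 := px_ne H
  set θK : σ → QB := fun s => ⟨(θ s : ℂ), mem_algebraicClosure_iff.2 (alg_of_real.2 (halg s))⟩ with hθK
  have hθ : ∀ s, phi (θK s) = (θ s : ℂ) := fun s => rfl
  have hlead' : topv d P.leadingCoeff θK ≠ 0 := by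
    intro h
    have h1 := topv_map phi d P.leadingCoeff θK
    rw [h, map_zero] at h1
    have h2 := topv_map (algebraMap ℝ ℂ) d P.leadingCoeff θ
    have h3 : (fun s => phi (θK s)) = fun s => algebraMap ℝ ℂ (θ s) := rfl
    rw [h3, ← h2] at h1
    exact hlead ((map_eq_zero _).1 h1.symm)
  obtain ⟨M, hM⟩ := root_bnd (P := P) (D := D) (d := d) H θK hlead' hdeg
  have hcc := ptl_cc hdeg θK
  have hp0 : (ptl P D d θK).map constantCoeff ≠ 0 := by
    rw [hcc]
    intro h
    have h1 := pnf_coeff_top (P := P) (D := D) (d := d) θK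
    rw [h, Polynomial.coeff_zero] at h1
    exact hlead' h1.symm
  have hsep' : ∀ η : QB, ((ptl P D d θK).map constantCoeff).eval η = 0 →
      ((ptl P D d θK).map constantCoeff).derivative.eval η ≠ 0 := by
    rw [hcc]
    intro η h1 h2
    have h3 : (pnf P D d (fun s => (θ s : ℂ))).Separable := by
      have h4 := hsep.map (f := algebraMap ℝ ℂ)
      rw [pnf_map] at h4
      exact h4
    have h4 : (pnf P D d θK).map phi = pnf P D d (fun s => (θ s : ℂ)) := pnf_map phi θK
    rw [← h4] at h3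
    obtain ⟨a, b, hab⟩ := h3
    have h5 := congrArg (Polynomial.eval (phi η)) hab
    rw [Polynomial.eval_add, Polynomial.eval_mul, Polynomial.eval_mul, Polynomial.derivative_map,
      Polynomial.eval_map_apply, Polynomial.eval_map_apply, h1, h2] at h5
    simp at h5
  set Y : ℕ → ℂ := fun n => ρ n / (q n : ℂ) ^ D with hY
  have hroot : ∀ᶠ n in (UU : Filter ℕ), ((ptl P D d θK).map (evr phi (vs θ q x n))).eval (Y n) = 0 := by
    filter_upwards [hρ] with n h1
    have hqc : (q n : ℂ) ≠ 0 := by exact_mod_cast hqn0 n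
    rw [← ptl_eval hθ hdeg (hqn0 n) (x n) (ρ n)] at h1
    exact (mul_eq_zero.1 h1).resolve_left (pow_ne_zero _ hqc)
  obtain ⟨E, hE⟩ := approxS H (ptl P D d θK) hp0 hsep' Y M (by
    filter_upwards [hM, hroot] with n h1 h2
    exact h1 _ h2) hroot (R + D)
  obtain ⟨c, hc⟩ := expand' phi H E (R + D)
  refine ⟨c, ?_⟩
  have h1 := Sm.mul H.big (Sm.qpow H.big (R + D)) hE
  have e1 : ((R + D : ℕ) : ℝ) + -((R + D + 1 : ℕ) : ℝ) = -1 := by push_cast; ring
  rw [e1] at h1
  refine (Sm.add H.big h1 hc).congr (Eventually.of_forall fun n => ?_)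
  have hqc : (q n : ℂ) ≠ 0 := by exact_mod_cast hqn0 n
  have h2 : (q n : ℂ) ^ (R + D) * Y n = (q n : ℂ) ^ R * ρ n := by
    rw [hY]
    simp only []
    rw [pow_add]
    field_simp
  rw [mul_sub, h2]
  ring

end


end Pool.Agent.Q4.Opt
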