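import Mathlib
import Pool.Agent.Q4.Opt.Mon

set_option autoImplicit false
set_option linter.unusedSectionVars false

/-!
# The subspace theorem modulo relations
-/

namespace Pool.Agent.Q4.Opt

open Filter Topology Pool.Agent.TH932.Abs Pool.Agent.TH932.Germs Pool.Agent.TH932.Chi
open Pool.Agent.TH796.AL Pool.Agent.Q4.Blk Pool.Agent.Q4.Gcd Pool.Agent.Q4.Cov Module
open Pool.Agent.Q4.Tube

/-- an invertible matrix has a nonzero permutation product -/
lemma exists_perm {K : Type*} [Field K] {ι κ : Type*} [Fintype ι] [Fintype κ]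
    (hc : Fintype.card ι = Fintype.card κ) (G : ι → κ → K) (hG : LinearIndependent K G) :
    ∃ π : ι ≃ κ, ∀ i, G i (π i) ≠ 0 := by
  classical
  set e : ι ≃ κ := Fintype.equivOfCardEq hc with he
  set A : Matrix ι ι K := Matrix.of fun i j => G i (e j) with hA
  have h1 : LinearIndependent K A.row := by
    have h2 : LinearIndependent K (fun i => (LinearEquiv.funCongrLeft K K e) (G i)) :=
      hG.map' (LinearEquiv.funCongrLeft K K e).toLinearMap (LinearEquiv.ker _)
    exact h2
  have h2 : IsUnit A := Matrix.linearIndependent_rows_iff_isUnit.1 h1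
  have h3 : A.det ≠ 0 := ((Matrix.isUnit_iff_isUnit_det A).1 h2).ne_zero
  rw [← Matrix.det_transpose, Matrix.det_apply] at h3
  obtain ⟨σ, _, hσ⟩ := Finset.exists_ne_zero_of_sum_ne_zero h3
  have h4 : ∏ i, A.transpose (σ i) i ≠ 0 := by
    intro h
    apply hσ
    rw [h, smul_zero]
  rw [Finset.prod_ne_zero_iff] at h4
  exact ⟨σ.trans e, fun i => h4 i (Finset.mem_univ i)⟩

/-- **The subspace theorem modulo relations.** -/
theorem sub2 {S : Finset ℕ} (hS : ∀ p ∈ S, p.Prime) {q : ℕ → ℕ} (hq : ∀ n, n + 2 ≤ q n)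
    {ι : Type} [Fintype ι] [DecidableEq ι] (X : ι → ℕ → ℤ)
    (M : ι → ι → ℝ) (hMa : ∀ i j, IsAlgebraic ℚ (M i j))
    (hM : ∀ i k, ∑ j, M i j * M j k = if i = k then 1 else 0)
    (wt : ι → ℝ) (β : Fin S.card → ℝ) (hwt : ∀ v i, Dv S hS q v (β v * wt i) (X i))
    (e : ι → ℝ) (he : ∀ i, Sm q (e i) (fun n => ((∑ j, M i j * X j n : ℝ) : ℂ)))
    (U : Submodule ℚ (ι → ℚ))
    (hU : ∀ c : ι → ℚ, (∀ᶠ n in (UU : Filter ℕ), ∑ i, c i * X i n = 0) ↔ c ∈ U) :
    ∃ (P P' : Finset ι) (b : ι → ι → ℚ) (b' : ι → ι → ℝ), P.card = finrank ℚ U ∧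
      P'.card = finrank ℚ U ∧ (∀ i ∈ P, b i ∈ U) ∧
      (∀ i ∈ P, ∀ j ∈ P, b i j = if i = j then 1 else 0) ∧
      (∀ i ∈ P, ∀ j, b i j ≠ 0 → wt i ≤ wt j) ∧
      (∀ i ∈ P', ∃ γ : ι → ℝ, ∀ k, b' i k = ∑ l ∈ P, γ l * ∑ j, (b l j : ℝ) * M j k) ∧
      (∀ i ∈ P', ∀ j ∈ P', b' i j = if i = j then 1 else 0) ∧
      (∀ i ∈ P', ∀ j, b' i j ≠ 0 → e j ≤ e i) ∧
      ∑ i ∈ Pᶜ, (∑ v, β v) * wt i ≤ ∑ i ∈ P'ᶜ, e i := by
  classical
  obtain ⟨P, b, hPc, hbU, hbδ, hbw⟩ := adapted U wt
  -- the rows in the coordinates of the forms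
  set r : P → ι → ℝ := fun i k => ∑ j, (b i.1 j : ℝ) * M j k with hr
  have hrM : ∀ (i : P) (k : ι), ∑ j, r i j * M j k = b i.1 k := by
    intro i k
    rw [hr]
    simp only [Finset.sum_mul]
    rw [Finset.sum_comm]
    have h1 : ∀ a, ∑ j, (b i.1 a : ℝ) * M a j * M j k = (b i.1 a : ℝ) * (if a = k then 1 else 0) := by
      intro a
      rw [← hM a k, Finset.mul_sum]
      exact Finset.sum_congr rfl fun j _ => mul_assoc _ _ _
    simp only [h1]
    simp
  have hrli : LinearIndependent ℝ r := by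
    rw [Fintype.linearIndependent_iff]
    intro c hc i0
    have h1 : ∀ k, ∑ i : P, c i * (b i.1 k : ℝ) = 0 := by
      intro k
      have h2 : ∑ j, (∑ i : P, c i • r i) j * M j k = 0 := by
        rw [hc]; simp
      rw [← h2]
      simp only [Finset.sum_apply, Pi.smul_apply, smul_eq_mul, Finset.sum_mul]
      rw [Finset.sum_comm]
      refine Finset.sum_congr rfl fun i _ => ?_
      rw [← hrM i k, Finset.mul_sum]
      exact Finset.sum_congr rfl fun j _ => (mul_assoc _ _ _).symm
    have h2 := h1 i0.1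
    rw [Finset.sum_eq_single i0] at h2
    · rw [hbδ _ i0.2 _ i0.2, if_pos rfl, Rat.cast_one, mul_one] at h2
      exact h2
    · intro i _ hne
      rw [hbδ _ i.2 _ i0.2, if_neg (fun h => hne (Subtype.ext h)), Rat.cast_zero, mul_zero]
    · intro h
      exact absurd (Finset.mem_univ _) h
  set W' : Submodule ℝ (ι → ℝ) := Submodule.span ℝ (Set.range r) with hW'
  have hW'r : finrank ℝ W' = P.card := by
    rw [hW', finrank_span_eq_card hrli, Fintype.card_coe]
  obtain ⟨P', b', hPc', hbW', hbδ', hbw'⟩ := adapted W' (fun i => -e i)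
  have hcc : P'.card = P.card := by rw [hPc', hW'r]
  have hγ : ∀ i ∈ P', ∃ γ : ι → ℝ, ∀ k, b' i k = ∑ l ∈ P, γ l * ∑ j, (b l j : ℝ) * M j k := by
    intro i hi
    obtain ⟨γ, hγ⟩ := (Submodule.mem_span_range_iff_exists_fun ℝ).1 (hbW' i hi)
    refine ⟨fun l => if h : l ∈ P then γ ⟨l, h⟩ else 0, fun k => ?_⟩
    rw [← hγ, Finset.sum_apply, ← Finset.sum_coe_sort P]
    refine Finset.sum_congr rfl fun l _ => ?_
    have h1 : (fun l => if h : l ∈ P then γ ⟨l, h⟩ else 0) l.1 = γ l := dif_pos l.2
    rw [h1]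
    rfl
  refine ⟨P, P', b, b', hPc, hcc.trans hPc, hbU, hbδ, hbw, hγ, hbδ',
    fun i hi j h => neg_le_neg_iff.1 (hbw' i hi j h), ?_⟩
  -- the subspace theorem for the complement
  have hcomp : Fintype.card (Pᶜ : Finset ι) = Fintype.card (P'ᶜ : Finset ι) := by
    rw [Fintype.card_coe, Fintype.card_coe, Finset.card_compl, Finset.card_compl, hcc]
  set ee : (Pᶜ : Finset ι) ≃ (P'ᶜ : Finset ι) := Fintype.equivOfCardEq hcomp with hee
  -- reduction of the elements
  have hred : ∀ᶠ n in (UU : Filter ℕ), ∀ l ∈ P,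
      (X l n : ℝ) = -∑ i : (Pᶜ : Finset ι), (b l i.1 : ℝ) * X i.1 n := by
    rw [Filter.eventually_all_finset]
    intro l hl
    filter_upwards [(hU (b l)).2 (hbU l hl)] with n hn
    have h1 : ∑ i, (b l i : ℝ) * X i n = 0 := by exact_mod_cast hn
    rw [← Finset.sum_add_sum_compl P] at h1
    have h2 : ∑ i ∈ P, (b l i : ℝ) * X i n = X l n := by
      rw [Finset.sum_eq_single l]
      · rw [hbδ l hl l hl, if_pos rfl, Rat.cast_one, one_mul]
      · intro i hi hil
        rw [hbδ l hl i hi, if_neg (Ne.symm hil), Rat.cast_zero, zero_mul]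
      · exact fun h => absurd hl h
    rw [h2, ← Finset.sum_coe_sort (Pᶜ : Finset ι)] at h1
    linarith
  have key := sub0 hS hq (ι := (Pᶜ : Finset ι)) (fun i => X i.1) ?_
    (fun k i => M (ee k).1 i.1 - ∑ l ∈ P, M (ee k).1 l * b l i.1) ?_ ?_
    (fun v i => β v * wt i.1) (fun v i => hwt v i.1) (fun k => e (ee k).1) ?_
  · have h1 : ∑ v, ∑ i : (Pᶜ : Finset ι), β v * wt i.1 = ∑ i ∈ Pᶜ, (∑ v, β v) * wt i := by
      rw [Finset.sum_comm, ← Finset.sum_coe_sort (Pᶜ : Finset ι)]
      refine Finset.sum_congr rfl fun i _ => ?_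
      rw [Finset.sum_mul]
    have h2 : ∑ k : (Pᶜ : Finset ι), e (ee k).1 = ∑ i ∈ P'ᶜ, e i := by
      rw [← Finset.sum_coe_sort (P'ᶜ : Finset ι)]
      exact Equiv.sum_comp ee (fun i : (P'ᶜ : Finset ι) => e i.1)
    rw [h1, h2] at key
    exact key
  · -- independence
    intro c hc
    have h1 : (fun i => if h : i ∈ Pᶜ then ((c ⟨i, h⟩ : ℤ) : ℚ) else 0) ∈ U := by
      rw [← hU]
      filter_upwards [hc] with n hn
      rw [← Finset.sum_add_sum_compl Pᶜ]
      have h2 : ∑ i ∈ (Pᶜ)ᶜ, (if h : i ∈ Pᶜ then ((c ⟨i, h⟩ : ℤ) : ℚ) else 0) * (X i n : ℚ) = 0 := by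
        refine Finset.sum_eq_zero fun i hi => ?_
        rw [dif_neg (Finset.mem_compl.1 hi), zero_mul]
      rw [h2, add_zero, ← Finset.sum_coe_sort (Pᶜ : Finset ι)]
      have hn' : ((∑ i : (Pᶜ : Finset ι), c i * X i.1 n : ℤ) : ℚ) = 0 := by rw [hn]; rfl
      push_cast at hn'
      rw [← hn']
      refine Finset.sum_congr rfl fun i _ => ?_
      rw [dif_pos i.2]
    -- an element of `U` supported off `P` vanishes
    have h2 : ∀ u ∈ U, (∀ i ∈ P, u i = 0) → u = 0 := by
      intro u hu hu0
      -- the basis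
      have hli : LinearIndependent ℚ (fun i : P => (⟨b i.1, hbU i.1 i.2⟩ : U)) := by
        rw [Fintype.linearIndependent_iff]
        intro a ha i0
        have h3 := congrArg (fun t : U => (t : ι → ℚ) i0.1) ha
        simp only [Submodule.coe_sum, Submodule.coe_smul, Finset.sum_apply, Pi.smul_apply,
          smul_eq_mul] at h3
        rw [Finset.sum_eq_single i0] at h3
        · rw [hbδ _ i0.2 _ i0.2, if_pos rfl, mul_one] at h3
          exact h3
        · intro i _ hne
          rw [hbδ _ i.2 _ i0.2, if_neg (fun h => hne (Subtype.ext h)), mul_zero]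
        · intro h
          exact absurd (Finset.mem_univ _) h
      have hsp := hli.span_eq_top_of_card_eq_finrank' (by rw [Fintype.card_coe, hPc])
      have h4 : (⟨u, hu⟩ : U) ∈ Submodule.span ℚ (Set.range fun i : P => (⟨b i.1, hbU i.1 i.2⟩ : U)) := by
        rw [hsp]; trivial
      obtain ⟨a, ha⟩ := (Submodule.mem_span_range_iff_exists_fun ℚ).1 h4
      have ha' : ∀ j, ∑ i : P, a i * b i.1 j = u j := by
        intro j
        have h3 := congrArg (fun t : U => (t : ι → ℚ) j) ha
        simpa only [Submodule.coe_sum, Submodule.coe_smul, Finset.sum_apply, Pi.smul_apply,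
          smul_eq_mul] using h3
      have ha0 : ∀ i, a i = 0 := by
        intro i0
        have h3 := ha' i0.1
        rw [hu0 i0.1 i0.2, Finset.sum_eq_single i0] at h3
        · rw [hbδ _ i0.2 _ i0.2, if_pos rfl, mul_one] at h3
          exact h3
        · intro i _ hne
          rw [hbδ _ i.2 _ i0.2, if_neg (fun h => hne (Subtype.ext h)), mul_zero]
        · intro h
          exact absurd (Finset.mem_univ _) h
      funext j
      rw [← ha' j]
      simp [ha0]
    intro i
    have h3 := congrFun (h2 _ h1 (fun j hj => dif_neg fun h => (Finset.mem_compl.1 h) hj)) i.1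
    rw [dif_pos i.2, Pi.zero_apply] at h3
    exact_mod_cast h3
  · intro k i
    refine (hMa _ _).sub (alg_sum _ _ fun l _ => (hMa _ _).mul ?_)
    exact isAlgebraic_algebraMap (R := ℚ) (A := ℝ) (b l i.1)
  · -- the rank
    intro c hc
    set R : ι → ℝ := fun j => ∑ k : (Pᶜ : Finset ι), c k * M (ee k).1 j with hR
    have hR1 : ∀ j, R j = ∑ l ∈ P, R l * b l j := by
      intro j
      by_cases hj : j ∈ P
      · rw [Finset.sum_eq_single j]
        · rw [hbδ j hj j hj, if_pos rfl, Rat.cast_one, mul_one]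
        · intro l hl hlj
          rw [hbδ l hl j hj, if_neg hlj, Rat.cast_zero, mul_zero]
        · exact fun h => absurd hj h
      · have h1 := hc ⟨j, Finset.mem_compl.2 hj⟩
        simp only [mul_sub, Finset.sum_sub_distrib] at h1
        have h2 : ∑ k : (Pᶜ : Finset ι), c k * ∑ l ∈ P, M (ee k).1 l * (b l j : ℝ)
            = ∑ l ∈ P, R l * b l j := by
          simp only [Finset.mul_sum, hR, Finset.sum_mul]
          rw [Finset.sum_comm]
          refine Finset.sum_congr rfl fun l _ => Finset.sum_congr rfl fun k _ => ?_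
          ring
        rw [h2] at h1
        linarith
    -- the vector in the coordinates of the forms
    have hT : ∀ i, ∑ j, R j * M j i = if h : i ∈ P'ᶜ then c (ee.symm ⟨i, h⟩) else 0 := by
      intro i
      rw [hR]
      simp only [Finset.sum_mul]
      rw [Finset.sum_comm]
      have h1 : ∀ k : (Pᶜ : Finset ι), ∑ j, c k * M (ee k).1 j * M j i
          = c k * (if (ee k).1 = i then 1 else 0) := by
        intro k
        rw [← hM (ee k).1 i, Finset.mul_sum]
        exact Finset.sum_congr rfl fun j _ => mul_assoc _ _ _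
      simp only [h1]
      by_cases h : i ∈ P'ᶜ
      · rw [dif_pos h, Finset.sum_eq_single (ee.symm ⟨i, h⟩)]
        · simp
        · intro k _ hk
          rw [if_neg, mul_zero]
          intro h2
          apply hk
          rw [Equiv.eq_symm_apply]
          exact Subtype.ext h2
        · intro h2
          exact absurd (Finset.mem_univ _) h2
      · rw [dif_neg h]
        refine Finset.sum_eq_zero fun k _ => ?_
        rw [if_neg, mul_zero]
        intro h2
        exact h (h2 ▸ (ee k).2)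
    have hTW : (fun i => ∑ j, R j * M j i) ∈ W' := by
      have h1 : (fun i => ∑ j, R j * M j i) = ∑ l : P, R l.1 • r l := by
        funext i
        rw [Finset.sum_apply]
        simp only [Pi.smul_apply, smul_eq_mul, hr, Finset.mul_sum]
        rw [Finset.sum_comm]
        refine Finset.sum_congr rfl fun j _ => ?_
        rw [hR1 j, Finset.sum_mul, ← Finset.sum_coe_sort P]
        refine Finset.sum_congr rfl fun l _ => ?_
        ring
      rw [h1]
      exact Submodule.sum_mem _ fun l _ => Submodule.smul_mem _ _ (Submodule.subset_span ⟨l, rfl⟩)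
    have hz : ∀ u ∈ W', (∀ i ∈ P', u i = 0) → u = 0 := by
      intro u hu hu0
      have hli : LinearIndependent ℝ (fun i : P' => (⟨b' i.1, hbW' i.1 i.2⟩ : W')) := by
        rw [Fintype.linearIndependent_iff]
        intro a ha i0
        have h3 := congrArg (fun t : W' => (t : ι → ℝ) i0.1) ha
        simp only [Submodule.coe_sum, Submodule.coe_smul, Finset.sum_apply, Pi.smul_apply,
          smul_eq_mul] at h3
        rw [Finset.sum_eq_single i0] at h3
        · rw [hbδ' _ i0.2 _ i0.2, if_pos rfl, mul_one] at h3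
          exact h3
        · intro i _ hne
          rw [hbδ' _ i.2 _ i0.2, if_neg (fun h => hne (Subtype.ext h)), mul_zero]
        · intro h
          exact absurd (Finset.mem_univ _) h
      have hsp := hli.span_eq_top_of_card_eq_finrank' (by rw [Fintype.card_coe, hPc'])
      have h4 : (⟨u, hu⟩ : W') ∈ Submodule.span ℝ
          (Set.range fun i : P' => (⟨b' i.1, hbW' i.1 i.2⟩ : W')) := by
        rw [hsp]; trivial
      obtain ⟨a, ha⟩ := (Submodule.mem_span_range_iff_exists_fun ℝ).1 h4
      have ha' : ∀ j, ∑ i : P', a i * b' i.1 j = u j := by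
        intro j
        have h3 := congrArg (fun t : W' => (t : ι → ℝ) j) ha
        simpa only [Submodule.coe_sum, Submodule.coe_smul, Finset.sum_apply, Pi.smul_apply,
          smul_eq_mul] using h3
      have ha0 : ∀ i, a i = 0 := by
        intro i0
        have h3 := ha' i0.1
        rw [hu0 i0.1 i0.2, Finset.sum_eq_single i0] at h3
        · rw [hbδ' _ i0.2 _ i0.2, if_pos rfl, mul_one] at h3
          exact h3
        · intro i _ hne
          rw [hbδ' _ i.2 _ i0.2, if_neg (fun h => hne (Subtype.ext h)), mul_zero]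
        · intro h
          exact absurd (Finset.mem_univ _) h
      funext j
      rw [← ha' j]
      simp [ha0]
    have h5 := hz _ hTW (fun i hi => by
      rw [hT i, dif_neg (fun h => (Finset.mem_compl.1 h) hi)])
    intro k
    have h6 := congrFun h5 (ee k).1
    rw [hT (ee k).1, dif_pos (ee k).2] at h6
    simpa using h6
  · intro k
    refine (he (ee k).1).congr ?_
    filter_upwards [hred] with n hn
    congr 1
    rw [← Finset.sum_add_sum_compl P (fun j => M (ee k).1 j * (X j n : ℝ)),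
      ← Finset.sum_coe_sort (Pᶜ : Finset ι) (fun j => M (ee k).1 j * (X j n : ℝ))]
    have h1 : ∑ l ∈ P, M (ee k).1 l * (X l n : ℝ)
        = -∑ i : (Pᶜ : Finset ι), (∑ l ∈ P, M (ee k).1 l * b l i.1) * X i.1 n := by
      simp only [Finset.sum_mul]
      rw [Finset.sum_comm, ← Finset.sum_neg_distrib]
      refine Finset.sum_congr rfl fun l hl => ?_
      rw [hn l hl, mul_neg, Finset.mul_sum]
      congr 1
      refine Finset.sum_congr rfl fun i _ => ?_
      ring
    rw [h1, neg_add_eq_sub, ← Finset.sum_sub_distrib]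
    refine Finset.sum_congr rfl fun i _ => ?_
    ring

end Pool.Agent.Q4.Opt
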