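import Mathlib
import Pool.Agent.Q4.Opt.Mon

set_option autoImplicit false
set_option linter.unusedSectionVars false

/-!
# Forms with a large multiplicity at an algebraic point of degree at least three
-/

namespace Pool.Agent.Q4.Opt

open Filter Topology Pool.Agent.TH932.Abs Pool.Agent.TH932.Germs Pool.Agent.TH932.Chi
open Pool.Agent.TH796.AL Pool.Agent.Q4.Blk Pool.Agent.Q4.Gcd Pool.Agent.Q4.Cov Module
open Pool.Agent.Q4.Tube MvPolynomial

/-- a rational polynomial vanishing to order `m` at an algebraic number of degree `≥ 3` -/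
lemma mult_deg {θ : ℝ} (hθ : IsAlgebraic ℚ θ) (h3 : 3 ≤ (minpoly ℚ θ).natDegree)
    {r : Polynomial ℚ} (hr : r ≠ 0) {m : ℕ}
    (hm : (Polynomial.X - Polynomial.C θ) ^ m ∣ r.map (algebraMap ℚ ℝ)) : 3 * m ≤ r.natDegree := by
  set f := minpoly ℚ θ with hf
  have hirr : Irreducible f := minpoly.irreducible hθ.isIntegral
  have hfin : FiniteMultiplicity f r := by
    refine Polynomial.finiteMultiplicity_of_degree_pos_of_monic ?_ (minpoly.monic hθ.isIntegral) hr
    exact minpoly.degree_pos hθ.isIntegral
  obtain ⟨g, hg, hfg⟩ := hfin.exists_eq_pow_mul_and_not_dvd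
  set k := multiplicity f r with hk
  have hrm : r.map (algebraMap ℚ ℝ) ≠ 0 := (Polynomial.map_ne_zero_iff (algebraMap ℚ ℝ).injective).2 hr
  have h1 : m ≤ (r.map (algebraMap ℚ ℝ)).rootMultiplicity θ := (Polynomial.le_rootMultiplicity_iff hrm).2 hm
  have hg0 : g ≠ 0 := by
    rintro rfl
    exact hfg (dvd_zero _)
  have hgm : (g.map (algebraMap ℚ ℝ)).rootMultiplicity θ = 0 := by
    apply Polynomial.rootMultiplicity_eq_zero
    intro h
    apply hfg
    rw [hf]
    apply minpoly.dvd
    rw [Polynomial.aeval_def, ← Polynomial.eval_map]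
    exact h
  have hfm : (f.map (algebraMap ℚ ℝ)).rootMultiplicity θ ≤ 1 := by
    have hsep : (f.map (algebraMap ℚ ℝ)).Separable := hirr.separable.map
    have h5 := Polynomial.rootMultiplicity_le_one_of_separable hsep θ
    exact h5
  have hff : f.map (algebraMap ℚ ℝ) ≠ 0 :=
    (Polynomial.map_ne_zero_iff (algebraMap ℚ ℝ).injective).2 hirr.ne_zero
  have h2 : (r.map (algebraMap ℚ ℝ)).rootMultiplicity θ ≤ k := by
    rw [hg, Polynomial.map_mul, Polynomial.map_pow, Polynomial.rootMultiplicity_mul, hgm, add_zero]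
    · have h3 : ∀ j : ℕ, (f.map (algebraMap ℚ ℝ) ^ j).rootMultiplicity θ ≤ j := by
        intro j
        induction j with
        | zero => simp
        | succ j ih =>
          rw [pow_succ, Polynomial.rootMultiplicity_mul (mul_ne_zero (pow_ne_zero _ hff) hff)]
          omega
      exact h3 k
    · exact mul_ne_zero (pow_ne_zero _ hff)
        ((Polynomial.map_ne_zero_iff (algebraMap ℚ ℝ).injective).2 hg0)
  have h4 : r.natDegree = k * f.natDegree + g.natDegree := by
    conv_lhs => rw [hg]
    rw [Polynomial.natDegree_mul (pow_ne_zero _ hirr.ne_zero) hg0, Polynomial.natDegree_pow]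
  rw [h4]
  nlinarith

/-- the substitution commutes with homogeneous components -/
lemma tw_hom {σ : Type} [Fintype σ] [DecidableEq σ] {R : Type*} [CommRing R] (θ : σ → R) {D : ℕ}
    {G : MvPolynomial (Option σ) R} (hG : G.IsHomogeneous D) : (tw θ G).IsHomogeneous D := by
  classical
  have h1 : tw θ G = ∑ m ∈ G.support, C (coeff m G) * ∏ o, (o.elim (X none)
      (fun s => C (θ s) * X none - X (some s)) : MvPolynomial (Option σ) R) ^ (m o) := by
    conv_lhs => rw [as_sum G]
    rw [map_sum]
    refine Finset.sum_congr rfl fun m _ => ?_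
    unfold tw
    rw [bind₁_monomial]
    congr 1
    refine Finset.prod_subset (Finset.subset_univ _) fun o _ ho => ?_
    rw [Finsupp.notMem_support_iff.1 ho, pow_zero]
  rw [h1]
  refine IsHomogeneous.sum _ _ _ fun m hm => ?_
  have h2 : ∑ o, m o = D := by
    have := hG (mem_support_iff.1 hm)
    rw [← this, Finsupp.weight_apply, Finsupp.sum_fintype _ _ (by simp)]
    simp
  rw [← zero_add D, ← h2]
  refine IsHomogeneous.mul (isHomogeneous_C _ _) (IsHomogeneous.prod _ _ _ fun o _ => ?_)
  have h3 : (o.elim (X none) (fun s => C (θ s) * X none - X (some s)) :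
      MvPolynomial (Option σ) R).IsHomogeneous 1 := by
    cases o with
    | none => exact isHomogeneous_X _ _
    | some s =>
      refine IsHomogeneous.sub ?_ (isHomogeneous_X _ _)
      have := (isHomogeneous_C (Option σ) (θ s)).mul (isHomogeneous_X R (none : Option σ))
      rwa [zero_add] at this
  have := h3.pow (m o)
  rwa [one_mul] at this

/-- **No form over the rationals has large multiplicity at the point.** -/
theorem top_form {θ : ℝ} (hθ : IsAlgebraic ℚ θ) (h3 : 3 ≤ (minpoly ℚ θ).natDegree) {D : ℕ}
    (hD : 0 < D) {G : MvPolynomial (Option Unit) ℚ} (hG : G.IsHomogeneous D) (hG0 : G ≠ 0)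
    (hmul : ∀ m ∈ (tw (fun _ : Unit => θ) (map (algebraMap ℚ ℝ) G)).support,
      m none ≤ m (some ())) : False := by
  classical
  -- dehomogenisation
  set r : Polynomial ℚ := aeval (fun o : Option Unit => (o.elim 1 (fun _ => Polynomial.X) : Polynomial ℚ)) G
    with hr
  have hsum : ∀ m ∈ G.support, m none + m (some ()) = D := by
    intro m hm
    have := hG (mem_support_iff.1 hm)
    rw [← this, Finsupp.weight_apply, Finsupp.sum_fintype _ _ (by simp), Fintype.sum_option]
    simp
  have hre : r = ∑ m ∈ G.support, Polynomial.C (coeff m G) * Polynomial.X ^ (m (some ())) := by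
    rw [hr]
    conv_lhs => rw [as_sum G]
    rw [map_sum]
    refine Finset.sum_congr rfl fun m _ => ?_
    rw [aeval_monomial, Finsupp.prod_fintype _ _ (by simp), Fintype.prod_option]
    simp
  have hr0 : r ≠ 0 := by
    obtain ⟨m, hm⟩ := support_nonempty.2 hG0
    intro h
    have h1 := congrArg (fun p : Polynomial ℚ => p.coeff (m (some ()))) hre
    simp only [h, Polynomial.coeff_zero, Polynomial.finsetSum_coeff, Polynomial.coeff_C_mul,
      Polynomial.coeff_X_pow] at h1
    rw [Finset.sum_eq_single m] at h1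
    · rw [if_pos rfl, mul_one] at h1
      exact mem_support_iff.1 hm h1.symm
    · intro m' hm' hne
      rw [if_neg, mul_zero]
      intro h2
      apply hne
      ext o
      cases o with
      | none =>
        have h3 := hsum m hm
        have h4 := hsum m' hm'
        omega
      | some u => exact h2.symm
    · intro h2
      exact absurd hm h2
  have hrd : r.natDegree ≤ D := by
    rw [hre]
    refine Polynomial.natDegree_sum_le_of_forall_le _ _ fun m hm => ?_
    refine (Polynomial.natDegree_C_mul_X_pow_le _ _).trans ?_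
    have := hsum m hm
    omega
  set T := tw (fun _ : Unit => θ) (map (algebraMap ℚ ℝ) G) with hT
  have hTh : T.IsHomogeneous D := tw_hom _ (hG.map _)
  have hTs : ∀ m ∈ T.support, D ≤ 2 * m (some ()) := by
    intro m hm
    have h1 := hTh (mem_support_iff.1 hm)
    rw [Finsupp.weight_apply, Finsupp.sum_fintype _ _ (by simp), Fintype.sum_option] at h1
    have h2 := hmul m hm
    simp only [Pi.one_apply, smul_eq_mul, mul_one, Finset.univ_unique, Finset.sum_singleton] at h1
    have h4 : (default : Unit) = () := rfl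
    rw [h4] at h1
    omega
  have hrT : r.map (algebraMap ℚ ℝ)
      = ∑ m ∈ T.support, Polynomial.C (coeff m T) * (Polynomial.C θ - Polynomial.X) ^ (m (some ())) := by
    have h1 : map (algebraMap ℚ ℝ) G = tw (fun _ : Unit => θ) T := by rw [hT, tw_tw]
    have h2 : r.map (algebraMap ℚ ℝ) = aeval (fun o : Option Unit =>
        (o.elim 1 (fun _ => Polynomial.X) : Polynomial ℝ)) (map (algebraMap ℚ ℝ) G) := by
      rw [hr, aeval_map_algebraMap]
      have h5 : (Polynomial.mapAlgHom (Algebra.ofId ℚ ℝ) : Polynomial ℚ →ₐ[ℚ] Polynomial ℝ)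
          (aeval (fun o : Option Unit => (o.elim 1 (fun _ => Polynomial.X) : Polynomial ℚ)) G)
          = aeval (fun o => (Polynomial.mapAlgHom (Algebra.ofId ℚ ℝ) : Polynomial ℚ →ₐ[ℚ] Polynomial ℝ)
            (o.elim 1 (fun _ => Polynomial.X))) G := by
        rw [← AlgHom.comp_apply, comp_aeval]
      have h6 : (Polynomial.mapAlgHom (Algebra.ofId ℚ ℝ) : Polynomial ℚ →ₐ[ℚ] Polynomial ℝ)
          (aeval (fun o : Option Unit => (o.elim 1 (fun _ => Polynomial.X) : Polynomial ℚ)) G)
          = Polynomial.map (algebraMap ℚ ℝ)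
          (aeval (fun o : Option Unit => (o.elim 1 (fun _ => Polynomial.X) : Polynomial ℚ)) G) := rfl
      rw [← h6, h5]
      congr 2
      funext o
      cases o with
      | none => simp
      | some u => simp
    rw [h2, h1]
    unfold tw
    rw [aeval_bind₁]
    conv_lhs => rw [as_sum T]
    rw [map_sum]
    refine Finset.sum_congr rfl fun m _ => ?_
    rw [aeval_monomial, Finsupp.prod_fintype _ _ (by simp), Fintype.prod_option]
    simp
  have h7 : (Polynomial.X - Polynomial.C θ) ^ ((D + 1) / 2) ∣ r.map (algebraMap ℚ ℝ) := by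
    rw [hrT]
    refine Finset.dvd_sum fun m hm => Dvd.dvd.mul_left ?_ _
    have h8 := hTs m hm
    have h9 : Polynomial.C θ - Polynomial.X = -(Polynomial.X - Polynomial.C θ) := by ring
    rw [h9, neg_pow]
    refine Dvd.dvd.mul_left (pow_dvd_pow _ ?_) _
    omega
  have h8 := mult_deg hθ h3 hr0 h7
  omega

end Pool.Agent.Q4.Opt
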