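import Mathlib
import Pool.Agent.Q4.Opt.Quot
import Pool.Agent.Q4.Opt.Top

set_option autoImplicit false
set_option linter.unusedSectionVars false

/-!
# Nearly optimal approximations of algebraic numbers of degree `≥ 3` satisfy no relation
-/

namespace Pool.Agent.Q4.Opt

open Filter Topology Pool.Agent.TH932.Abs Pool.Agent.TH932.Germs Pool.Agent.TH932.Chi
open Pool.Agent.TH796.AL Pool.Agent.Q4.Blk Pool.Agent.Q4.Gcd Pool.Agent.Q4.Cov Module
open Pool.Agent.Q4.Tube MvPolynomial

section
variable {σ : Type} [Fintype σ] [DecidableEq σ]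

/-- relations between the coordinates -/
def Rel (q : ℕ → ℕ) (x : ℕ → σ → ℤ) (R : MvPolynomial (Option σ) ℚ) : Prop :=
  ∀ᶠ n in (UU : Filter ℕ), va (q n) (x n) R = 0

variable {q : ℕ → ℕ} {x : ℕ → σ → ℤ}

lemma Rel.mul_right {R : MvPolynomial (Option σ) ℚ} (h : Rel q x R) (A : MvPolynomial (Option σ) ℚ) :
    Rel q x (R * A) := by
  filter_upwards [h] with n hn
  rw [map_mul, hn, zero_mul]

lemma Rel.add {R R' : MvPolynomial (Option σ) ℚ} (h : Rel q x R) (h' : Rel q x R') :
    Rel q x (R + R') := by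
  filter_upwards [h, h'] with n hn hn'
  rw [map_add, hn, hn', add_zero]

lemma Rel.or {A B : MvPolynomial (Option σ) ℚ} (h : Rel q x (A * B)) : Rel q x A ∨ Rel q x B := by
  unfold Rel at h ⊢
  rw [← Ultrafilter.eventually_or]
  filter_upwards [h] with n hn
  rw [map_mul] at hn
  exact mul_eq_zero.1 hn

lemma Rel.const {c : ℚ} (h : Rel q x (C c)) : c = 0 := by
  obtain ⟨n, hn⟩ := h.exists
  unfold va at hn
  rw [aeval_C] at hn
  exact hn

/-- no relation for `q` alone -/
lemma no_rel_q (hq : ∀ n, n + 2 ≤ q n) {d : ℕ} (a : Fin (d + 1) → ℚ)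
    (h : ∀ᶠ n in (UU : Filter ℕ), ∑ j, a j * (q n : ℚ) ^ (j : ℕ) = 0) : a = 0 := by
  classical
  set p : Polynomial ℚ := ∑ j : Fin (d + 1), Polynomial.C (a j) * Polynomial.X ^ (j : ℕ) with hp
  have hpe : ∀ n, p.eval (q n : ℚ) = ∑ j, a j * (q n : ℚ) ^ (j : ℕ) := by
    intro n
    rw [hp, Polynomial.eval_finsetSum]
    refine Finset.sum_congr rfl fun j _ => ?_
    simp
  have hp0 : p = 0 := by
    by_contra hne
    obtain ⟨M, hM⟩ := (p.roots.toFinset : Set ℚ).toFinite.bddAbove
    have h1 : ∀ᶠ n : ℕ in (UU : Filter ℕ), M < (n : ℚ) := by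
      apply ev_of_atTop
      obtain ⟨m, hm⟩ := exists_nat_gt M
      filter_upwards [Filter.eventually_ge_atTop m] with n hn
      exact hm.trans_le (by exact_mod_cast hn)
    obtain ⟨n, hn, hn'⟩ := (h.and h1).exists
    rw [← hpe] at hn
    have h2 : (q n : ℚ) ∈ (p.roots.toFinset : Set ℚ) := by
      simp only [Finset.mem_coe, Multiset.mem_toFinset]
      exact (Polynomial.mem_roots hne).2 hn
    have h3 := hM h2
    have h4 : (n : ℚ) ≤ q n := by exact_mod_cast (Nat.le_add_right n 2).trans (hq n)
    linarith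
  funext j
  have h5 := congrArg (fun t : Polynomial ℚ => t.coeff (j : ℕ)) hp0
  simp only [hp, Polynomial.finsetSum_coeff, Polynomial.coeff_C_mul, Polynomial.coeff_X_pow,
    Polynomial.coeff_zero] at h5
  rw [Finset.sum_eq_single j] at h5
  · simpa using h5
  · intro i _ hij
    rw [if_neg, mul_zero]
    intro h6
    exact hij (Fin.ext h6.symm)
  · intro h6
    exact absurd (Finset.mem_univ _) h6

/-- two relatively prime relations are impossible in two variables -/
lemma not_relPrime {x : ℕ → Unit → ℤ} (hq : ∀ n, n + 2 ≤ q n)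
    {F G : MvPolynomial (Option Unit) ℚ} (hF0 : F ≠ 0) (hG0 : G ≠ 0) (hF : Rel q x F)
    (hG : Rel q x G) : ¬ IsRelPrime F G := by
  classical
  intro hrel
  set f := F.totalDegree with hf
  set g := G.totalDegree with hg
  set d := f + g + f * g with hd
  have h1 := finrank_US hF0 hG0 hrel (d := d) (by omega) (i := none) (j := some ())
    (by simp)
  have hcard : Fintype.card (Option Unit) - 2 = 0 := by simp
  rw [hcard, pow_zero, mul_one, ← hf, ← hg] at h1
  -- the powers of `q`
  set z : Fin (d + 1) → Ex (Option Unit) d := fun j => ⟨fun o => o.elim (j : ℕ) (fun _ => 0), by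
    rw [mem_Ex, Fintype.sum_option]
    simp only [Option.elim, Finset.sum_const_zero, add_zero]
    omega⟩ with hz
  have hzinj : Function.Injective z := by
    intro i j h
    have h2 := congrArg (fun t : Ex (Option Unit) d => t.1 none) h
    exact Fin.ext h2
  set Z : Submodule ℚ (Ex (Option Unit) d → ℚ) :=
    Submodule.span ℚ (Set.range fun j => (Pi.single (z j) (1 : ℚ) : Ex (Option Unit) d → ℚ)) with hZ
  have hZr : finrank ℚ Z = d + 1 := by
    have hli : LinearIndependent ℚ (fun j => (Pi.single (z j) (1 : ℚ) : Ex (Option Unit) d → ℚ)) :=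
      (Pi.linearIndependent_single_one (Ex (Option Unit) d) ℚ).comp z hzinj
    rw [hZ, finrank_span_eq_card hli, Fintype.card_fin]
  have hdis : Disjoint (US F G d) Z := by
    rw [Submodule.disjoint_def]
    intro u hu huZ
    obtain ⟨a, ha⟩ := (Submodule.mem_span_range_iff_exists_fun ℚ).1 huZ
    obtain ⟨R, hR, rfl⟩ := hu
    have hRrel : Rel q x R := by
      obtain ⟨A, B, rfl⟩ := UU'_comb hR
      exact (hF.mul_right A).add (hG.mul_right B)
    have ha0 : a = 0 := by
      apply no_rel_q hq a
      filter_upwards [hRrel] with n hn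
      unfold va at hn
      rw [eval_cf (UU'_deg (by omega) (by omega) hR), ← ha] at hn
      rw [← hn]
      simp only [Finset.sum_apply, Pi.smul_apply, smul_eq_mul, map_sum, Finset.sum_mul]
      rw [Finset.sum_comm]
      refine Finset.sum_congr rfl fun j _ => ?_
      rw [Finset.sum_eq_single (z j)]
      · rw [Pi.single_eq_same, mul_one, Fintype.prod_option]
        simp [hz, px]
      · intro b _ hb
        rw [Pi.single_eq_of_ne hb, mul_zero, map_zero, zero_mul]
      · intro h
        exact absurd (Finset.mem_univ _) h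
    rw [← ha, ha0]
    simp
  have h2 := Submodule.finrank_add_finrank_le_of_disjoint hdis
  rw [hZr, Module.finrank_fintype_fun_eq_card, Fintype.card_coe] at h2
  omega

end

/-- **Independence.** -/
theorem indep {S : Finset ℕ} {hS : ∀ p ∈ S, p.Prime} {θ : Unit → ℝ} {q : ℕ → ℕ}
    {x : ℕ → Unit → ℤ} {β : Fin S.card → ℝ} {w : Unit → ℝ} (H : Ext S hS θ q x β w)
    (halg : IsAlgebraic ℚ (θ ())) (h3 : 3 ≤ (minpoly ℚ (θ ())).natDegree)
    (heq : ∑ v, β v + w () = 1) (R : MvPolynomial (Option Unit) ℚ) (hR : Rel q x R) : R = 0 := by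
  classical
  by_contra hR0
  have hex : ∃ d, ∃ R : MvPolynomial (Option Unit) ℚ, R ≠ 0 ∧ R.totalDegree = d ∧ Rel q x R :=
    ⟨_, R, hR0, rfl, hR⟩
  obtain ⟨R, hR0, hRd, hR⟩ := Nat.find_spec hex
  have hmin : ∀ G : MvPolynomial (Option Unit) ℚ, G ≠ 0 → Rel q x G → R.totalDegree ≤ G.totalDegree := by
    intro G hG0 hG
    rw [hRd]
    exact Nat.find_min' hex ⟨G, hG0, rfl, hG⟩
  set D := R.totalDegree with hD
  have hDpos : 0 < D := by
    by_contra hcon
    have h1 : R.totalDegree = 0 := by omega
    rw [totalDegree_eq_zero_iff_eq_C] at h1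
    rw [h1] at hR
    have h2 := hR.const
    rw [h2, map_zero] at h1
    exact hR0 h1
  have hunit : ∀ A : MvPolynomial (Option Unit) ℚ, A ≠ 0 → A.totalDegree = 0 → IsUnit A := by
    intro A hA0 hA
    rw [totalDegree_eq_zero_iff_eq_C] at hA
    rw [hA]
    refine (isUnit_iff_ne_zero.2 ?_).map C
    intro h
    rw [h, map_zero] at hA
    exact hA0 hA
  have hirr : Irreducible R := by
    refine ⟨?_, fun A B hAB => ?_⟩
    · intro hu
      obtain ⟨u, hu'⟩ := hu
      obtain ⟨n, hn⟩ := hR.exists
      have h1 := congrArg (va (q n) (x n)) (u.mul_inv)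
      rw [map_mul, hu', hn, zero_mul, map_one] at h1
      exact zero_ne_one h1
    · have hA0 : A ≠ 0 := by rintro rfl; exact hR0 (by rw [hAB, zero_mul])
      have hB0 : B ≠ 0 := by rintro rfl; exact hR0 (by rw [hAB, mul_zero])
      have h1 := totalDegree_mul_of_isDomain hA0 hB0
      rw [← hAB] at h1
      rw [hAB] at hR
      rcases hR.or with h | h
      · right
        have := hmin A hA0 h
        exact hunit B hB0 (by omega)
      · left
        have := hmin B hB0 h
        exact hunit A hA0 (by omega)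
  -- uniqueness
  have huniq : ∀ G : MvPolynomial (Option Unit) ℚ, Rel q x G → G.totalDegree ≤ D → ∃ c : ℚ, G = c • R := by
    intro G hG hGd
    by_cases hG0 : G = 0
    · exact ⟨0, by rw [hG0, zero_smul]⟩
    have h1 : R ∣ G := by
      by_contra hn
      exact not_relPrime H.big hR0 hG0 hR hG ((hirr.isRelPrime_iff_not_dvd).2 hn)
    obtain ⟨A, rfl⟩ := h1
    have hA0 : A ≠ 0 := by rintro rfl; exact hG0 (mul_zero _)
    have h2 := totalDegree_mul_of_isDomain hR0 hA0
    have h4 : A.totalDegree = 0 := by omega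
    rw [totalDegree_eq_zero_iff_eq_C] at h4
    refine ⟨coeff 0 A, ?_⟩
    rw [smul_eq_C_mul, ← h4, mul_comm]
  -- `X₀` does not divide `R`
  have hX : ¬ (X none : MvPolynomial (Option Unit) ℚ) ∣ R := by
    rintro ⟨A, hA⟩
    rcases hirr.isUnit_or_isUnit hA with h | h
    · obtain ⟨u, hu⟩ := h
      have h1 := congrArg (aeval (fun _ : Option Unit => (0 : ℚ))) (u.mul_inv)
      rw [map_mul, hu, aeval_X, zero_mul, map_one] at h1
      exact zero_ne_one h1
    · rw [hA] at hR
      rcases hR.or with h' | h'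
      · obtain ⟨n, hn⟩ := h'.exists
        rw [va_X0] at hn
        have := qpos H.big n
        have h1 : (q n : ℝ) = 0 := by exact_mod_cast hn
        linarith
      · obtain ⟨u, hu⟩ := h
        obtain ⟨n, hn⟩ := h'.exists
        have h1 := congrArg (va (q n) (x n)) (u.mul_inv)
        rw [map_mul, hu, hn, zero_mul, map_one] at h1
        exact zero_ne_one h1
  obtain ⟨m1, hm1, hm10⟩ : ∃ m ∈ R.support, m none = 0 := by
    by_contra hcon
    push Not at hcon
    apply hX
    rw [as_sum R]
    refine Finset.dvd_sum fun m hm => ?_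
    rw [X_dvd_monomial]
    exact Or.inr (hcon m hm)
  -- the subspace theorem
  have hcfR : cf D R ≠ 0 := fun h => hR0 (cf_inj le_rfl h)
  set U : Submodule ℚ (Ex (Option Unit) D → ℚ) := Submodule.span ℚ {cf D R} with hU
  have hUr : finrank ℚ U = 1 := finrank_span_singleton hcfR
  have hθ : ∀ s : Unit, IsAlgebraic ℚ (θ s) := fun s => halg
  have hdegp : ∀ c : Ex (Option Unit) D → ℚ, (polyOf c).totalDegree ≤ D := by
    intro c
    unfold polyOf
    refine (totalDegree_finsetSum _ _).trans (Finset.sup_le fun a _ => ?_)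
    refine (totalDegree_monomial_le _ _).trans ?_
    have h3 := mem_Ex.1 a.2
    change (fs a.1).sum (fun _ e => e) ≤ _
    rw [sum_fs]
    simpa using h3
  have hcfp : ∀ c : Ex (Option Unit) D → ℚ, cf D (polyOf c) = c := by
    intro c
    funext a
    rw [cf_apply, coeff_polyOf]
  obtain ⟨P, P', b, b', hPc, hPc', hbU, hbδ, hbw, hγ, hbδ', hbw', key⟩ := sub2 hS H.big
    (ι := Ex (Option Unit) D) (fun a n => ∏ i, (px (q n) (x n) i) ^ (a.1 i))
    (fun a c => Mr θ a.1 c.1) (fun a c => Mr_alg hθ _ _) (fun a c => Mr_sq θ a c)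
    (fun a => (a.1 none : ℝ)) β (fun v a => H.mono v a.1) (fun a => ex w a.1)
    (fun a => by
      refine (H.zv a.1).congr (Eventually.of_forall fun n => ?_)
      rw [zv_Mr θ (q n) (x n) a.2]
      push_cast
      rfl) U (fun c => by
      have h1 : (∀ᶠ n in (UU : Filter ℕ), ∑ a : Ex (Option Unit) D,
          c a * ((∏ i, (px (q n) (x n) i) ^ (a.1 i) : ℤ) : ℚ) = 0) ↔ Rel q x (polyOf c) := by
        unfold Rel
        simp only [va_polyOf]
        push_cast
        rfl
      rw [h1]
      constructor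
      · intro h
        obtain ⟨t, ht⟩ := huniq _ h (hdegp c)
        have h2 := congrArg (cf D) ht
        rw [hcfp, map_smul] at h2
        rw [h2]
        exact Submodule.smul_mem _ _ (Submodule.mem_span_singleton_self _)
      · intro h
        obtain ⟨t, ht⟩ := Submodule.mem_span_singleton.1 h
        have h2 : polyOf c = t • R := by
          have h4 : cf D (polyOf c - t • R) = 0 := by
            rw [map_sub, hcfp, map_smul, ht, sub_self]
          have h5 := cf_inj (d := D) ((totalDegree_sub _ _).trans (max_le (hdegp c)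
            (totalDegree_smul_le _ _))) h4
          exact sub_eq_zero.1 h5
        rw [h2, smul_eq_C_mul, mul_comm]
        exact hR.mul_right _)
  rw [hUr] at hPc hPc'
  obtain ⟨i0, rfl⟩ := Finset.card_eq_one.1 hPc
  obtain ⟨k0, rfl⟩ := Finset.card_eq_one.1 hPc'
  obtain ⟨t, ht⟩ := Submodule.mem_span_singleton.1 (hbU i0 (Finset.mem_singleton_self _))
  have ht0 : t ≠ 0 := by
    rintro rfl
    have h1 := hbδ i0 (Finset.mem_singleton_self _) i0 (Finset.mem_singleton_self _)
    rw [if_pos rfl, ← ht] at h1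
    simp at h1
  -- the minimal exponent of `q` is zero
  have hwt0 : ((i0.1 none : ℕ) : ℝ) ≤ 0 := by
    have hm1D : (m1 : Option Unit → ℕ) ∈ Ex (Option Unit) D := by
      rw [mem_Ex, ← sum_fs]
      exact le_totalDegree hm1
    have h1 := hbw i0 (Finset.mem_singleton_self _) ⟨(m1 : Option Unit → ℕ), hm1D⟩ (by
      rw [← ht, Pi.smul_apply, smul_eq_mul, cf_apply, fs_coe]
      exact mul_ne_zero ht0 (mem_support_iff.1 hm1))
    simp only [hm10, Nat.cast_zero] at h1
    exact h1
  -- the inequality
  have hβ0 : 0 ≤ ∑ v, β v := Finset.sum_nonneg fun v _ => H.β0 v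
  have hk0 : ex w k0.1 ≤ 0 := by
    have h1 := H.bal' D
    have h2 : ∑ i ∈ ({i0} : Finset (Ex (Option Unit) D))ᶜ, (∑ v, β v) * ((i.1 none : ℕ) : ℝ)
        = ∑ a : Ex (Option Unit) D, (∑ v, β v) * (a.1 none : ℝ) - (∑ v, β v) * (i0.1 none : ℝ) := by
      rw [← Finset.sum_add_sum_compl {i0}, Finset.sum_singleton]
      ring
    have h3 : ∑ i ∈ ({k0} : Finset (Ex (Option Unit) D))ᶜ, ex w i.1
        = ∑ a : Ex (Option Unit) D, ex w a.1 - ex w k0.1 := by
      rw [← Finset.sum_add_sum_compl {k0}, Finset.sum_singleton]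
      ring
    rw [h2, h3] at key
    have h4 : (∑ v, β v) * (i0.1 none : ℝ) ≤ 0 := mul_nonpos_of_nonneg_of_nonpos hβ0 hwt0
    linarith
  -- the coordinates of the form
  set T := tw θ (map (algebraMap ℚ ℝ) R) with hT
  obtain ⟨γ, hγ⟩ := hγ k0 (Finset.mem_singleton_self _)
  have hTc : ∀ k : Ex (Option Unit) D, ∑ j : Ex (Option Unit) D, ((cf D R j : ℚ) : ℝ) * Mr θ j.1 k.1
      = coeff (fs k.1) T := by
    intro k
    have h1 : map (algebraMap ℚ ℝ) R
        = ∑ j : Ex (Option Unit) D, ((cf D R j : ℚ) : ℝ) • monomial (fs j.1) (1 : ℝ) := by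
      conv_lhs => rw [← polyOf_cf (R := R) (D := D) le_rfl]
      unfold polyOf
      rw [map_sum]
      refine Finset.sum_congr rfl fun j _ => ?_
      rw [map_monomial, smul_monomial, smul_eq_mul, mul_one]
      rfl
    rw [hT, h1, map_sum, coeff_sum]
    refine Finset.sum_congr rfl fun j _ => ?_
    rw [map_smul, coeff_smul, smul_eq_mul]
    rfl
  have hb'k : ∀ k, b' k0 k = (γ i0 * t) * coeff (fs k.1) T := by
    intro k
    rw [hγ k, Finset.sum_singleton, ← hTc k, mul_assoc, Finset.mul_sum (a := (t : ℝ))]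
    congr 1
    refine Finset.sum_congr rfl fun j _ => ?_
    rw [← ht, Pi.smul_apply, smul_eq_mul]
    push_cast
    ring
  have hγt : γ i0 * t ≠ 0 := by
    intro h
    have h1 := hbδ' k0 (Finset.mem_singleton_self _) k0 (Finset.mem_singleton_self _)
    rw [hb'k, h, zero_mul, if_pos rfl] at h1
    exact zero_ne_one h1
  have hTd : T.totalDegree ≤ D := by
    refine (tw_deg θ _).trans ?_
    refine Finset.sup_mono (support_map_subset _ _)
  have hTw : ∀ m ∈ T.support, ex w (m : Option Unit → ℕ) ≤ 0 := by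
    intro m hm
    have hmD : (m : Option Unit → ℕ) ∈ Ex (Option Unit) D := by
      rw [mem_Ex, ← sum_fs]
      exact (le_totalDegree hm).trans hTd
    refine (hbw' k0 (Finset.mem_singleton_self _) ⟨(m : Option Unit → ℕ), hmD⟩ ?_).trans hk0
    rw [hb'k, fs_coe]
    exact mul_ne_zero hγt (mem_support_iff.1 hm)
  -- the top form
  have hw1 : w () ≤ 1 := by linarith
  set G := homogeneousComponent D R with hG
  have hG0 : G ≠ 0 := by
    obtain ⟨m, hm, hmd⟩ := Finset.exists_mem_eq_sup R.support (support_nonempty.2 hR0)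
      (fun m => m.sum fun _ e => e)
    intro h
    have h1 := congrArg (coeff m) h
    rw [hG, coeff_homogeneousComponent, if_pos, coeff_zero] at h1
    · exact mem_support_iff.1 hm h1
    · rw [hD, totalDegree, hmd]
      rfl
  refine top_form halg h3 hDpos (homogeneousComponent_isHomogeneous D R) hG0 ?_
  intro m hm
  have h1 : tw (fun _ : Unit => θ ()) (map (algebraMap ℚ ℝ) G) = homogeneousComponent D T := by
    have h2 : map (algebraMap ℚ ℝ) R
        = ∑ i ∈ Finset.range (D + 1), map (algebraMap ℚ ℝ) (homogeneousComponent i R) := by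
      conv_lhs => rw [← sum_homogeneousComponent R]
      rw [map_sum]
    have h4 : (fun _ : Unit => θ ()) = θ := rfl
    rw [h4, hT, h2, map_sum, map_sum, Finset.sum_eq_single D]
    · rw [homogeneousComponent_of_mem (tw_hom θ
        ((homogeneousComponent_isHomogeneous D R).map (algebraMap ℚ ℝ))), if_pos rfl]
    · intro i _ hi
      rw [homogeneousComponent_of_mem (tw_hom θ
        ((homogeneousComponent_isHomogeneous i R).map (algebraMap ℚ ℝ))), if_neg (Ne.symm hi)]
    · intro h5
      exact absurd (Finset.mem_range.2 (Nat.lt_succ_self D)) h5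
  rw [h1] at hm
  have h2 : m ∈ T.support := by
    rw [MvPolynomial.mem_support_iff] at hm ⊢
    rw [coeff_homogeneousComponent] at hm
    split_ifs at hm with h
    · exact hm
    · exact absurd rfl hm
  have h4 := hTw m h2
  unfold ex at h4
  simp only [Finset.univ_unique, Finset.sum_singleton] at h4
  have h5 : (m none : ℝ) ≤ m (some ()) := by
    have h6 : w default * (m (some default) : ℝ) ≤ 1 * (m (some ()) : ℝ) :=
      mul_le_mul_of_nonneg_right hw1 (Nat.cast_nonneg _)
    linarith
  exact_mod_cast h5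

end Pool.Agent.Q4.Opt
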