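import Mathlib
import Pool.Agent.Q4.Opt.Indep
import Pool.Agent.Q4.Opt.Exp

set_option autoImplicit false
set_option linter.unusedSectionVars false

/-!
# Linear forms with algebraic functions as coefficients at nearly extremal points
-/

namespace Pool.Agent.Q4.Opt

open Filter Topology Pool.Agent.TH932.Abs Pool.Agent.TH932.Germs Pool.Agent.TH932.Chi
open Pool.Agent.TH796.AL Pool.Agent.Q4.Blk Pool.Agent.Q4.Gcd Pool.Agent.Q4.Cov Module
open Pool.Agent.Q4.Tube hiding Near sm_fr sm_vs sm_dl dl_tendsto dl_le_one sm_ord sm_any lim_evr branch' expand' px_ne root_bnd approxS root_exp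
open MvPolynomial

/-- triangular matrices are invertible -/
lemma tri_rank {ι : Type*} [Fintype ι] [DecidableEq ι] (c : ι → ι → ℝ) (ρ : ι → ℤ)
    (h1 : ∀ k, c k k = 1) (h2 : ∀ k i, c k i ≠ 0 → i ≠ k → ρ i < ρ k) (b : ι → ℝ)
    (hb : ∀ i, ∑ k, b k * c k i = 0) : ∀ k, b k = 0 := by
  classical
  by_contra hcon
  push Not at hcon
  obtain ⟨k1, hk1⟩ := hcon
  obtain ⟨k0, hk0, hmax⟩ := Finset.exists_max_image (Finset.univ.filter fun k => b k ≠ 0) ρ
    ⟨k1, by simp [hk1]⟩
  have hk0' : b k0 ≠ 0 := (Finset.mem_filter.1 hk0).2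
  have h3 := hb k0
  rw [Finset.sum_eq_single k0, h1, mul_one] at h3
  · exact hk0' h3
  · intro k _ hk
    by_contra hne
    have h4 : b k ≠ 0 := left_ne_zero_of_mul hne
    have h5 : c k k0 ≠ 0 := right_ne_zero_of_mul hne
    have h6 := h2 k k0 h5 (Ne.symm hk)
    have h7 := hmax k (by simp [h4])
    omega
  · intro h
    exact absurd (Finset.mem_univ _) h

section
variable {σ : Type} [Fintype σ] [DecidableEq σ]
variable {S : Finset ℕ} {hS : ∀ p ∈ S, p.Prime} {θ : σ → ℝ} {q : ℕ → ℕ} {x : ℕ → σ → ℤ}
  {β : Fin S.card → ℝ} {w : σ → ℝ}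

/-- **The engine**: integers close to expansions are values of polynomials. -/
theorem engineO (H : Ext S hS θ q x β w) (halg : ∀ s, IsAlgebraic ℚ (θ s))
    (hind : ∀ R : MvPolynomial (Option σ) ℚ, Rel q x R → R = 0)
    (D : ℕ) (z : ℕ → ℤ) (c : Ex (Option σ) D → QB) (δ : ℝ) (hδ : 0 < δ)
    (happ : Sm q (-δ) (fun n => (z n : ℂ)
      - ∑ a, phi (c a) * ((zv θ (q n) (x n) a.1 : ℝ) : ℂ))) :
    ∃ G : MvPolynomial (Option σ) ℚ, G.totalDegree ≤ D ∧
      ∀ᶠ n in (UU : Filter ℕ), (z n : ℚ) = va (q n) (x n) G := by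
  classical
  by_contra hcon
  push Not at hcon
  set N : Option Unit → ℕ := fun o => o.elim 0 (fun _ => D) with hN
  set V : Option Unit → ℕ → ℤ := fun o => o.elim z (fun _ _ => 1) with hV
  set o0 : Ex (Option σ) (N none) := ⟨fun _ => 0, by rw [mem_Ex]; simp⟩ with ho0
  have hEx0 : ∀ a : Ex (Option σ) (N none), a = o0 := by
    intro a
    apply Subtype.ext
    have h1 : ∑ i, a.1 i ≤ 0 := mem_Ex.1 a.2
    have h2 := Finset.sum_eq_zero_iff.1 (Nat.le_zero.1 h1)
    funext i
    exact h2 i (Finset.mem_univ i)
  set C : Ix σ N → Ix σ N → ℝ := fun k i => match k, i with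
    | ⟨none, _⟩, ⟨none, _⟩ => 1
    | ⟨none, _⟩, ⟨some _, a⟩ => -(phi (c a)).re
    | ⟨some _, _⟩, ⟨none, _⟩ => 0
    | ⟨some _, a⟩, ⟨some _, b⟩ => if a = b then 1 else 0 with hC
  set lam : Ix σ N → ℝ := fun k => match k with
    | ⟨none, _⟩ => -δ
    | ⟨some _, a⟩ => ex w a.1 with hlamd
  have key := sub1 H halg N V ?_ (fun _ _ => 0) (fun v j => Dv.zero H.big v _) C ?_ ?_ lam ?_
  · simp only [Finset.sum_const_zero, add_zero] at key
    rw [Fintype.sum_sigma, Fintype.sum_sigma, Fintype.sum_option, Fintype.sum_option] at key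
    simp only [Finset.univ_unique, Finset.sum_singleton] at key
    have e1 : ∑ a : Ex (Option σ) (N none), ex w a.1 = 0 := by
      refine Finset.sum_eq_zero fun a _ => ?_
      rw [hEx0 a]
      unfold ex
      simp [ho0]
    have e2 : ∑ a : Ex (Option σ) (N none), lam ⟨none, a⟩ = -δ := by
      have h1 : ∀ a : Ex (Option σ) (N none), lam ⟨none, a⟩ = -δ := fun a => rfl
      simp only [h1]
      rw [Finset.sum_const, Finset.card_univ]
      have h2 : Fintype.card (Ex (Option σ) (N none)) = 1 := by
        rw [Fintype.card_eq_one_iff]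
        exact ⟨o0, hEx0⟩
      rw [h2, one_smul]
    rw [e1, e2] at key
    have e3 : ∑ a : Ex (Option σ) (N (some default)), lam ⟨some default, a⟩
        = ∑ a : Ex (Option σ) (N (some default)), ex w a.1 := rfl
    rw [e3] at key
    linarith
  · intro B hBd hB
    have hB0 : (B none).totalDegree = 0 := Nat.le_zero.1 (hBd none)
    rw [totalDegree_eq_zero_iff_eq_C] at hB0
    have hB' : ∀ᶠ n in (UU : Filter ℕ), coeff 0 (B none) * (z n : ℚ)
        + va (q n) (x n) (B (some ())) = 0 := by
      filter_upwards [hB] with n hn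
      rw [Fintype.sum_option, hB0] at hn
      simp only [Finset.univ_unique, Finset.sum_singleton] at hn
      unfold va at hn ⊢
      rw [aeval_C] at hn
      simpa [hV] using hn
    by_cases h0 : coeff 0 (B none) = 0
    · rw [h0, map_zero] at hB0
      have h1 : B (some ()) = 0 := by
        apply hind
        filter_upwards [hB'] with n hn
        rw [h0, zero_mul, zero_add] at hn
        exact hn
      intro j
      cases j with
      | none => exact hB0
      | some u => exact h1
    · exfalso
      have h1 := hcon (MvPolynomial.C (-(coeff 0 (B none))⁻¹) * B (some ())) (by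
        refine (totalDegree_mul _ _).trans ?_
        rw [totalDegree_C, zero_add]
        exact hBd (some ()))
      obtain ⟨n, hn1, hn⟩ := (h1.and hB').exists
      apply hn1
      rw [map_mul]
      have h2 : va (q n) (x n) (B (some ())) = -(coeff 0 (B none) * (z n : ℚ)) := by linarith
      rw [h2]
      unfold va
      rw [aeval_C]
      change _ = (-(coeff 0 (B none))⁻¹) * _
      field_simp
  · rintro ⟨_ | _, a⟩ ⟨_ | _, b⟩
    · exact isAlgebraic_one
    · exact (alg_re (alg_QB (c b))).neg
    · exact isAlgebraic_zero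
    · change IsAlgebraic ℚ (if a = b then (1 : ℝ) else 0)
      split_ifs
      · exact isAlgebraic_one
      · exact isAlgebraic_zero
  · refine tri_rank C (fun k => match k with
      | ⟨none, _⟩ => 1
      | ⟨some _, _⟩ => 0) ?_ ?_
    · rintro ⟨_ | _, a⟩
      · rfl
      · change (if a = a then (1 : ℝ) else 0) = 1
        rw [if_pos rfl]
    · rintro ⟨_ | _, a⟩ ⟨_ | _, b⟩ h hne
      · exfalso
        apply hne
        rw [hEx0 a, hEx0 b]
      · exact zero_lt_one
      · exact absurd rfl h
      · exfalso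
        change (if a = b then (1 : ℝ) else 0) ≠ 0 at h
        split_ifs at h with h1
        · apply hne
          rw [h1]
        · exact h rfl
  · rintro ⟨_ | u, a⟩
    · refine happ.le (Eventually.of_forall fun n => ?_)
      rw [Complex.norm_real, Real.norm_eq_abs]
      refine le_trans (le_of_eq ?_) (Complex.abs_re_le_norm _)
      congr 1
      rw [Fintype.sum_sigma, Fintype.sum_option]
      simp only [Finset.univ_unique, Finset.sum_singleton]
      rw [Complex.sub_re, Complex.intCast_re, Complex.re_sum, sub_eq_add_neg,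
        ← Finset.sum_neg_distrib]
      congr 1
      · rw [Finset.sum_eq_single o0]
        · change 1 * (Tube.zv θ (q n) (x n) o0.1 * (z n : ℝ)) = _
          unfold Tube.zv
          simp [ho0]
        · intro b _ hb
          exact absurd (hEx0 b) hb
        · intro h
          exact absurd (Finset.mem_univ _) h
      · refine Finset.sum_congr rfl fun b _ => ?_
        change -(phi (c b)).re * (Tube.zv θ (q n) (x n) b.1 * ((1 : ℤ) : ℝ)) = _
        rw [Complex.re_mul_ofReal]
        push_cast
        ring
    · refine (H.zv a.1).congr (Eventually.of_forall fun n => ?_)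
      congr 1
      rw [Fintype.sum_sigma, Fintype.sum_option]
      simp only [Finset.univ_unique, Finset.sum_singleton]
      have e1 : ∑ b : Ex (Option σ) (N none), C ⟨some u, a⟩ ⟨none, b⟩
          * (Tube.zv θ (q n) (x n) b.1 * V none n) = 0 := by
        refine Finset.sum_eq_zero fun b _ => ?_
        change (0 : ℝ) * _ = 0
        rw [zero_mul]
      rw [e1, zero_add, Finset.sum_eq_single a]
      · change (if a = a then (1 : ℝ) else 0) * (_ * ((1 : ℤ) : ℝ)) = _
        rw [if_pos rfl]
        push_cast
        ring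
      · intro b _ hb
        change (if a = b then (1 : ℝ) else 0) * _ = _
        rw [if_neg (Ne.symm hb), zero_mul]
      · intro h
        exact absurd (Finset.mem_univ _) h

end

end Pool.Agent.Q4.Opt
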