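import Mathlib
import Pool.Agent.Q4.Opt.Main
import Pool.Agent.Q4.Tube.Sel

set_option autoImplicit false
set_option linter.unusedSectionVars false

/-!
# Nearly optimal rational approximations of an algebraic number
-/

namespace Pool.Agent.Q4.Opt

open Filter Topology Pool.Agent.TH932.Abs Pool.Agent.TH932.Germs Pool.Agent.TH932.Chi
open Pool.Agent.TH796.AL Pool.Agent.Q4.Blk Pool.Agent.Q4.Gcd Pool.Agent.Q4.Cov Module
open Pool.Agent.Q4.Tube hiding Near sm_fr sm_vs sm_dl dl_tendsto dl_le_one sm_ord sm_any lim_evr branch' expand' px_ne root_bnd approxS root_exp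
open MvPolynomial

/-- the sequences attached to nearly optimal approximations -/
theorem ext_of (S : Finset ℕ) (hS : ∀ p ∈ S, p.Prime) (θ : Unit → ℝ) (q : ℕ → ℕ)
    (x : ℕ → Unit → ℤ) (hq : ∀ n, n + 2 ≤ q n) (u v : ℕ → ℕ) (huv : ∀ n, q n = u n * v n)
    (huS : ∀ n, (u n).primeFactors ⊆ S)
    (hnear : ∀ ε : ℝ, 0 < ε → ∀ᶠ n in (UU : Filter ℕ),
      (v n : ℝ) * |fr θ (q n) (x n) ()| ≤ (q n : ℝ) ^ ε) :
    ∃ (β : Fin S.card → ℝ) (w : Unit → ℝ), Ext S hS θ q x β w ∧ ∑ i, β i + w () = 1 := by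
  classical
  have hL : Tendsto (fun n => Real.log (q n)) atTop atTop := tendsto_logq hq
  have hq0 : ∀ n, q n ≠ 0 := fun n => by have := hq n; omega
  have hLpos : ∀ n, 0 < Real.log (q n) := fun n => by
    apply Real.log_pos
    have := hq n
    have h2 : 2 ≤ q n := by omega
    exact_mod_cast h2
  have hu0 : ∀ n, u n ≠ 0 := fun n h => hq0 n (by rw [huv, h, zero_mul])
  have hv0 : ∀ n, v n ≠ 0 := fun n h => hq0 n (by rw [huv, h, mul_zero])
  have hup : ∀ n, (0 : ℝ) < u n := fun n => by exact_mod_cast Nat.pos_of_ne_zero (hu0 n)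
  have hvp : ∀ n, (0 : ℝ) < v n := fun n => by exact_mod_cast Nat.pos_of_ne_zero (hv0 n)
  have hv1 : ∀ n, (1 : ℝ) ≤ v n := fun n => by exact_mod_cast Nat.pos_of_ne_zero (hv0 n)
  have hlog : ∀ n, Real.log (q n) = Real.log (u n) + Real.log (v n) := fun n => by
    rw [huv n, Nat.cast_mul, Real.log_mul (hup n).ne' (hvp n).ne']
  have hlogu : ∀ n, Real.log (u n)
      = ∑ i, ((u n).factorization ((bas S hS).P i) : ℝ) * Real.log ((bas S hS).P i) := by
    intro n
    rw [← log_prod_bas hS, ← eq_prod hS (hu0 n) (huS n)]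
  have hnn : ∀ n i, 0 ≤ ((u n).factorization ((bas S hS).P i) : ℝ) * Real.log ((bas S hS).P i) :=
    fun n i => by
      have := (bas S hS).log_pos i
      positivity
  have hlim : ∀ i, ∃ y, Tendsto (fun n => ((u n).factorization ((bas S hS).P i) : ℝ)
      * Real.log ((bas S hS).P i) / Real.log (q n)) (UU : Filter ℕ) (𝓝 y) := by
    intro i
    apply exists_lim _ 1
    refine Eventually.of_forall fun n => ⟨div_nonneg (hnn n i) (hLpos n).le, ?_⟩
    rw [div_le_iff₀ (hLpos n), one_mul, hlog n, hlogu n]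
    have h1 := Finset.single_le_sum (f := fun j => ((u n).factorization ((bas S hS).P j) : ℝ)
      * Real.log ((bas S hS).P j)) (fun j _ => hnn n j) (Finset.mem_univ i)
    have h2 : 0 ≤ Real.log (v n) := Real.log_nonneg (hv1 n)
    linarith
  choose β hβ using hlim
  have hβ0 : ∀ i, 0 ≤ β i := fun i => ge_of_tendsto (hβ i)
    (Eventually.of_forall fun n => div_nonneg (hnn n i) (hLpos n).le)
  have hsum : Tendsto (fun n => Real.log (u n) / Real.log (q n)) (UU : Filter ℕ)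
      (𝓝 (∑ i, β i)) := by
    have h1 := tendsto_finsetSum Finset.univ (fun i _ => hβ i)
    refine h1.congr fun n => ?_
    rw [hlogu n, Finset.sum_div]
  have hsum1 : ∑ i, β i ≤ 1 := by
    refine le_of_tendsto hsum (Eventually.of_forall fun n => ?_)
    rw [div_le_one (hLpos n), hlog n]
    have h2 : 0 ≤ Real.log (v n) := Real.log_nonneg (hv1 n)
    linarith
  refine ⟨β, fun _ => 1 - ∑ i, β i, ⟨hq, fun _ => by linarith, ?_, hβ0, ?_, ?_⟩, by ring⟩
  · intro s ε hε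
    have h1 : ∀ᶠ n in (UU : Filter ℕ), Real.log (u n) / Real.log (q n) < ∑ i, β i + ε / 2 :=
      hsum.eventually (gt_mem_nhds (by linarith))
    filter_upwards [h1, hnear (ε / 2) (by positivity)] with n h2 h3
    rw [Complex.norm_real, Real.norm_eq_abs]
    rw [div_lt_iff₀ (hLpos n)] at h2
    have h4 : (q n : ℝ) ^ (1 - ∑ i, β i - ε / 2) ≤ v n := by
      rw [Real.rpow_def_of_pos (qpos hq n), ← Real.exp_log (hvp n)]
      apply Real.exp_le_exp.2
      have := hlog n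
      nlinarith
    have h5 : |fr θ (q n) (x n) s| ≤ (q n : ℝ) ^ (ε / 2) / v n := by
      rw [le_div_iff₀ (hvp n), mul_comm]
      exact h3
    refine h5.trans ?_
    rw [div_le_iff₀ (hvp n)]
    calc (q n : ℝ) ^ (ε / 2)
        = (q n : ℝ) ^ (-(1 - ∑ i, β i) + ε) * (q n : ℝ) ^ (1 - ∑ i, β i - ε / 2) := by
          rw [← Real.rpow_add (qpos hq n)]
          congr 1
          ring
      _ ≤ _ := by
          apply mul_le_mul_of_nonneg_left h4
          have := qpos hq n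
          positivity
  · intro i ε hε
    have h1 : ∀ᶠ n in (UU : Filter ℕ), β i - ε < ((u n).factorization ((bas S hS).P i) : ℝ)
      * Real.log ((bas S hS).P i) / Real.log (q n) :=
      (hβ i).eventually (lt_mem_nhds (by linarith))
    filter_upwards [h1] with n h2
    refine ⟨(u n).factorization ((bas S hS).P i), ?_, ?_⟩
    · have h3 : ((bas S hS).P i) ^ ((u n).factorization ((bas S hS).P i)) ∣ q n := by
        rw [huv n]
        exact Dvd.dvd.mul_right (Nat.ordProj_dvd _ _) _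
      exact_mod_cast h3
    · rw [lt_div_iff₀ (hLpos n)] at h2
      exact h2.le
  · simp

/-- nearly optimal rational approximations `x / q` of `θ` -/
def NearOpt (S : Finset ℕ) (θ : Unit → ℝ) (η : ℝ) (q : ℕ) (x : Unit → ℤ) : Prop :=
  ∃ u v : ℕ, q = u * v ∧ u.primeFactors ⊆ S ∧ (v : ℝ) * |θ () * q - x ()| ≤ (q : ℝ) ^ η

/-- **Selection.** -/
theorem finite_repO (S : Finset ℕ) (hS : ∀ p ∈ S, p.Prime) (θ : Unit → ℝ) {β Δ : Type*}
    [Countable β] [Nonempty β]
    (Hyp : ℝ → ℕ → (Unit → ℤ) → Δ → Prop) (Rep : β → ℕ → (Unit → ℤ) → Δ → Prop)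
    (h : ∀ (q : ℕ → ℕ) (x : ℕ → Unit → ℤ) (d : ℕ → Δ) (β : Fin S.card → ℝ) (w : Unit → ℝ),
      Ext S hS θ q x β w → ∑ i, β i + w () = 1 →
      (∀ n : ℕ, Hyp (1 / ((n : ℝ) + 1)) (q n) (x n) (d n)) →
      ∃ b, ∀ᶠ n in (UU : Filter ℕ), Rep b (q n) (x n) (d n)) :
    ∃ (η : ℝ) (N : ℕ) (A : Finset β), 0 < η ∧ ∀ q ≥ N, ∀ x, NearOpt S θ η q x → ∀ d, Hyp η q x d →
      ∃ b ∈ A, Rep b q x d := by
  classical
  by_contra hcon
  push Not at hcon
  obtain ⟨e, he⟩ := exists_surjective_nat β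
  choose q hq x hx d hd hno using fun n : ℕ =>
    hcon (1 / (n + 1 : ℝ)) (n + 2) ((Finset.range (n + 1)).image e) (by positivity)
  have hq' : ∀ n, n + 2 ≤ q n := hq
  choose u v huv huS hnear using hx
  obtain ⟨β', w, H, heq⟩ := ext_of S hS θ q x hq' u v huv huS (fun ε hε =>
    small_of hq' (fun n => (v n : ℝ) * |fr θ (q n) (x n) ()|) (fun n => by
      have h1 := hnear n
      unfold fr
      exact h1) ε hε)
  obtain ⟨b, hb⟩ := h q x d β' w H heq hd
  obtain ⟨i, rfl⟩ := he b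
  have hbig : ∀ᶠ n in (UU : Filter ℕ), i ≤ n := ev_of_atTop (Filter.eventually_ge_atTop i)
  obtain ⟨n, h1, h2⟩ := (hb.and hbig).exists
  exact hno n (e i) (Finset.mem_image.2 ⟨i, Finset.mem_range.2 (by omega), rfl⟩) h1

/-- the version without representing objects -/
theorem none_leftO (S : Finset ℕ) (hS : ∀ p ∈ S, p.Prime) (θ : Unit → ℝ) {Δ : Type*}
    (Hyp : ℝ → ℕ → (Unit → ℤ) → Δ → Prop)
    (h : ∀ (q : ℕ → ℕ) (x : ℕ → Unit → ℤ) (d : ℕ → Δ) (β : Fin S.card → ℝ) (w : Unit → ℝ),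
      Ext S hS θ q x β w → ∑ i, β i + w () = 1 →
      (∀ n : ℕ, Hyp (1 / ((n : ℝ) + 1)) (q n) (x n) (d n)) → False) :
    ∃ (η : ℝ) (N : ℕ), 0 < η ∧ ∀ q ≥ N, ∀ x, NearOpt S θ η q x → ∀ d, ¬ Hyp η q x d := by
  obtain ⟨η, N, A, hη, hA⟩ := finite_repO S hS θ (β := ℕ) Hyp (fun _ _ _ _ => False)
    (fun q x d β w H heq hd => (h q x d β w H heq hd).elim)
  refine ⟨η, N, hη, fun q hq x hx d hd => ?_⟩
  obtain ⟨b, _, hb⟩ := hA q hq x hx d hd
  exact hb

end Pool.Agent.Q4.Opt
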