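import Mathlib
import Pool.Agent.Q4.Opt.Sel

set_option autoImplicit false
set_option linter.unusedSectionVars false

/-!
# The subspace theorem with algebraic functions as coefficients, at nearly extremal points
-/

namespace Pool.Agent.Q4.Opt

open Filter Topology Pool.Agent.TH932.Abs Pool.Agent.TH932.Germs Pool.Agent.TH932.Chi
open Pool.Agent.TH796.AL Pool.Agent.Q4.Blk Pool.Agent.Q4.Gcd Pool.Agent.Q4.Cov Module
open Pool.Agent.Q4.Tube hiding Near sm_fr sm_vs sm_dl dl_tendsto dl_le_one sm_ord sm_any lim_evr branch' expand' px_ne root_bnd approxS root_exp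
open MvPolynomial

section
variable {σ : Type} [Fintype σ] [DecidableEq σ]

/-- the exponent of `X₀ ^ R` -/
def tp (σ : Type) (R : ℕ) : Option σ → ℕ := fun o => o.elim R (fun _ => 0)

lemma tp_sum (R : ℕ) : ∑ i, tp σ R i = R := by
  rw [Fintype.sum_option]
  simp [tp]

lemma tp_mem (R : ℕ) : tp σ R ∈ Ex (Option σ) R := mem_Ex.2 (tp_sum R).le

/-- lowering the exponent of `X₀` -/
def dn (R : ℕ) (b : Option σ → ℕ) : Option σ → ℕ := fun o => o.elim (b none - R) (fun s => b (some s))

lemma dn_add {R : ℕ} {b : Option σ → ℕ} (h : R ≤ b none) : dn R b + tp σ R = b := by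
  funext o
  cases o with
  | none =>
    change (b none - R) + R = b none
    omega
  | some s =>
    change b (some s) + 0 = b (some s)
    omega

lemma dn_mem {d R : ℕ} {b : Option σ → ℕ} (h : R ≤ b none) (hb : b ∈ Ex (Option σ) (d + R)) :
    dn R b ∈ Ex (Option σ) d := by
  rw [mem_Ex] at hb ⊢
  have h1 : ∑ i, b i = ∑ i, dn R b i + ∑ i, tp σ R i := by
    rw [← Finset.sum_add_distrib]
    refine Finset.sum_congr rfl fun i _ => ?_
    exact (congrFun (dn_add h) i).symm
  rw [tp_sum] at h1
  omega

lemma card_dn (d R : ℕ) : (Finset.univ.filter fun b : Ex (Option σ) (d + R) => R ≤ b.1 none).card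
    = (Ex (Option σ) d).card := by
  classical
  rw [← Fintype.card_coe (Ex (Option σ) d), ← Finset.card_univ (α := Ex (Option σ) d)]
  refine Finset.card_bij' (fun b _ => if h : R ≤ b.1 none then ⟨dn R b.1, dn_mem h b.2⟩ else
      ⟨fun _ => 0, mem_Ex.2 (by simp)⟩)
    (fun a _ => ⟨a.1 + tp σ R, ?_⟩) ?_ ?_ ?_ ?_
  · rw [mem_Ex]
    have h1 : ∑ i, (a.1 + tp σ R) i = ∑ i, a.1 i + ∑ i, tp σ R i := Finset.sum_add_distrib
    rw [h1, tp_sum]
    have := mem_Ex.1 a.2
    omega
  · intro b _
    exact Finset.mem_univ _
  · intro a _
    refine Finset.mem_filter.2 ⟨Finset.mem_univ _, ?_⟩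
    change R ≤ a.1 none + R
    omega
  · intro b hb
    have h := (Finset.mem_filter.1 hb).2
    apply Subtype.ext
    simp only [dif_pos h]
    exact dn_add h
  · intro a _
    have h : R ≤ (a.1 + tp σ R) none := by
      change R ≤ a.1 none + R
      omega
    apply Subtype.ext
    simp only [dif_pos h]
    funext o
    cases o with
    | none =>
      change (a.1 none + R) - R = a.1 none
      omega
    | some s =>
      change a.1 (some s) + 0 = a.1 (some s)
      omega

lemma ex_dn (w : σ → ℝ) {R : ℕ} {b : Option σ → ℕ} (h : R ≤ b none) :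
    ex w (dn R b) = ex w b - R := by
  unfold ex
  change ((b none - R : ℕ) : ℝ) - ∑ s, w s * (b (some s) : ℝ) = _
  rw [Nat.cast_sub h]
  ring

variable {S : Finset ℕ} {hS : ∀ p ∈ S, p.Prime} {θ : σ → ℝ} {q : ℕ → ℕ} {x : ℕ → σ → ℤ}
  {β : Fin S.card → ℝ} {w : σ → ℝ}

/-- **The subspace theorem with algebraic functions as coefficients** (real forms). -/
theorem subR (H : Ext S hS θ q x β w) (halg : ∀ s, IsAlgebraic ℚ (θ s))
    {J : Type} [Fintype J] [DecidableEq J] (D : J → ℕ) (K : ℕ) (V : J → ℕ → ℤ)
    (hVK : ∀ j, Sm q K (fun n => (V j n : ℂ)))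
    (hrel : ∀ B : J → MvPolynomial (Option σ) ℚ,
      (∀ᶠ n in (UU : Filter ℕ), ∑ j, va (q n) (x n) (B j) * V j n = 0) → ∀ j, B j = 0)
    (μ : Fin S.card → J → ℝ) (hμ0 : ∀ v j, 0 ≤ μ v j) (hμ : ∀ v j, Dv S hS q v (μ v j) (V j))
    (lam : J → J → ℕ → ℝ) (Λ : Matrix J J ℝ) (hΛ : Λ.det ≠ 0)
    (c : ∀ (R : ℕ) (_ : J) (j : J), Ex (Option σ) (R + D j) → ℝ)
    (hca : ∀ R i j a, IsAlgebraic ℚ (c R i j a))
    (hc : ∀ R i j, Sm q (-1) (fun n => (((q n : ℝ) ^ R * lam i j n
      - ∑ a, c R i j a * zv θ (q n) (x n) a.1 : ℝ) : ℂ)))
    (hcΛ : ∀ R i j, c R i j ⟨tp σ (R + D j), tp_mem (R + D j)⟩ = Λ i j)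
    (ν : J → ℝ) (hν : ∀ i, Sm q (ν i) (fun n => ((∑ j, lam i j n * V j n : ℝ) : ℂ))) :
    ∑ j, ((D j : ℝ) + ∑ v, μ v j) ≤ ∑ i, ν i := by
  classical
  set M : ℝ := ∑ j, ∑ v, μ v j with hM
  set T : ℝ := ∑ i, (ν i - D i) with hT
  have hM0' : ∀ j, 0 ≤ ∑ v, μ v j := fun j => Finset.sum_nonneg fun v _ => hμ0 v j
  have hM0 : 0 ≤ M := Finset.sum_nonneg fun j _ => hM0' j
  -- the auxiliary parameter
  obtain ⟨R, hR⟩ : ∃ R : ℕ, ∀ i, (K : ℝ) - 1 ≤ R + ν i := by
    obtain ⟨R, hR⟩ := exists_nat_ge (∑ i, |(K : ℝ) - 1 - ν i|)
    refine ⟨R, fun i => ?_⟩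
    have h1 := Finset.single_le_sum (f := fun i => |(K : ℝ) - 1 - ν i|)
      (fun i _ => abs_nonneg _) (Finset.mem_univ i)
    have h2 := le_abs_self ((K : ℝ) - 1 - ν i)
    linarith
  -- the inequality for every degree
  have hmain : ∀ d : ℕ, ∑ j, ((Ex (Option σ) (d + (R + D j))).card : ℝ) * ∑ v, μ v j
      ≤ (Ex (Option σ) d).card * T
        + ∑ j, (((Ex (Option σ) (d + (R + D j))).card : ℝ) - (Ex (Option σ) d).card) * K := by
    intro d
    set N : J → ℕ := fun j => d + (R + D j) with hN
    set C : Ix σ N → Ix σ N → ℝ := fun k k' =>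
      if R + D k.1 ≤ k.2.1 none then
        ∑ a : Ex (Option σ) (R + D k'.1), if dn (R + D k.1) k.2.1 + a.1 = k'.2.1 then c R k.1 k'.1 a else 0
      else (if k.1 = k'.1 ∧ k.2.1 = k'.2.1 then 1 else 0) with hC
    set lamb : Ix σ N → ℝ := fun k => ex w k.2.1 + (if R + D k.1 ≤ k.2.1 none then ν k.1 - D k.1
      else (K : ℝ)) with hlamb
    have key := sub1 H halg N V (fun B _ hB => hrel B hB) μ hμ C ?_ ?_ lamb ?_
    · rw [Finset.sum_add_distrib, hlamb, Finset.sum_add_distrib] at key
      have h1 : ∑ i : Ix σ N, ∑ v, μ v i.1
          = ∑ j, ((Ex (Option σ) (d + (R + D j))).card : ℝ) * ∑ v, μ v j := by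
        rw [Fintype.sum_sigma]
        refine Finset.sum_congr rfl fun j _ => ?_
        change ∑ _y : Ex (Option σ) (N j), ∑ v, μ v j = _
        rw [Finset.sum_const, Finset.card_univ, Fintype.card_coe, nsmul_eq_mul]
      have h2 : ∑ k : Ix σ N, (if R + D k.1 ≤ k.2.1 none then ν k.1 - D k.1 else (K : ℝ))
          = (Ex (Option σ) d).card * T
            + ∑ j, (((Ex (Option σ) (d + (R + D j))).card : ℝ) - (Ex (Option σ) d).card) * K := by
        rw [Fintype.sum_sigma, hT, Finset.mul_sum, ← Finset.sum_add_distrib]
        refine Finset.sum_congr rfl fun j _ => ?_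
        change ∑ b : Ex (Option σ) (N j), (if R + D j ≤ b.1 none then ν j - D j else (K : ℝ)) = _
        rw [Finset.sum_ite, Finset.sum_const, Finset.sum_const, nsmul_eq_mul, nsmul_eq_mul]
        have h4 := card_dn (σ := σ) d (R + D j)
        have h5 := Finset.card_filter_add_card_filter_not
          (s := (Finset.univ : Finset (Ex (Option σ) (d + (R + D j))))) (fun b => R + D j ≤ b.1 none)
        rw [h4, Finset.card_univ, Fintype.card_coe] at h5
        have h6 : ((Finset.univ.filter fun b : Ex (Option σ) (d + (R + D j)) => ¬ R + D j ≤ b.1 none).card : ℝ)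
            = ((Ex (Option σ) (d + (R + D j))).card : ℝ) - (Ex (Option σ) d).card := by
          rw [← h5]
          push_cast
          ring
        rw [show (Finset.univ.filter fun b : Ex (Option σ) (N j) => R + D j ≤ b.1 none).card
          = (Ex (Option σ) d).card from h4]
        rw [h6]
      rw [h1, h2] at key
      linarith
    · rintro ⟨i, b⟩ ⟨j, b'⟩
      simp only [hC]
      split_ifs
      · refine alg_sum _ _ fun a _ => ?_
        split_ifs
        · exact hca _ _ _ _
        · exact isAlgebraic_zero
      · exact isAlgebraic_one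
      · exact isAlgebraic_zero
    · -- the rank
      intro y hy
      by_contra hcon
      push Not at hcon
      obtain ⟨k1, hk1⟩ := hcon
      obtain ⟨k0, hk0, hmax⟩ := Finset.exists_max_image (Finset.univ.filter fun k => y k ≠ 0)
        (fun k : Ix σ N => (k.2.1 none : ℤ) - D k.1) ⟨k1, Finset.mem_filter.2 ⟨Finset.mem_univ _, hk1⟩⟩
      have hk0' : y k0 ≠ 0 := (Finset.mem_filter.1 hk0).2
      have hmax' : ∀ k, y k ≠ 0 → (k.2.1 none : ℤ) - D k.1 ≤ (k0.2.1 none : ℤ) - D k0.1 :=
        fun k hk => hmax k (Finset.mem_filter.2 ⟨Finset.mem_univ _, hk⟩)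
      obtain ⟨i0, b0⟩ := k0
      simp only [] at hmax'
      by_cases hfull : R + D i0 ≤ b0.1 none
      · -- a full row
        have he0 := dn_mem (d := d) hfull b0.2
        set e0 : Option σ → ℕ := dn (R + D i0) b0.1 with he0d
        have hmem : ∀ j, e0 + tp σ (R + D j) ∈ Ex (Option σ) (N j) := by
          intro j
          rw [mem_Ex]
          have h1 : ∑ i, (e0 + tp σ (R + D j)) i = ∑ i, e0 i + ∑ i, tp σ (R + D j) i :=
            Finset.sum_add_distrib
          rw [h1, tp_sum]
          have := mem_Ex.1 he0
          simp only [hN]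
          omega
        have hcol : ∀ j, ∑ i, y ⟨i, ⟨e0 + tp σ (R + D i), hmem i⟩⟩ * Λ i j = 0 := by
          intro j
          have h1 := hy ⟨j, ⟨e0 + tp σ (R + D j), hmem j⟩⟩
          rw [Fintype.sum_sigma] at h1
          rw [← h1]
          refine Finset.sum_congr rfl fun i _ => ?_
          rw [Finset.sum_eq_single ⟨e0 + tp σ (R + D i), hmem i⟩]
          · congr 1
            simp only [hC]
            have h2 : R + D i ≤ (e0 + tp σ (R + D i)) none := by
              change R + D i ≤ e0 none + (R + D i)
              omega
            rw [if_pos h2]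
            have h3 : dn (R + D i) (e0 + tp σ (R + D i)) = e0 := by
              have h4 := dn_add h2
              funext o
              have h5 := congrFun h4 o
              simp only [Pi.add_apply] at h5
              omega
            rw [h3, Finset.sum_eq_single ⟨tp σ (R + D j), tp_mem (R + D j)⟩]
            · rw [if_pos rfl, hcΛ]
            · intro a _ ha
              rw [if_neg]
              intro h4
              apply ha
              apply Subtype.ext
              funext o
              have h5 := congrFun h4 o
              simp only [Pi.add_apply] at h5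
              change a.1 o = tp σ (R + D j) o
              omega
            · intro h
              exact absurd (Finset.mem_univ _) h
          · intro b _ hb
            by_contra hne
            have h4 : y ⟨i, b⟩ ≠ 0 := left_ne_zero_of_mul hne
            have h5 : C ⟨i, b⟩ ⟨j, ⟨e0 + tp σ (R + D j), hmem j⟩⟩ ≠ 0 := right_ne_zero_of_mul hne
            have h6 := hmax' _ h4
            simp only [] at h6
            have h7 : (b0.1 none : ℕ) = e0 none + (R + D i0) := by
              rw [he0d]
              change b0.1 none = (b0.1 none - (R + D i0)) + (R + D i0)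
              omega
            simp only [hC] at h5
            split_ifs at h5 with h8 h9
            · obtain ⟨a, _, ha⟩ := Finset.exists_ne_zero_of_sum_ne_zero h5
              have h10 : dn (R + D i) b.1 + a.1 = e0 + tp σ (R + D j) := by
                by_contra h
                rw [if_neg h] at ha
                exact ha rfl
              have h11 : (b.1 none - (R + D i)) + a.1 none = e0 none + (R + D j) := congrFun h10 none
              have h12 := mem_Ex.1 a.2
              rw [Fintype.sum_option] at h12
              have h13 : a.1 none = R + D j := by omega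
              have h14 : ∀ s, a.1 (some s) = 0 := by
                intro s
                have := Finset.single_le_sum (f := fun s => a.1 (some s)) (fun _ _ => Nat.zero_le _)
                  (Finset.mem_univ s)
                omega
              apply hb
              apply Subtype.ext
              have h15 := dn_add h8
              change b.1 = e0 + tp σ (R + D i)
              rw [← h15]
              congr 1
              funext o
              cases o with
              | none =>
                change b.1 none - (R + D i) = e0 none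
                omega
              | some s =>
                have h16 := congrFun h10 (some s)
                change dn (R + D i) b.1 (some s) + a.1 (some s) = e0 (some s) + 0 at h16
                rw [h14 s] at h16
                omega
            · apply h8
              have h10 : b.1 none = e0 none + (R + D j) := congrFun h9.2 none
              have h11 : D i = D j := congrArg D h9.1
              change R + D i ≤ b.1 none
              omega
            · exact h5 rfl
          · intro h
            exact absurd (Finset.mem_univ _) h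
        have h4 : Matrix.vecMul (fun i => y ⟨i, ⟨e0 + tp σ (R + D i), hmem i⟩⟩) Λ = 0 := by
          funext j
          exact hcol j
        have h5 := congrFun (Matrix.eq_zero_of_vecMul_eq_zero hΛ h4) i0
        apply hk0'
        have h6 : b0 = ⟨e0 + tp σ (R + D i0), hmem i0⟩ := Subtype.ext (dn_add hfull).symm
        rw [h6]
        exact h5
      · -- a coordinate row
        have h1 := hy ⟨i0, b0⟩
        rw [Finset.sum_eq_single ⟨i0, b0⟩] at h1
        · simp only [hC] at h1
          rw [if_neg hfull, if_pos ⟨trivial, trivial⟩, mul_one] at h1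
          exact hk0' h1
        · rintro ⟨i, b⟩ _ hne
          by_contra hne2
          have h4 : y ⟨i, b⟩ ≠ 0 := left_ne_zero_of_mul hne2
          have h5 : C ⟨i, b⟩ ⟨i0, b0⟩ ≠ 0 := right_ne_zero_of_mul hne2
          have h6 := hmax' _ h4
          simp only [] at h6
          simp only [hC] at h5
          split_ifs at h5 with h8 h9
          · omega
          · apply hne
            obtain ⟨h10, h11⟩ := h9
            subst h10
            rw [Subtype.ext h11]
          · exact h5 rfl
        · intro h
          exact absurd (Finset.mem_univ _) h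
    · -- the sizes
      rintro ⟨i, b⟩
      by_cases hb : R + D i ≤ b.1 none
      · have e1 : lamb ⟨i, b⟩ = ex w (dn (R + D i) b.1) + (R + ν i) := by
          simp only [hlamb]
          rw [if_pos hb, ex_dn w hb]
          push_cast
          ring
        rw [e1]
        have g1 : Sm q (R + ν i) (fun n => (((q n : ℝ) ^ R * ∑ j, lam i j n * V j n : ℝ) : ℂ)) := by
          have := Sm.mul H.big (Sm.qpow H.big R) (hν i)
          refine this.congr (Eventually.of_forall fun n => ?_)
          push_cast
          rfl
        have g2 : Sm q (R + ν i) (fun n => ((∑ j, ((q n : ℝ) ^ R * lam i j n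
            - ∑ a, c R i j a * zv θ (q n) (x n) a.1) * V j n : ℝ) : ℂ)) := by
          have h1 : ∀ j, Sm q (R + ν i) (fun n => ((((q n : ℝ) ^ R * lam i j n
            - ∑ a, c R i j a * zv θ (q n) (x n) a.1) * V j n : ℝ) : ℂ)) := by
            intro j
            have h2 := Sm.mul H.big (hc R i j) (hVK j)
            refine (Sm.mono H.big h2 ?_).congr (Eventually.of_forall fun n => ?_)
            · have := hR i
              linarith
            · push_cast
              ring
          refine (Sm.sum H.big Finset.univ _ fun j _ => h1 j).congr (Eventually.of_forall fun n => ?_)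
          push_cast
          rfl
        have g3 := Sm.mul H.big (H.zv (dn (R + D i) b.1)) (Sm.sub H.big g1 g2)
        refine g3.congr (Eventually.of_forall fun n => ?_)
        rw [← Complex.ofReal_sub, ← Complex.ofReal_mul]
        congr 1
        have e2 : (q n : ℝ) ^ R * ∑ j, lam i j n * V j n - ∑ j, ((q n : ℝ) ^ R * lam i j n
            - ∑ a, c R i j a * zv θ (q n) (x n) a.1) * V j n
            = ∑ j, (∑ a, c R i j a * zv θ (q n) (x n) a.1) * V j n := by
          rw [Finset.mul_sum, ← Finset.sum_sub_distrib]
          refine Finset.sum_congr rfl fun j _ => ?_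
          ring
        rw [e2, Finset.mul_sum]
        rw [Fintype.sum_sigma]
        refine Finset.sum_congr rfl fun j _ => ?_
        simp only [hC, if_pos hb]
        change ∑ b' : Ex (Option σ) (N j), (∑ a : Ex (Option σ) (R + D j),
          if dn (R + D i) b.1 + a.1 = b'.1 then c R i j a else 0)
            * (zv θ (q n) (x n) b'.1 * V j n) = _
        simp only [Finset.sum_mul]
        rw [Finset.sum_comm, Finset.mul_sum]
        refine Finset.sum_congr rfl fun a _ => ?_
        have h3 : dn (R + D i) b.1 + a.1 ∈ Ex (Option σ) (N j) := by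
          have h4 := mem_Ex.1 (dn_mem (d := d) hb b.2)
          have h5 := mem_Ex.1 a.2
          rw [mem_Ex]
          have h6 : ∑ i', (dn (R + D i) b.1 + a.1) i' = ∑ i', dn (R + D i) b.1 i' + ∑ i', a.1 i' :=
            Finset.sum_add_distrib
          rw [h6]
          simp only [hN]
          omega
        rw [Finset.sum_eq_single ⟨dn (R + D i) b.1 + a.1, h3⟩]
        · rw [if_pos rfl, zv_add]
          ring
        · intro b' _ hb'
          rw [if_neg, zero_mul]
          intro h4
          apply hb'
          exact Subtype.ext h4.symm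
        · intro h
          exact absurd (Finset.mem_univ _) h
      · have e1 : lamb ⟨i, b⟩ = ex w b.1 + K := by
          simp only [hlamb]
          rw [if_neg hb]
        rw [e1]
        have g3 := Sm.mul H.big (H.zv b.1) (hVK i)
        refine g3.congr (Eventually.of_forall fun n => ?_)
        rw [Fintype.sum_sigma, Finset.sum_eq_single i]
        · rw [Finset.sum_eq_single b]
          · simp only [hC, if_neg hb]
            rw [if_pos ⟨trivial, trivial⟩, one_mul]
            push_cast
            rfl
          · intro b' _ hb'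
            simp only [hC, if_neg hb]
            rw [if_neg, zero_mul]
            rintro ⟨_, h4⟩
            exact hb' (Subtype.ext h4.symm)
          · intro h
            exact absurd (Finset.mem_univ _) h
        · intro j _ hj
          refine Finset.sum_eq_zero fun b' _ => ?_
          simp only [hC, if_neg hb]
          rw [if_neg, zero_mul]
          rintro ⟨h4, _⟩
          exact hj h4.symm
        · intro h
          exact absurd (Finset.mem_univ _) h
  -- the limit
  rw [Finset.sum_add_distrib]
  have hTT : T = ∑ i, ν i - ∑ i, (D i : ℝ) := by rw [hT, Finset.sum_sub_distrib]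
  suffices hfin : M ≤ T by linarith
  refine le_of_forall_pos_le_add fun η hη => ?_
  set DD : ℕ := ∑ j, D j with hDD
  obtain ⟨d, hd⟩ := card_ratio (Option σ) (R + DD) (η := η / (Fintype.card J * K + 1)) (by positivity)
  have h1 := hmain d
  have hc0 : (0 : ℝ) < (Ex (Option σ) d).card := by
    have : 0 < (Ex (Option σ) d).card := Finset.card_pos.2 ⟨0, mem_Ex.2 (by simp)⟩
    exact_mod_cast this
  have hmon : ∀ e e' : ℕ, e ≤ e' → ((Ex (Option σ) e).card : ℝ) ≤ (Ex (Option σ) e').card := by
    intro e e' h
    have : (Ex (Option σ) e).card ≤ (Ex (Option σ) e').card := by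
      apply Finset.card_le_card
      intro a ha
      rw [mem_Ex] at ha ⊢
      omega
    exact_mod_cast this
  have hDj : ∀ j, D j ≤ DD := fun j => Finset.single_le_sum (f := D) (fun _ _ => Nat.zero_le _)
    (Finset.mem_univ j)
  have h2 : ∀ j, ((Ex (Option σ) (d + (R + D j))).card : ℝ) - (Ex (Option σ) d).card
      ≤ η / (Fintype.card J * K + 1) * (Ex (Option σ) d).card := by
    intro j
    have := hmon (d + (R + D j)) (d + (R + DD)) (by have := hDj j; omega)
    linarith
  have h3 : (0 : ℝ) ≤ Fintype.card J * K := by positivity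
  have h4 : η / (Fintype.card J * K + 1) * (Fintype.card J * K) ≤ η := by
    rw [div_mul_eq_mul_div, div_le_iff₀ (by positivity)]
    nlinarith
  have h5 : ∑ j, (((Ex (Option σ) (d + (R + D j))).card : ℝ) - (Ex (Option σ) d).card) * K
      ≤ (Ex (Option σ) d).card * η := by
    calc _ ≤ ∑ _j : J, η / (Fintype.card J * K + 1) * (Ex (Option σ) d).card * K :=
          Finset.sum_le_sum fun j _ => mul_le_mul_of_nonneg_right (h2 j) (Nat.cast_nonneg _)
      _ = (Ex (Option σ) d).card * (η / (Fintype.card J * K + 1) * (Fintype.card J * K)) := by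
          rw [Finset.sum_const, Finset.card_univ, nsmul_eq_mul]
          ring
      _ ≤ _ := mul_le_mul_of_nonneg_left h4 hc0.le
  have h6 : (Ex (Option σ) d).card * M ≤ (Ex (Option σ) d).card * (T + η) := by
    have h7 : (Ex (Option σ) d).card * M
        ≤ ∑ j, ((Ex (Option σ) (d + (R + D j))).card : ℝ) * ∑ v, μ v j := by
      rw [hM, Finset.mul_sum]
      exact Finset.sum_le_sum fun j _ => mul_le_mul_of_nonneg_right (hmon _ _ (by omega)) (hM0' j)
    linarith
  exact le_of_mul_le_mul_left h6 hc0

end

end Pool.Agent.Q4.Opt
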