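import Mathlib
import Pool.Agent.Q4.Opt.Sub

set_option autoImplicit false
set_option linter.unusedSectionVars false

/-!
# The subspace theorem with algebraic functions as coefficients: complex forms
-/

namespace Pool.Agent.Q4.Opt

open Filter Topology Pool.Agent.TH932.Abs Pool.Agent.TH932.Germs Pool.Agent.TH932.Chi
open Pool.Agent.TH796.AL Pool.Agent.Q4.Blk Pool.Agent.Q4.Gcd Pool.Agent.Q4.Cov Module
open Pool.Agent.Q4.Tube hiding Near sm_fr sm_vs sm_dl dl_tendsto dl_le_one sm_ord sm_any lim_evr branch' expand' px_ne root_bnd approxS root_exp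
open MvPolynomial

/-- real or imaginary parts of the rows of an invertible matrix -/
lemma exists_re_im {J : Type*} [Fintype J] [DecidableEq J] (A : Matrix J J ℂ) (hA : A.det ≠ 0) :
    ∃ s : Finset J, (Matrix.of fun i j => if i ∈ s then (A i j).re else (A i j).im).det ≠ 0 := by
  classical
  by_contra hcon
  push Not at hcon
  apply hA
  have h1 : A = (fun i j => ((A i j).re : ℂ)) + (fun i => Complex.I • (fun j => ((A i j).im : ℂ))) := by
    funext i j
    rw [Pi.add_apply, Pi.add_apply]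
    change _ = ((A i j).re : ℂ) + Complex.I * ((A i j).im : ℂ)
    rw [mul_comm, Complex.re_add_im]
  change Matrix.detRowAlternating.toMultilinearMap A = 0
  rw [h1, MultilinearMap.map_add_univ]
  refine Finset.sum_eq_zero fun s _ => ?_
  have h2 : s.piecewise (fun i j => ((A i j).re : ℂ)) (fun i => Complex.I • (fun j => ((A i j).im : ℂ)))
      = fun i => (if i ∈ s then (1 : ℂ) else Complex.I) •
        (fun j => (((if i ∈ s then (A i j).re else (A i j).im) : ℝ) : ℂ)) := by
    funext i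
    by_cases hi : i ∈ s
    · rw [Finset.piecewise_eq_of_mem _ _ _ hi]
      simp only [if_pos hi, one_smul]
    · rw [Finset.piecewise_eq_of_notMem _ _ _ hi]
      simp only [if_neg hi]
  rw [h2, MultilinearMap.map_smul_univ]
  have h3 : (Matrix.detRowAlternating.toMultilinearMap
      (fun i j => (((if i ∈ s then (A i j).re else (A i j).im) : ℝ) : ℂ)))
      = (((Matrix.of fun i j => if i ∈ s then (A i j).re else (A i j).im).det : ℝ) : ℂ) := by
    have h4 := RingHom.map_det Complex.ofRealHom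
      (Matrix.of fun i j => if i ∈ s then (A i j).re else (A i j).im)
    rw [show (((Matrix.of fun i j => if i ∈ s then (A i j).re else (A i j).im).det : ℝ) : ℂ)
      = Complex.ofRealHom (Matrix.of fun i j => if i ∈ s then (A i j).re else (A i j).im).det from rfl, h4]
    rfl
  rw [h3, hcon s, Complex.ofReal_zero, smul_zero]

lemma alg_im {z : ℂ} (hz : IsAlgebraic ℚ z) : IsAlgebraic ℚ z.im := by
  have h1 : IsAlgebraic ℚ Complex.I := by
    refine ⟨Polynomial.X ^ 2 + 1, ?_, ?_⟩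
    · exact Polynomial.Monic.ne_zero (by monicity!)
    · simp
  have h2 := alg_re (h1.neg.mul hz)
  have h3 : (-Complex.I * z).re = z.im := by simp
  rwa [h3] at h2

section
variable {σ : Type} [Fintype σ] [DecidableEq σ]
variable {S : Finset ℕ} {hS : ∀ p ∈ S, p.Prime} {θ : σ → ℝ} {q : ℕ → ℕ} {x : ℕ → σ → ℤ}
  {β : Fin S.card → ℝ} {w : σ → ℝ}

/-- the leading coefficient of an expansion is the limit -/
lemma lead_lim' (H : Ext S hS θ q x β w) (R : ℕ) (lam : ℕ → ℂ) (Λ : ℂ) (c : Ex (Option σ) R → ℂ)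
    (hc : Sm q (-1) (fun n => (q n : ℂ) ^ R * lam n
      - ∑ a, c a * ((zv θ (q n) (x n) a.1 : ℝ) : ℂ)))
    (hlim : Tendsto lam (UU : Filter ℕ) (𝓝 Λ)) : c ⟨tp σ R, tp_mem R⟩ = Λ := by
  classical
  have hq0 : ∀ n, (q n : ℂ) ≠ 0 := fun n => by
    have h1 := qpos H.big n
    have h2 : (q n : ℝ) ≠ 0 := h1.ne'
    exact_mod_cast h2
  have hinv : ∀ k : ℕ, Sm q (-(k : ℝ)) (fun n => (1 / (q n : ℂ)) ^ k) := by
    intro k
    have := Sm.pow H.big (Sm.qinv H.big) k
    have e : (k : ℝ) * (-1) = -(k : ℝ) := by ring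
    rwa [e] at this
  have h1 : ∀ a : Ex (Option σ) R, a ≠ ⟨tp σ R, tp_mem R⟩ →
      Sm q (-1) (fun n => c a * ((zv θ (q n) (x n) a.1 : ℝ) : ℂ) * (1 / (q n : ℂ)) ^ R) := by
    intro a ha
    have g1 := Sm.mul H.big (Sm.mul H.big (Sm.const H.big (c a)) (H.zv a.1)) (hinv R)
    refine Sm.mono H.big g1 ?_
    rw [zero_add]
    have h2 := mem_Ex.1 a.2
    rw [Fintype.sum_option] at h2
    have h3 : a.1 none < R := by
      rcases Nat.lt_or_ge (a.1 none) R with h | h
      · exact h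
      · exfalso
        apply ha
        apply Subtype.ext
        have h8 : ∀ s, a.1 (some s) = 0 := by
          intro s
          have := Finset.single_le_sum (f := fun s => a.1 (some s)) (fun _ _ => Nat.zero_le _)
            (Finset.mem_univ s)
          omega
        funext o
        cases o with
        | none =>
          change a.1 none = R
          omega
        | some s => exact h8 s
    have h4 : ((a.1 none : ℕ) : ℝ) + 1 ≤ R := by exact_mod_cast h3
    unfold ex
    have h5 : 0 ≤ ∑ s, w s * (a.1 (some s) : ℝ) :=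
      Finset.sum_nonneg fun s _ => mul_nonneg (H.w0 s) (Nat.cast_nonneg _)
    linarith
  have h2 := Sm.sum H.big (Finset.univ.erase (⟨tp σ R, tp_mem R⟩ : Ex (Option σ) R)) _
    (fun a ha => h1 a (Finset.ne_of_mem_erase ha))
  have h3 := Sm.mono H.big (Sm.mul H.big hc (hinv R)) (show (-1 : ℝ) + -(R : ℝ) ≤ -1 by
    have : (0 : ℝ) ≤ R := Nat.cast_nonneg _
    linarith)
  have h4 := Sm.tendsto H.big (by norm_num) (Sm.add H.big h3 h2)
  have h5 : Tendsto (fun n => lam n - c ⟨tp σ R, tp_mem R⟩) (UU : Filter ℕ) (𝓝 0) := by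
    refine h4.congr fun n => ?_
    rw [← Finset.add_sum_erase Finset.univ
      (fun a : Ex (Option σ) R => c a * ((zv θ (q n) (x n) a.1 : ℝ) : ℂ))
      (Finset.mem_univ ⟨tp σ R, tp_mem R⟩)]
    have h6 : ((zv θ (q n) (x n) (tp σ R) : ℝ) : ℂ) = (q n : ℂ) ^ R := by
      unfold Tube.zv
      simp [tp]
    simp only [h6]
    rw [← Finset.sum_mul]
    have h7 : (q n : ℂ) ^ R * (1 / (q n : ℂ)) ^ R = 1 := by
      rw [← mul_pow, mul_one_div_cancel (hq0 n), one_pow]
    linear_combination (lam n - c ⟨tp σ R, tp_mem R⟩) * h7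
  have h6 := hlim.sub h5
  have h7 : Tendsto (fun n => lam n - (lam n - c ⟨tp σ R, tp_mem R⟩)) (UU : Filter ℕ)
      (𝓝 (c ⟨tp σ R, tp_mem R⟩)) := by
    refine tendsto_const_nhds.congr fun n => ?_
    ring
  have h8 := tendsto_nhds_unique h7 h6
  rw [h8, sub_zero]

lemma lead_lim (H : Ext S hS θ q x β w) (R D : ℕ) (lam : ℕ → ℂ) (Λ : ℂ)
    (c : Ex (Option σ) (R + D) → ℂ)
    (hc : Sm q (-1) (fun n => (q n : ℂ) ^ R * lam n
      - ∑ a, c a * ((zv θ (q n) (x n) a.1 : ℝ) : ℂ)))
    (hlim : Tendsto (fun n => lam n / (q n : ℂ) ^ D) (UU : Filter ℕ) (𝓝 Λ)) :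
    c ⟨tp σ (R + D), tp_mem (R + D)⟩ = Λ := by
  have hq0 : ∀ n, (q n : ℂ) ≠ 0 := fun n => by
    have h1 := qpos H.big n
    have h2 : (q n : ℝ) ≠ 0 := h1.ne'
    exact_mod_cast h2
  refine lead_lim' H (R + D) (fun n => lam n / (q n : ℂ) ^ D) Λ c (hc.congr
    (Eventually.of_forall fun n => ?_)) hlim
  congr 1
  have := hq0 n
  rw [pow_add]
  field_simp

/-- **The subspace theorem with algebraic functions as coefficients** (complex forms). -/
theorem subC (H : Ext S hS θ q x β w) (halg : ∀ s, IsAlgebraic ℚ (θ s))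
    {J : Type} [Fintype J] [DecidableEq J] (D : J → ℕ) (K : ℕ) (V : J → ℕ → ℤ)
    (hVK : ∀ j, Sm q K (fun n => (V j n : ℂ)))
    (hrel : ∀ B : J → MvPolynomial (Option σ) ℚ,
      (∀ᶠ n in (UU : Filter ℕ), ∑ j, va (q n) (x n) (B j) * V j n = 0) → ∀ j, B j = 0)
    (μ : Fin S.card → J → ℝ) (hμ0 : ∀ v j, 0 ≤ μ v j) (hμ : ∀ v j, Dv S hS q v (μ v j) (V j))
    (lam : J → J → ℕ → ℂ) (Λ : Matrix J J ℂ) (hΛ : Λ.det ≠ 0)
    (hlim : ∀ i j, Tendsto (fun n => lam i j n / (q n : ℂ) ^ D j) (UU : Filter ℕ) (𝓝 (Λ i j)))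
    (c : ∀ (R : ℕ) (_ : J) (j : J), Ex (Option σ) (R + D j) → QB)
    (hc : ∀ R i j, Sm q (-1) (fun n => (q n : ℂ) ^ R * lam i j n
      - ∑ a, phi (c R i j a) * ((zv θ (q n) (x n) a.1 : ℝ) : ℂ)))
    (ν : J → ℝ) (hν : ∀ i, Sm q (ν i) (fun n => ∑ j, lam i j n * V j n)) :
    ∑ j, ((D j : ℝ) + ∑ v, μ v j) ≤ ∑ i, ν i := by
  classical
  obtain ⟨s, hs⟩ := exists_re_im Λ hΛ
  set part : J → ℂ → ℝ := fun i z => if i ∈ s then z.re else z.im with hpart
  have hple : ∀ i z, |part i z| ≤ ‖z‖ := by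
    intro i z
    simp only [hpart]
    split_ifs
    · exact Complex.abs_re_le_norm z
    · exact Complex.abs_im_le_norm z
  have hpalg : ∀ i z, IsAlgebraic ℚ z → IsAlgebraic ℚ (part i z) := by
    intro i z hz
    simp only [hpart]
    split_ifs
    · exact alg_re hz
    · exact alg_im hz
  have hpsub : ∀ i z z', part i (z - z') = part i z - part i z' := by
    intro i z z'
    simp only [hpart]
    split_ifs <;> simp
  have hpsum : ∀ i {ι : Type} (t : Finset ι) (f : ι → ℂ), part i (∑ a ∈ t, f a)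
      = ∑ a ∈ t, part i (f a) := by
    intro i ι t f
    simp only [hpart]
    split_ifs <;> simp
  have hpmul : ∀ i (z : ℂ) (r : ℝ), part i (z * r) = part i z * r := by
    intro i z r
    simp only [hpart]
    split_ifs <;> simp
  refine subR H halg D K V hVK hrel μ hμ0 hμ (fun i j n => part i (lam i j n))
    (Matrix.of fun i j => part i (Λ i j)) hs (fun R i j a => part i (phi (c R i j a)))
    (fun R i j a => hpalg i _ (alg_QB _)) ?_ ?_ ν ?_
  · intro R i j
    refine (hc R i j).le (Eventually.of_forall fun n => ?_)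
    rw [Complex.norm_real, Real.norm_eq_abs]
    refine le_trans (le_of_eq ?_) (hple i _)
    congr 1
    rw [hpsub, hpsum]
    congr 1
    · have h5 : (q n : ℂ) ^ R = (((q n : ℝ) ^ R : ℝ) : ℂ) := by push_cast; rfl
      rw [h5, mul_comm ((((q n : ℝ) ^ R : ℝ)) : ℂ), hpmul, mul_comm]
    · refine Finset.sum_congr rfl fun a _ => ?_
      rw [hpmul]
  · intro R i j
    have h1 := lead_lim H R (D j) (lam i j) (Λ i j) (fun a => phi (c R i j a)) (hc R i j) (hlim i j)
    simp only [Matrix.of_apply]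
    rw [← h1]
  · intro i
    refine (hν i).le (Eventually.of_forall fun n => ?_)
    rw [Complex.norm_real, Real.norm_eq_abs]
    refine le_trans (le_of_eq ?_) (hple i _)
    congr 1
    rw [hpsum]
    refine Finset.sum_congr rfl fun j _ => ?_
    have h5 : (V j n : ℂ) = (((V j n : ℝ) : ℝ) : ℂ) := by push_cast; rfl
    rw [h5, hpmul]

end

end Pool.Agent.Q4.Opt
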