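import Mathlib
import Pool.Agent.Q4.Opt.SubC

set_option autoImplicit false
set_option linter.unusedSectionVars false

/-!
# Schmidt's theorem with algebraic functions as coefficients over nearly optimal approximations
-/

namespace Pool.Agent.Q4.Opt

open Filter Topology Pool.Agent.TH932.Abs Pool.Agent.TH932.Germs Pool.Agent.TH932.Chi
open Pool.Agent.TH796.AL Pool.Agent.Q4.Blk Pool.Agent.Q4.Gcd Pool.Agent.Q4.Cov Module
open Pool.Agent.Q4.Tube hiding Near sm_fr sm_vs sm_dl dl_tendsto dl_le_one sm_ord sm_any lim_evr branch' expand' px_ne root_bnd approxS root_exp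
open MvPolynomial

lemma logq_pos {q : ℕ → ℕ} (hq : ∀ n, n + 2 ≤ q n) (n : ℕ) : 0 < Real.log (q n) := by
  apply Real.log_pos
  have := hq n
  have h2 : 2 ≤ q n := by omega
  exact_mod_cast h2

/-- the orders of an integer sequence at the primes of `S` -/
lemma exists_ord {S : Finset ℕ} (hS : ∀ p ∈ S, p.Prime) {q : ℕ → ℕ} (hq : ∀ n, n + 2 ≤ q n)
    (V : ℕ → ℤ) (K : ℕ) (hV : ∀ᶠ n in (UU : Filter ℕ), V n ≠ 0 ∧ |V n| ≤ (q n : ℤ) ^ K) :
    ∃ μ : Fin S.card → ℝ, (∀ v, 0 ≤ μ v) ∧ (∀ v, Dv S hS q v (μ v) V) ∧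
      Tendsto (fun n => Real.log (spart S (V n)) / Real.log (q n)) (UU : Filter ℕ)
        (𝓝 (∑ v, μ v)) := by
  classical
  have hLpos := logq_pos hq
  have hnn : ∀ n i, 0 ≤ ((V n).natAbs.factorization ((bas S hS).P i) : ℝ)
      * Real.log ((bas S hS).P i) := fun n i => by
    have := (bas S hS).log_pos i
    positivity
  have hlim : ∀ i, ∃ y, Tendsto (fun n => ((V n).natAbs.factorization ((bas S hS).P i) : ℝ)
      * Real.log ((bas S hS).P i) / Real.log (q n)) (UU : Filter ℕ) (𝓝 y) := by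
    intro i
    apply exists_lim _ K
    filter_upwards [hV] with n hn
    refine ⟨div_nonneg (hnn n i) (hLpos n).le, ?_⟩
    rw [div_le_iff₀ (hLpos n), ← Real.log_pow, ← Real.log_pow]
    have hP : 0 < (bas S hS).P i := (bas S hS).pos i
    apply Real.log_le_log
    · positivity
    · have h1 : ((bas S hS).P i) ^ ((V n).natAbs.factorization ((bas S hS).P i)) ≤ (V n).natAbs :=
        Nat.le_of_dvd (Nat.pos_of_ne_zero (Int.natAbs_ne_zero.2 hn.1)) (Nat.ordProj_dvd _ _)
      have h2 : (V n).natAbs ≤ q n ^ K := by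
        have := hn.2
        zify
        exact this
      exact_mod_cast h1.trans h2
  choose μ hμ using hlim
  refine ⟨μ, fun i => ge_of_tendsto (hμ i)
    (Eventually.of_forall fun n => div_nonneg (hnn n i) (hLpos n).le), ?_, ?_⟩
  · intro i ε hε
    have h1 : ∀ᶠ n in (UU : Filter ℕ), μ i - ε < ((V n).natAbs.factorization ((bas S hS).P i) : ℝ)
      * Real.log ((bas S hS).P i) / Real.log (q n) :=
      (hμ i).eventually (lt_mem_nhds (by linarith))
    filter_upwards [h1] with n h2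
    refine ⟨(V n).natAbs.factorization ((bas S hS).P i), ?_, ?_⟩
    · have h3 : ((bas S hS).P i) ^ ((V n).natAbs.factorization ((bas S hS).P i)) ∣ (V n).natAbs :=
        Nat.ordProj_dvd _ _
      have h4 := Int.natCast_dvd.2 h3
      exact_mod_cast h4
    · rw [lt_div_iff₀ (hLpos n)] at h2
      exact h2.le
  · have h1 := tendsto_finsetSum Finset.univ (fun i _ => hμ i)
    refine h1.congr fun n => ?_
    rw [spart_eq hS, log_prod_bas hS, Finset.sum_div]

/-- the exponent of a sequence, cut off at `-C` -/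
lemma exists_nu {q : ℕ → ℕ} (hq : ∀ n, n + 2 ≤ q n) (f : ℕ → ℂ) (A C : ℝ) (hA : 0 ≤ A) (hC : 0 ≤ C)
    (hf : Sm q A f) :
    ∃ ν : ℝ, Sm q ν f ∧ Tendsto (fun n => if f n = 0 then -C else
      max (-C) (Real.log ‖f n‖ / Real.log (q n))) (UU : Filter ℕ) (𝓝 ν) := by
  classical
  have hLpos := logq_pos hq
  obtain ⟨y, hy⟩ := exists_lim (fun n => (if f n = 0 then -C else
      max (-C) (Real.log ‖f n‖ / Real.log (q n))) + C) (A + 1 + C) (by
    filter_upwards [hf 1 one_pos] with n hn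
    split_ifs with h
    · constructor <;> linarith
    · refine ⟨by linarith [le_max_left (-C) (Real.log ‖f n‖ / Real.log (q n))], ?_⟩
      have h1 : Real.log ‖f n‖ / Real.log (q n) ≤ A + 1 := by
        rw [div_le_iff₀ (hLpos n), ← Real.log_rpow (qpos hq n)]
        exact Real.log_le_log (norm_pos_iff.2 h) hn
      have := max_le (show -C ≤ A + 1 by linarith) h1
      linarith)
  refine ⟨y - C, ?_, ?_⟩
  · intro ε hε
    have h1 := hy.eventually (gt_mem_nhds (show y < y + ε by linarith))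
    filter_upwards [h1] with n hn
    by_cases h : f n = 0
    · rw [h, norm_zero]
      have := qpos hq n
      positivity
    · rw [if_neg h] at hn
      have h2 : Real.log ‖f n‖ / Real.log (q n) < y - C + ε := by
        have := le_max_right (-C) (Real.log ‖f n‖ / Real.log (q n))
        linarith
      rw [div_lt_iff₀ (hLpos n), ← Real.log_rpow (qpos hq n)] at h2
      have h3 : (0 : ℝ) < (q n : ℝ) ^ (y - C + ε) := Real.rpow_pos_of_pos (qpos hq n) _
      exact ((Real.log_lt_log_iff (norm_pos_iff.2 h) h3).1 h2).le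
  · have h1 := hy.sub (tendsto_const_nhds (x := C))
    refine h1.congr fun n => ?_
    ring

lemma Sm.prod_sub {q : ℕ → ℕ} (hq : ∀ n, n + 2 ≤ q n) {ι : Type*} (s : Finset ι) (a : ι → ℂ)
    (f : ι → ℕ → ℂ) (h : ∀ i ∈ s, Sm q (-1) (fun n => f i n - a i)) :
    Sm q (-1) (fun n => ∏ i ∈ s, f i n - ∏ i ∈ s, a i) := by
  classical
  induction s using Finset.induction_on with
  | empty =>
    simp only [Finset.prod_empty, sub_self]
    exact Sm.zero hq (-1)
  | insert i s hi ih =>
    have h1 := ih fun j hj => h j (Finset.mem_insert_of_mem hj)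
    have h2 := h i (Finset.mem_insert_self _ _)
    have h3 : Sm q 0 (f i) := by
      have h4 := Sm.add hq (Sm.mono hq h2 (show (-1 : ℝ) ≤ 0 by norm_num)) (Sm.const hq (a i))
      refine h4.congr (Eventually.of_forall fun n => ?_)
      ring
    have h5 := Sm.mul hq h1 h3
    have h6 := Sm.mul hq (Sm.const hq (∏ i ∈ s, a i)) h2
    rw [add_zero] at h5
    rw [zero_add] at h6
    refine (Sm.add hq h5 h6).congr (Eventually.of_forall fun n => ?_)
    rw [Finset.prod_insert hi, Finset.prod_insert hi]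
    ring

lemma Sm.det_sub {q : ℕ → ℕ} (hq : ∀ n, n + 2 ≤ q n) {J : Type} [Fintype J] [DecidableEq J]
    (A : Matrix J J ℂ) (f : J → J → ℕ → ℂ) (h : ∀ i j, Sm q (-1) (fun n => f i j n - A i j)) :
    Sm q (-1) (fun n => (Matrix.of fun i j => f i j n).det - A.det) := by
  classical
  have h1 : ∀ σ : Equiv.Perm J, Sm q (-1) (fun n => (Equiv.Perm.sign σ : ℤ) •
      (∏ i, f (σ i) i n - ∏ i, A (σ i) i)) := by
    intro σ
    have h2 := Sm.prod_sub hq Finset.univ (fun i => A (σ i) i) (fun i n => f (σ i) i n)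
      (fun i _ => h (σ i) i)
    have h3 := Sm.mul hq (Sm.const hq (((Equiv.Perm.sign σ : ℤ) : ℂ))) h2
    rw [zero_add] at h3
    refine h3.congr (Eventually.of_forall fun n => ?_)
    rw [zsmul_eq_mul]
  refine (Sm.sum hq Finset.univ _ fun σ _ => h1 σ).congr (Eventually.of_forall fun n => ?_)
  rw [Matrix.det_apply, Matrix.det_apply, ← Finset.sum_sub_distrib]
  refine Finset.sum_congr rfl fun σ _ => ?_
  rw [zsmul_sub]
  rfl

section
variable {σ : Type} [Fintype σ] [DecidableEq σ]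
variable {S : Finset ℕ} {hS : ∀ p ∈ S, p.Prime} {θ : σ → ℝ} {q : ℕ → ℕ} {x : ℕ → σ → ℤ}
  {β : Fin S.card → ℝ} {w : σ → ℝ}

/-- the expansion determines the function up to `O(1 / q)` -/
lemma lead_sm (H : Ext S hS θ q x β w) (R : ℕ) (lam : ℕ → ℂ) (c : Ex (Option σ) R → ℂ)
    (hc : Sm q (-1) (fun n => lam n
      - ∑ a, c a * ((zv θ (q n) (x n) a.1 : ℝ) : ℂ))) :
    Sm q (-1) (fun n => lam n / (q n : ℂ) ^ R - c ⟨tp σ R, tp_mem R⟩) := by
  classical
  have hq0 : ∀ n, (q n : ℂ) ≠ 0 := fun n => by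
    have h1 := qpos H.big n
    have h2 : (q n : ℝ) ≠ 0 := h1.ne'
    exact_mod_cast h2
  have hinv : ∀ k : ℕ, Sm q (-(k : ℝ)) (fun n => (1 / (q n : ℂ)) ^ k) := by
    intro k
    have := Sm.pow H.big (Sm.qinv H.big) k
    have e : (k : ℝ) * (-1) = -(k : ℝ) := by ring
    rwa [e] at this
  have h1 : ∀ a : Ex (Option σ) R, a ≠ ⟨tp σ R, tp_mem R⟩ →
      Sm q (-1) (fun n => c a * ((zv θ (q n) (x n) a.1 : ℝ) : ℂ) * (1 / (q n : ℂ)) ^ R) := by
    intro a ha
    have g1 := Sm.mul H.big (Sm.mul H.big (Sm.const H.big (c a)) (H.zv a.1)) (hinv R)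
    refine Sm.mono H.big g1 ?_
    rw [zero_add]
    have h2 := mem_Ex.1 a.2
    rw [Fintype.sum_option] at h2
    have h3 : a.1 none < R := by
      rcases Nat.lt_or_ge (a.1 none) R with h | h
      · exact h
      · exfalso
        apply ha
        apply Subtype.ext
        have h8 : ∀ s, a.1 (some s) = 0 := by
          intro s
          have := Finset.single_le_sum (f := fun s => a.1 (some s)) (fun _ _ => Nat.zero_le _)
            (Finset.mem_univ s)
          omega
        funext o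
        cases o with
        | none =>
          change a.1 none = R
          omega
        | some s => exact h8 s
    have h4 : ((a.1 none : ℕ) : ℝ) + 1 ≤ R := by exact_mod_cast h3
    unfold ex
    have h5 : 0 ≤ ∑ s, w s * (a.1 (some s) : ℝ) :=
      Finset.sum_nonneg fun s _ => mul_nonneg (H.w0 s) (Nat.cast_nonneg _)
    linarith
  have h2 := Sm.sum H.big (Finset.univ.erase (⟨tp σ R, tp_mem R⟩ : Ex (Option σ) R)) _
    (fun a ha => h1 a (Finset.ne_of_mem_erase ha))
  have h3 := Sm.mono H.big (Sm.mul H.big hc (hinv R)) (show (-1 : ℝ) + -(R : ℝ) ≤ -1 by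
    have : (0 : ℝ) ≤ R := Nat.cast_nonneg _
    linarith)
  refine (Sm.add H.big h3 h2).congr (Eventually.of_forall fun n => ?_)
  rw [← Finset.add_sum_erase Finset.univ
    (fun a : Ex (Option σ) R => c a * ((zv θ (q n) (x n) a.1 : ℝ) : ℂ))
    (Finset.mem_univ ⟨tp σ R, tp_mem R⟩)]
  have h6 : ((zv θ (q n) (x n) (tp σ R) : ℝ) : ℂ) = (q n : ℂ) ^ R := by
    unfold Tube.zv
    simp [tp]
  simp only [h6]
  rw [← Finset.sum_mul]
  have h7 : (q n : ℂ) ^ R * (1 / (q n : ℂ)) ^ R = 1 := by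
    rw [← mul_pow, mul_one_div_cancel (hq0 n), one_pow]
  have h8 : lam n / (q n : ℂ) ^ R = lam n * (1 / (q n : ℂ)) ^ R := by
    rw [one_div, inv_pow, div_eq_mul_inv]
  rw [h8]
  linear_combination (c ⟨tp σ R, tp_mem R⟩) * h7

/-- **Schmidt's theorem** along sequences. -/
theorem schS (H : Ext S hS θ q x β w) (halg : ∀ s, IsAlgebraic ℚ (θ s))
    (hind : ∀ R : MvPolynomial (Option σ) ℚ, Rel q x R → R = 0)
    {J : Type} [Fintype J] [DecidableEq J]
    (P : J → J → Polynomial (MvPolynomial (Option σ) ℤ)) (D : J → ℕ) (d : J → J → ℕ)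
    (hlead : ∀ i j, topv (d i j) (P i j).leadingCoeff θ ≠ 0)
    (hdeg : ∀ i j k, ((P i j).coeff k).totalDegree ≤ ((P i j).natDegree - k) * D j + d i j)
    (hsep : ∀ i j, (pnf (P i j) (D j) (d i j) θ).Separable) (K : ℕ) (ε : ℝ) (hε : 0 < ε)
    (ρ : J → J → ℕ → ℂ) (hρ : ∀ i j n, ((P i j).map (evx (q n) (x n) ℂ)).eval (ρ i j n) = 0)
    (hdet : ∀ n : ℕ, (q n : ℝ) ^ (∑ j, (D j : ℝ) - 1 / ((n : ℝ) + 1))
      ≤ ‖(Matrix.of fun i j => ρ i j n).det‖)
    (V : J → ℕ → ℤ) (hV : ∀ j n, |V j n| ≤ (q n : ℤ) ^ K)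
    (hineq : ∀ n, ∏ i, ‖∑ j, ρ i j n * V j n‖
      ≤ (q n : ℝ) ^ (∑ j, (D j : ℝ) - ε) * ∏ j, (spart S (V j n) : ℝ)) :
    ∃ B : J → MvPolynomial (Option σ) ℚ, B ≠ 0 ∧
      ∀ᶠ n in (UU : Filter ℕ), ∑ j, (V j n : ℚ) * va (q n) (x n) (B j) = 0 := by
  classical
  by_contra hcon0
  have hcon : ∀ B : J → MvPolynomial (Option σ) ℚ, B ≠ 0 →
      ¬ ∀ᶠ n in (UU : Filter ℕ), ∑ j, (V j n : ℚ) * va (q n) (x n) (B j) = 0 :=
    fun B hB h => hcon0 ⟨B, hB, h⟩
  have hLpos := logq_pos H.big
  have hq0 : ∀ n, (q n : ℂ) ≠ 0 := fun n => by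
    have h1 := qpos H.big n
    have h2 : (q n : ℝ) ≠ 0 := h1.ne'
    exact_mod_cast h2
  -- the coordinates are nonzero
  have hV0 : ∀ j, ∀ᶠ n in (UU : Filter ℕ), V j n ≠ 0 := by
    intro j
    by_contra h
    rw [← Ultrafilter.eventually_not] at h
    apply hcon (Pi.single j 1)
    · intro h0
      have := congrFun h0 j
      rw [Pi.single_eq_same] at this
      exact one_ne_zero this
    · filter_upwards [h] with n hn
      rw [not_not] at hn
      rw [Finset.sum_eq_single j]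
      · rw [hn, Int.cast_zero, zero_mul]
      · intro o' _ ho'
        rw [Pi.single_eq_of_ne ho', map_zero, mul_zero]
      · intro h
        exact absurd (Finset.mem_univ _) h
  -- the orders
  choose μ hμ0 hμ hμlim using fun j => exists_ord hS H.big (V j) K (by
    filter_upwards [hV0 j] with n hn
    exact ⟨hn, hV j n⟩)
  -- the expansions
  choose c hc using fun (R : ℕ) (i j : J) => root_exp H.nr halg (hlead i j) (hdeg i j) (hsep i j)
    (ρ i j) (Eventually.of_forall fun n => hρ i j n) R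
  set Λ : Matrix J J ℂ := Matrix.of fun i j => phi (c 0 i j ⟨tp σ (0 + D j), tp_mem (0 + D j)⟩) with hΛ
  have hsm : ∀ i j, Sm q (-1) (fun n => ρ i j n / (q n : ℂ) ^ D j - Λ i j) := by
    intro i j
    have h1 := lead_sm H (0 + D j) (ρ i j) (fun a => phi (c 0 i j a)) (by
      refine (hc 0 i j).congr (Eventually.of_forall fun n => ?_)
      rw [pow_zero, one_mul])
    refine h1.congr (Eventually.of_forall fun n => ?_)
    rw [hΛ]
    simp only [Matrix.of_apply, zero_add]
  have hdetΛ : Λ.det ≠ 0 := by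
    intro h0
    have h1 := Sm.det_sub H.big Λ (fun i j n => ρ i j n / (q n : ℂ) ^ D j) hsm
    rw [h0] at h1
    simp only [sub_zero] at h1
    have h2 : ∀ n, (Matrix.of fun i j => ρ i j n / (q n : ℂ) ^ D j).det
        = (∏ j, ((q n : ℂ) ^ D j)⁻¹) * (Matrix.of fun i j => ρ i j n).det := by
      intro n
      rw [← Matrix.det_mul_row]
      congr 1
      funext i j
      simp only [Matrix.of_apply]
      rw [div_eq_mul_inv, mul_comm]
    have h3 := ev_of_atTop (Filter.eventually_ge_atTop 3)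
    obtain ⟨n, hn1, hn2⟩ := ((h1 (1 / 2) (by norm_num)).and h3).exists
    simp only [h2] at hn1
    rw [norm_mul, norm_prod] at hn1
    have h4 : ∏ j, ‖((q n : ℂ) ^ D j)⁻¹‖ = (q n : ℝ) ^ (-∑ j, (D j : ℝ)) := by
      have h5 : ∀ j, ‖((q n : ℂ) ^ D j)⁻¹‖ = (q n : ℝ) ^ (-(D j : ℝ)) := by
        intro j
        rw [norm_inv, norm_pow, Complex.norm_natCast, Real.rpow_neg (qpos H.big n).le,
          Real.rpow_natCast]
      simp only [h5]
      rw [← Finset.sum_neg_distrib, Real.rpow_sum_of_pos (qpos H.big n)]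
    rw [h4] at hn1
    have h5 := hdet n
    have h6 : (q n : ℝ) ^ (-∑ j, (D j : ℝ)) * (q n : ℝ) ^ (∑ j, (D j : ℝ) - 1 / ((n : ℝ) + 1))
        ≤ (q n : ℝ) ^ ((-1 : ℝ) + 1 / 2) :=
      le_trans (mul_le_mul_of_nonneg_left h5 (Real.rpow_nonneg (qpos H.big n).le _)) hn1
    rw [← Real.rpow_add (qpos H.big n)] at h6
    have hq1 : (1 : ℝ) < q n := by
      have := H.big n
      have h2 : 2 ≤ q n := by omega
      have : (2 : ℝ) ≤ q n := by exact_mod_cast h2
      linarith
    rw [Real.rpow_le_rpow_left_iff hq1] at h6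
    have h7 : 1 / ((n : ℝ) + 1) ≤ 1 / 4 := by
      apply one_div_le_one_div_of_le (by norm_num)
      have : (3 : ℝ) ≤ n := by exact_mod_cast hn2
      linarith
    linarith
  have hlim : ∀ i j, Tendsto (fun n => ρ i j n / (q n : ℂ) ^ D j) (UU : Filter ℕ) (𝓝 (Λ i j)) := by
    intro i j
    have h1 := (Sm.tendsto H.big (by norm_num) (hsm i j)).add (tendsto_const_nhds (x := Λ i j))
    rw [zero_add] at h1
    refine h1.congr fun n => ?_
    ring
  -- the sizes
  have hVK : ∀ j, Sm q K (fun n => (V j n : ℂ)) := by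
    intro j
    refine (Sm.qpow H.big K).le (Eventually.of_forall fun n => ?_)
    rw [Complex.norm_intCast, norm_pow, Complex.norm_natCast]
    exact_mod_cast hV j n
  set DD : ℕ := ∑ j, D j with hDD
  have hρsm : ∀ i j, Sm q DD (ρ i j) := by
    intro i j
    have h1 := Sm.add H.big (Sm.mono H.big (hsm i j) (show (-1 : ℝ) ≤ 0 by norm_num))
      (Sm.const H.big (Λ i j))
    have h2 := Sm.mul H.big (Sm.qpow H.big (D j)) h1
    rw [add_zero] at h2
    refine (Sm.mono H.big h2 ?_).congr (Eventually.of_forall fun n => ?_)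
    · exact_mod_cast Finset.single_le_sum (f := D) (fun _ _ => Nat.zero_le _) (Finset.mem_univ j)
    · have h3 : (q n : ℂ) ^ D j ≠ 0 := pow_ne_zero _ (hq0 n)
      field_simp
      ring
  set A : ℝ := DD + K with hA
  have hA0 : 0 ≤ A := by positivity
  have hL : ∀ i, Sm q A (fun n => ∑ j, ρ i j n * V j n) := fun i =>
    Sm.sum H.big Finset.univ _ fun j _ => Sm.mul H.big (hρsm i j) (hVK j)
  set C : ℝ := Fintype.card J * (A + 1) + ε with hC
  have hC0 : 0 ≤ C := by positivity
  choose ν hν hνlim using fun i => exists_nu H.big (fun n => ∑ j, ρ i j n * V j n) A C hA0 hC0 (hL i)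
  -- the subspace theorem
  have key := subC H halg D K V hVK ?_ (fun v j => μ j v) (fun v j => hμ0 j v) (fun v j => hμ j v)
    ρ Λ hdetΛ hlim c hc ν hν
  · -- the contradiction
    rw [Finset.sum_add_distrib] at key
    set M : ℝ := ∑ j, ∑ v, μ j v with hM
    have hM0 : 0 ≤ M := Finset.sum_nonneg fun j _ => Finset.sum_nonneg fun v _ => hμ0 j v
    have h1 : Tendsto (fun n => ∑ i, (if ∑ j, ρ i j n * V j n = 0 then -C else
        max (-C) (Real.log ‖∑ j, ρ i j n * V j n‖ / Real.log (q n)))) (UU : Filter ℕ)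
        (𝓝 (∑ i, ν i)) := tendsto_finsetSum Finset.univ (fun i _ => hνlim i)
    have h2 : Tendsto (fun n => ∑ j, Real.log (spart S (V j n)) / Real.log (q n)) (UU : Filter ℕ)
        (𝓝 M) := tendsto_finsetSum Finset.univ (fun j _ => hμlim j)
    have h3 : Tendsto (fun n => max (∑ j, (D j : ℝ) - ε + ∑ j, Real.log (spart S (V j n)) / Real.log (q n))
        (-ε)) (UU : Filter ℕ) (𝓝 (max (∑ j, (D j : ℝ) - ε + M) (-ε))) :=
      (tendsto_const_nhds.add h2).max tendsto_const_nhds
    have hbnd : ∀ᶠ n in (UU : Filter ℕ), ∀ i, ‖∑ j, ρ i j n * V j n‖ ≤ (q n : ℝ) ^ (A + 1) := by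
      rw [Filter.eventually_all]
      intro i
      exact hL i 1 one_pos
    have h4 : ∑ i, ν i ≤ max (∑ j, (D j : ℝ) - ε + M) (-ε) := by
      refine le_of_tendsto_of_tendsto h1 h3 ?_
      filter_upwards [hbnd] with n hn
      have hg : ∀ i, (if ∑ j, ρ i j n * V j n = 0 then -C else
          max (-C) (Real.log ‖∑ j, ρ i j n * V j n‖ / Real.log (q n))) ≤ A + 1 := by
        intro i
        split_ifs with h
        · linarith
        · refine max_le (by linarith) ?_
          rw [div_le_iff₀ (hLpos n), ← Real.log_rpow (qpos H.big n)]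
          exact Real.log_le_log (norm_pos_iff.2 h) (hn i)
      by_cases hex : ∃ i, (if ∑ j, ρ i j n * V j n = 0 then -C else
          max (-C) (Real.log ‖∑ j, ρ i j n * V j n‖ / Real.log (q n))) = -C
      · obtain ⟨i, hi⟩ := hex
        refine le_trans ?_ (le_max_right _ _)
        rw [← Finset.add_sum_erase Finset.univ _ (Finset.mem_univ i), hi]
        have h5 := Finset.sum_le_card_nsmul (Finset.univ.erase i) (fun i =>
          (if ∑ j, ρ i j n * V j n = 0 then -C else
          max (-C) (Real.log ‖∑ j, ρ i j n * V j n‖ / Real.log (q n)))) (A + 1) (fun i _ => hg i)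
        have h6 : ((Finset.univ.erase i).card : ℝ) ≤ Fintype.card J := by
          exact_mod_cast Finset.card_le_univ _
        rw [nsmul_eq_mul] at h5
        have h7 : ((Finset.univ.erase i).card : ℝ) * (A + 1) ≤ Fintype.card J * (A + 1) :=
          mul_le_mul_of_nonneg_right h6 (by linarith)
        linarith
      · push Not at hex
        refine le_trans ?_ (le_max_left _ _)
        have h5 : ∀ i, ∑ j, ρ i j n * V j n ≠ 0 := by
          intro i h
          apply hex i
          rw [if_pos h]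
        have h6 : ∀ i, (if ∑ j, ρ i j n * V j n = 0 then -C else
          max (-C) (Real.log ‖∑ j, ρ i j n * V j n‖ / Real.log (q n)))
          = Real.log ‖∑ j, ρ i j n * V j n‖ / Real.log (q n) := by
          intro i
          have h7 := hex i
          rw [if_neg (h5 i)] at h7 ⊢
          rcases le_total (-C) (Real.log ‖∑ j, ρ i j n * V j n‖ / Real.log (q n)) with h | h
          · exact max_eq_right h
          · exact absurd (max_eq_left h) h7
        simp only [h6]
        rw [← Finset.sum_div, ← Finset.sum_div, ← Real.log_prod (fun i _ => (norm_pos_iff.2 (h5 i)).ne'),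
          ← Real.log_prod (fun j _ => by
            have := spart_pos hS (V j n)
            positivity)]
        rw [div_le_iff₀ (hLpos n), add_mul, div_mul_cancel₀ _ (hLpos n).ne',
          ← Real.log_rpow (qpos H.big n), ← Real.log_mul]
        · exact Real.log_le_log (Finset.prod_pos fun i _ => norm_pos_iff.2 (h5 i)) (hineq n)
        · exact (Real.rpow_pos_of_pos (qpos H.big n) _).ne'
        · apply (Finset.prod_pos fun j _ => _).ne'
          intro j _
          have := spart_pos hS (V j n)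
          positivity
    have h5 : max (∑ j, (D j : ℝ) - ε + M) (-ε) = ∑ j, (D j : ℝ) - ε + M := by
      apply max_eq_left
      have : 0 ≤ ∑ j, (D j : ℝ) := Finset.sum_nonneg fun j _ => Nat.cast_nonneg _
      linarith
    rw [h5] at h4
    have h6 : ∑ j, ∑ v, μ j v = M := rfl
    linarith
  · intro B hB j
    by_contra hne
    apply hcon B
    · intro h
      exact hne (congrFun h j)
    · filter_upwards [hB] with n hn
      rw [← hn]
      exact Finset.sum_congr rfl fun j _ => mul_comm _ _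

end

/-- **Schmidt's theorem** with algebraic functions as coefficients over nearly optimal
approximations. -/
theorem schO (S : Finset ℕ) (hS : ∀ p ∈ S, p.Prime) (θ : Unit → ℝ) (halg : IsAlgebraic ℚ (θ ()))
    (h3 : 3 ≤ (minpoly ℚ (θ ())).natDegree) {J : Type} [Fintype J] [DecidableEq J]
    (P : J → J → Polynomial (MvPolynomial (Option Unit) ℤ)) (D : J → ℕ) (d : J → J → ℕ)
    (hlead : ∀ i j, topv (d i j) (P i j).leadingCoeff θ ≠ 0)
    (hdeg : ∀ i j k, ((P i j).coeff k).totalDegree ≤ ((P i j).natDegree - k) * D j + d i j)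
    (hsep : ∀ i j, (pnf (P i j) (D j) (d i j) θ).Separable) (K : ℕ) (ε : ℝ) (hε : 0 < ε) :
    ∃ (η : ℝ) (N : ℕ) (A : Finset (J → MvPolynomial (Option Unit) ℚ)), 0 < η ∧
      (∀ B ∈ A, B ≠ 0) ∧
      ∀ q ≥ N, ∀ x, NearOpt S θ η q x → ∀ ρ : J → J → ℂ,
        (∀ i j, ((P i j).map (evx q x ℂ)).eval (ρ i j) = 0) →
        (q : ℝ) ^ (∑ j, (D j : ℝ) - η) ≤ ‖(Matrix.of ρ).det‖ →
        ∀ V : J → ℤ, (∀ j, |V j| ≤ (q : ℤ) ^ K) →
        ∏ i, ‖∑ j, ρ i j * V j‖ ≤ (q : ℝ) ^ (∑ j, (D j : ℝ) - ε) * ∏ j, (spart S (V j) : ℝ) →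
        ∃ B ∈ A, ∑ j, (V j : ℚ) * va q x (B j) = 0 := by
  classical
  obtain ⟨η, N, A, hη, hA⟩ := finite_repO S hS θ (β := J → MvPolynomial (Option Unit) ℚ)
    (Δ := (J → J → ℂ) × (J → ℤ))
    (fun η q x d => (∀ i j, ((P i j).map (evx q x ℂ)).eval (d.1 i j) = 0) ∧
      (q : ℝ) ^ (∑ j, (D j : ℝ) - η) ≤ ‖(Matrix.of d.1).det‖ ∧
      (∀ j, |d.2 j| ≤ (q : ℤ) ^ K) ∧
      ∏ i, ‖∑ j, d.1 i j * d.2 j‖ ≤ (q : ℝ) ^ (∑ j, (D j : ℝ) - ε) * ∏ j, (spart S (d.2 j) : ℝ))
    (fun B q x d => B ≠ 0 ∧ ∑ j, (d.2 j : ℚ) * va q x (B j) = 0)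
    (by
      intro q x dd β w H heq hd
      have halg' : ∀ s, IsAlgebraic ℚ (θ s) := fun s => halg
      obtain ⟨B, hB0, hB⟩ := schS H halg' (fun R hR => indep H halg h3 heq R hR) P D d hlead hdeg
        hsep K ε hε (fun i j n => (dd n).1 i j) (fun i j n => (hd n).1 i j) (fun n => (hd n).2.1)
        (fun j n => (dd n).2 j) (fun j n => (hd n).2.2.1 j) (fun n => (hd n).2.2.2)
      refine ⟨B, ?_⟩
      filter_upwards [hB] with n hn
      exact ⟨hB0, hn⟩)
  refine ⟨η, N, A.filter (fun B => B ≠ 0), hη, fun B hB => (Finset.mem_filter.1 hB).2,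
    fun q hq x hx ρ hρ hdet V hV hi => ?_⟩
  obtain ⟨B, hB, h1, h2⟩ := hA q hq x hx (ρ, V) ⟨hρ, hdet, hV, hi⟩
  exact ⟨B, Finset.mem_filter.2 ⟨hB, h1⟩, h2⟩

end Pool.Agent.Q4.Opt
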