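import Mathlib
import Pool.Agent.Q4.Opt.SchO

set_option autoImplicit false
set_option linter.unusedSectionVars false

/-!
# The subspace theorem for a subspace of combinations with a common divisor
-/

namespace Pool.Agent.Q4.Opt

open Filter Topology Pool.Agent.TH932.Abs Pool.Agent.TH932.Germs Pool.Agent.TH932.Chi
open Pool.Agent.TH796.AL Pool.Agent.Q4.Blk Pool.Agent.Q4.Gcd Pool.Agent.Q4.Cov Module
open Pool.Agent.Q4.Tube hiding Near sm_fr sm_vs sm_dl dl_tendsto dl_le_one sm_ord sm_any lim_evr branch' expand' px_ne root_bnd approxS root_exp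
open MvPolynomial

section
variable {S : Finset ℕ} {hS : ∀ p ∈ S, p.Prime} {q : ℕ → ℕ}

lemma Dv.congr {v : Fin S.card} {w : ℝ} {Z Z' : ℕ → ℤ} (h : Dv S hS q v w Z)
    (he : ∀ᶠ n in (UU : Filter ℕ), Z' n = Z n) : Dv S hS q v w Z' := by
  intro ε hε
  filter_upwards [h ε hε, he] with n h1 h2
  rw [h2]
  exact h1

lemma Dv.add {v : Fin S.card} {w : ℝ} {Z Z' : ℕ → ℤ} (h : Dv S hS q v w Z)
    (h' : Dv S hS q v w Z') : Dv S hS q v w (fun n => Z n + Z' n) := by
  intro ε hε
  filter_upwards [h ε hε, h' ε hε] with n h1 h2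
  obtain ⟨k, hk, hk'⟩ := h1
  obtain ⟨l, hl, hl'⟩ := h2
  refine ⟨min k l, dvd_add ((pow_dvd_pow _ (min_le_left _ _)).trans hk)
    ((pow_dvd_pow _ (min_le_right _ _)).trans hl), ?_⟩
  rcases min_choice k l with h | h <;> rw [h] <;> assumption

lemma Dv.none {v : Fin S.card} {w : ℝ} : Dv S hS q v w (fun _ => 0) := by
  intro ε hε
  refine Eventually.of_forall fun n => ?_
  have hP := (bas S hS).log_pos v
  obtain ⟨k, hk⟩ := exists_nat_gt ((w - ε) * Real.log (q n) / Real.log ((bas S hS).P v))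
  refine ⟨k, dvd_zero _, ?_⟩
  rw [div_lt_iff₀ hP] at hk
  exact hk.le

lemma Dv.sum {v : Fin S.card} {w : ℝ} {ι : Type*} (s : Finset ι) (f : ι → ℕ → ℤ)
    (h : ∀ i ∈ s, Dv S hS q v w (f i)) : Dv S hS q v w (fun n => ∑ i ∈ s, f i n) := by
  classical
  induction s using Finset.induction_on with
  | empty =>
    simp only [Finset.sum_empty]
    exact Dv.none
  | insert i s hi ih =>
    simp only [Finset.sum_insert hi]
    exact Dv.add (h i (Finset.mem_insert_self _ _)) (ih fun j hj => h j (Finset.mem_insert_of_mem hj))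

lemma Dv.cmul (hq : ∀ n, n + 2 ≤ q n) {v : Fin S.card} {w : ℝ} {Z : ℕ → ℤ}
    (h : Dv S hS q v w Z) (c : ℕ → ℤ) : Dv S hS q v w (fun n => c n * Z n) := by
  have h1 := (Dv.zero hq v c).mul h
  rwa [zero_add] at h1

/-- cancellation of a constant and of numbers prime to `S` -/
lemma Dv.of_mul (hq : ∀ n, n + 2 ≤ q n) {v : Fin S.card} {w : ℝ} (m : ℤ) (hm : m ≠ 0)
    (t Z : ℕ → ℤ) (ht : ∀ n, IsCoprime (t n) ((bas S hS).P v : ℤ))
    (h : Dv S hS q v w (fun n => m * (Z n * t n))) : Dv S hS q v w Z := by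
  intro ε hε
  have hp : ((bas S hS).P v).Prime := bas_prime hS v
  have hP := (bas S hS).log_pos v
  set g := m.natAbs.factorization ((bas S hS).P v) with hg
  have hbig : ∀ᶠ n in (UU : Filter ℕ), (g : ℝ) * Real.log ((bas S hS).P v) / (ε / 2) < Real.log (q n) :=
    ev_of_atTop ((tendsto_logq hq).eventually_gt_atTop _)
  filter_upwards [h (ε / 2) (by positivity), hbig] with n h1 h2
  obtain ⟨k, hk, hk'⟩ := h1
  rw [div_lt_iff₀ (by positivity)] at h2
  refine ⟨k - g, ?_, ?_⟩
  · have h3 : ((bas S hS).P v : ℤ) ^ k ∣ m * Z n := by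
      rw [← mul_assoc] at hk
      exact (IsCoprime.pow_left (ht n).symm).dvd_of_dvd_mul_right hk
    by_cases hZ : Z n = 0
    · rw [hZ]; exact dvd_zero _
    have h4 : ((bas S hS).P v) ^ k ∣ m.natAbs * (Z n).natAbs := by
      rw [← Int.natAbs_mul]
      exact Int.natCast_dvd.1 (by exact_mod_cast h3)
    have h5 : m.natAbs ≠ 0 := Int.natAbs_ne_zero.2 hm
    have h6 : (Z n).natAbs ≠ 0 := Int.natAbs_ne_zero.2 hZ
    rw [hp.pow_dvd_iff_le_factorization (mul_ne_zero h5 h6), Nat.factorization_mul h5 h6] at h4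
    have h7 : k - g ≤ (Z n).natAbs.factorization ((bas S hS).P v) := by
      have h8 : (m.natAbs.factorization + (Z n).natAbs.factorization) ((bas S hS).P v)
        = g + (Z n).natAbs.factorization ((bas S hS).P v) := rfl
      rw [h8] at h4
      omega
    have h8 := (hp.pow_dvd_iff_le_factorization h6).2 h7
    have h9 := Int.natCast_dvd.2 h8
    exact_mod_cast h9
  · have h3 : (k : ℝ) - g ≤ ((k - g : ℕ) : ℝ) := by
      rcases le_total g k with h | h
      · rw [Nat.cast_sub h]
      · have h4 : (k : ℝ) ≤ g := by exact_mod_cast h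
        have h5 : (0 : ℝ) ≤ ((k - g : ℕ) : ℝ) := Nat.cast_nonneg _
        linarith
    have h4 : ((k : ℝ) - g) * Real.log ((bas S hS).P v)
        ≤ ((k - g : ℕ) : ℝ) * Real.log ((bas S hS).P v) := mul_le_mul_of_nonneg_right h3 hP.le
    nlinarith

end

/-- real algebraic numbers -/
abbrev RA : Type := algebraicClosure ℚ ℝ

/-- **The subspace theorem for combinations with a common divisor.** -/
theorem subW {S : Finset ℕ} (hS : ∀ p ∈ S, p.Prime) {q : ℕ → ℕ} (hq : ∀ n, n + 2 ≤ q n)
    {ι : Type} [Fintype ι] [DecidableEq ι] (X : ι → ℕ → ℤ)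
    (hX : ∀ c : ι → ℚ, (∀ᶠ n in (UU : Filter ℕ), ∑ i, c i * X i n = 0) → ∀ i, c i = 0)
    (M : ι → ι → ℝ) (hMa : ∀ i j, IsAlgebraic ℚ (M i j))
    (hM : ∀ i k, ∑ j, M i j * M j k = if i = k then 1 else 0)
    (wt : ι → ℝ) (β : Fin S.card → ℝ) (hβ : ∀ v, 0 ≤ β v)
    (hwt : ∀ v i, Dv S hS q v (β v * wt i) (X i))
    (e : ι → ℝ) (he : ∀ i, Sm q (e i) (fun n => ((∑ j, M i j * X j n : ℝ) : ℂ)))
    (U : Submodule ℚ (ι → ℚ)) (t : ℕ → ℕ) (ht0 : ∀ n, t n ≠ 0)
    (htc : ∀ n v, IsCoprime (t n : ℤ) ((bas S hS).P v : ℤ))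
    (htU : ∀ u ∈ U, ∃ c : ℤ, c ≠ 0 ∧ ∀ n, ∃ z : ℤ, (c : ℚ) * ∑ i, u i * X i n = z * t n)
    (δ : ℝ) (hδ : Sm q (-δ) (fun n => ((t n : ℂ))⁻¹)) :
    ∃ P P' : Finset ι, P.card = finrank ℚ U ∧ P'.card = finrank ℚ U ∧
      ∑ i ∈ P, (∑ v, β v) * wt i + finrank ℚ U * δ ≤ ∑ i ∈ P', e i := by
  classical
  obtain ⟨P, b, hPc, hbU, hbδ, hbw⟩ := adapted U wt
  set MF : ι → ι → RA := fun i j => ⟨M i j, mem_algebraicClosure_iff.2 (hMa i j)⟩ with hMF
  have hMFc : ∀ i j, ((MF i j : RA) : ℝ) = M i j := fun i j => rfl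
  have hMF2 : ∀ i k, ∑ j, MF i j * MF j k = if i = k then 1 else 0 := by
    intro i k
    apply Subtype.ext
    have h1 : ((∑ j, MF i j * MF j k : RA) : ℝ) = ∑ j, M i j * M j k := by
      rw [AddSubmonoidClass.coe_finsetSum]
      rfl
    rw [h1, hM]
    split_ifs <;> rfl
  -- the rows in the coordinates of the forms
  set r : P → ι → RA := fun i k => ∑ j, (b i.1 j : RA) * MF j k with hr
  have hrM : ∀ (i : P) (k : ι), ∑ j, r i j * MF j k = (b i.1 k : RA) := by
    intro i k
    rw [hr]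
    simp only [Finset.sum_mul]
    rw [Finset.sum_comm]
    have h1 : ∀ a, ∑ j, (b i.1 a : RA) * MF a j * MF j k = (b i.1 a : RA) * (if a = k then 1 else 0) := by
      intro a
      rw [← hMF2 a k, Finset.mul_sum]
      exact Finset.sum_congr rfl fun j _ => mul_assoc _ _ _
    simp only [h1]
    simp
  have hrli : LinearIndependent RA r := by
    rw [Fintype.linearIndependent_iff]
    intro c hc i0
    have h1 : ∀ k, ∑ i : P, c i * (b i.1 k : RA) = 0 := by
      intro k
      have h2 : ∑ j, (∑ i : P, c i • r i) j * MF j k = 0 := by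
        rw [hc]; simp
      rw [← h2]
      simp only [Finset.sum_apply, Pi.smul_apply, smul_eq_mul, Finset.sum_mul]
      rw [Finset.sum_comm]
      refine Finset.sum_congr rfl fun i _ => ?_
      rw [← hrM i k, Finset.mul_sum]
      exact Finset.sum_congr rfl fun j _ => (mul_assoc _ _ _).symm
    have h2 := h1 i0.1
    rw [Finset.sum_eq_single i0] at h2
    · rw [hbδ _ i0.2 _ i0.2, if_pos rfl, Rat.cast_one, mul_one] at h2
      exact h2
    · intro i _ hne
      rw [hbδ _ i.2 _ i0.2, if_neg (fun h => hne (Subtype.ext h)), Rat.cast_zero, mul_zero]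
    · intro h
      exact absurd (Finset.mem_univ _) h
  set W' : Submodule RA (ι → RA) := Submodule.span RA (Set.range r) with hW'
  have hW'r : finrank RA W' = P.card := by
    rw [hW', finrank_span_eq_card hrli, Fintype.card_coe]
  obtain ⟨P', b', hPc', hbW', hbδ', hbw'⟩ := adapted W' (fun i => -e i)
  have hcc : P'.card = P.card := by rw [hPc', hW'r]
  refine ⟨P, P', hPc, hcc.trans hPc, ?_⟩
  have hcard : Fintype.card P = Fintype.card P' := by
    rw [Fintype.card_coe, Fintype.card_coe, hcc]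
  set ee : P ≃ P' := Fintype.equivOfCardEq hcard with hee
  have hγ : ∀ i : P, ∃ γ : P → RA, ∑ j, γ j • r j = b' (ee i).1 := by
    intro i
    exact (Submodule.mem_span_range_iff_exists_fun RA).1 (hbW' _ (ee i).2)
  choose γ hγ using hγ
  choose cc hcc0 z hz using fun i : P => htU (b i.1) (hbU i.1 i.2)
  have hcr : ∀ i, (cc i : ℝ) ≠ 0 := fun i => by exact_mod_cast hcc0 i
  have htr : ∀ n, (t n : ℝ) ≠ 0 := fun n => by exact_mod_cast ht0 n
  have hzr : ∀ i n, (cc i : ℝ) * ∑ j, (b i.1 j : ℝ) * X j n = z i n * t n := fun i n => by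
    exact_mod_cast hz i n
  have key := sub0 hS hq (ι := P) z ?_ (fun k i => ((γ k i : RA) : ℝ) / cc i) ?_ ?_
    (fun v i => β v * wt i.1) ?_ (fun k => e (ee k).1 - δ) ?_
  · have h1 : ∑ v, ∑ i : P, β v * wt i.1 = ∑ i ∈ P, (∑ v, β v) * wt i := by
      rw [Finset.sum_comm, ← Finset.sum_coe_sort P]
      refine Finset.sum_congr rfl fun i _ => ?_
      rw [Finset.sum_mul]
    have h2 : ∑ k : P, (e (ee k).1 - δ) = ∑ i ∈ P', e i - finrank ℚ U * δ := by
      rw [Finset.sum_sub_distrib, ← Finset.sum_coe_sort P',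
        Equiv.sum_comp ee (fun i : P' => e i.1), Finset.sum_const, Finset.card_univ,
        Fintype.card_coe, hPc, nsmul_eq_mul]
    rw [h1, h2] at key
    linarith
  · -- independence
    intro a ha i0
    have h1 := hX (fun j => ∑ i : P, (a i : ℚ) * (cc i * b i.1 j)) (by
      filter_upwards [ha] with n hn
      have h2 : ∑ j, (∑ i : P, (a i : ℚ) * (cc i * b i.1 j)) * (X j n : ℚ)
          = ∑ i : P, (a i : ℚ) * ((cc i : ℚ) * ∑ j, b i.1 j * X j n) := by
        simp only [Finset.sum_mul, Finset.mul_sum]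
        rw [Finset.sum_comm]
        refine Finset.sum_congr rfl fun i _ => Finset.sum_congr rfl fun j _ => ?_
        ring
      rw [h2]
      simp only [hz]
      have hn' : ((∑ i : P, a i * z i n : ℤ) : ℚ) = 0 := by rw [hn]; rfl
      push_cast at hn'
      have h3 : ∑ i : P, (a i : ℚ) * ((z i n : ℚ) * (t n : ℚ))
          = (∑ i : P, (a i : ℚ) * (z i n : ℚ)) * (t n : ℚ) := by
        rw [Finset.sum_mul]
        exact Finset.sum_congr rfl fun i _ => (mul_assoc _ _ _).symm
      rw [h3, hn', zero_mul]) i0.1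
    rw [Finset.sum_eq_single i0] at h1
    · rw [hbδ _ i0.2 _ i0.2, if_pos rfl, mul_one] at h1
      have h2 : (cc i0 : ℚ) ≠ 0 := by exact_mod_cast hcc0 i0
      exact_mod_cast (mul_eq_zero.1 h1).resolve_right h2
    · intro i _ hne
      rw [hbδ _ i.2 _ i0.2, if_neg (fun h => hne (Subtype.ext h)), mul_zero, mul_zero]
    · intro h
      exact absurd (Finset.mem_univ _) h
  · intro k i
    rw [div_eq_mul_inv]
    refine (mem_algebraicClosure_iff.1 (γ k i).2).mul ?_
    have h1 := isAlgebraic_algebraMap (R := ℚ) (A := ℝ) ((cc i : ℚ)⁻¹)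
    simpa using h1
  · -- the rank
    intro a ha k0
    have h1 : ∀ i, ∑ k, a k * (γ k i : RA) = 0 := by
      intro i
      have h2 := ha i
      have h3 : ∑ k, a k * (((γ k i : RA) : ℝ) / cc i) = (∑ k, a k * ((γ k i : RA) : ℝ)) / cc i := by
        rw [Finset.sum_div]
        exact Finset.sum_congr rfl fun k _ => by ring
      rw [h3, div_eq_zero_iff] at h2
      exact h2.resolve_right (hcr i)
    have h2 : ∀ l, ∑ k, a k * ((b' (ee k).1 l : RA) : ℝ) = 0 := by
      intro l
      have h3 : ∀ k, ((b' (ee k).1 l : RA) : ℝ) = ∑ i, ((γ k i : RA) : ℝ) * ((r i l : RA) : ℝ) := by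
        intro k
        rw [← hγ k, Finset.sum_apply, AddSubmonoidClass.coe_finsetSum]
        rfl
      simp only [h3, Finset.mul_sum]
      rw [Finset.sum_comm]
      refine Finset.sum_eq_zero fun i _ => ?_
      have h4 : ∑ k, a k * (((γ k i : RA) : ℝ) * ((r i l : RA) : ℝ))
          = (∑ k, a k * ((γ k i : RA) : ℝ)) * ((r i l : RA) : ℝ) := by
        rw [Finset.sum_mul]
        exact Finset.sum_congr rfl fun k _ => (mul_assoc _ _ _).symm
      rw [h4, h1 i, zero_mul]
    have h3 := h2 (ee k0).1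
    rw [Finset.sum_eq_single k0] at h3
    · rw [hbδ' _ (ee k0).2 _ (ee k0).2, if_pos rfl] at h3
      simpa using h3
    · intro k _ hne
      rw [hbδ' _ (ee k).2 _ (ee k0).2, if_neg (fun h => hne (ee.injective (Subtype.ext h)))]
      simp
    · intro h
      exact absurd (Finset.mem_univ _) h
  · -- divisibility
    intro v i
    set d : ℤ := ∏ j, ((b i.1 j).den : ℤ) with hd
    have hd0 : d ≠ 0 := by
      rw [hd]
      exact Finset.prod_ne_zero_iff.2 fun j _ => by exact_mod_cast (b i.1 j).den_nz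
    have hdj : ∀ j, ∃ y : ℤ, (d : ℚ) * b i.1 j = y := by
      intro j
      have h1 : ((b i.1 j).den : ℤ) ∣ d := Finset.dvd_prod_of_mem _ (Finset.mem_univ j)
      obtain ⟨y, hy⟩ := h1
      refine ⟨y * (b i.1 j).num, ?_⟩
      rw [hy]
      push_cast
      have h2 := Rat.den_mul_eq_num (b i.1 j)
      rw [← h2]
      ring
    choose y hy using hdj
    refine Dv.of_mul hq d hd0 (fun n => (t n : ℤ)) (z i) (fun n => htc n v) ?_
    have h1 : Dv S hS q v (β v * wt i.1) (fun n => cc i * ∑ j, y j * X j n) := by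
      refine Dv.cmul hq (Dv.sum _ _ fun j _ => ?_) (fun _ => cc i)
      by_cases hb : b i.1 j = 0
      · have h2 : y j = 0 := by
          have h3 := hy j
          rw [hb, mul_zero] at h3
          exact_mod_cast h3.symm
        rw [h2]
        simp only [zero_mul]
        exact Dv.none
      · exact Dv.cmul hq (Dv.anti hq (mul_le_mul_of_nonneg_left (hbw _ i.2 j hb) (hβ v)) (hwt v j)) _
    refine h1.congr (Eventually.of_forall fun n => ?_)
    have h2 : (((d * (z i n * t n) : ℤ)) : ℚ) = ((cc i * ∑ j, y j * X j n : ℤ) : ℚ) := by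
      push_cast
      rw [← hz i n]
      simp only [← hy]
      rw [Finset.mul_sum, Finset.mul_sum, Finset.mul_sum]
      refine Finset.sum_congr rfl fun j _ => ?_
      ring
    exact_mod_cast h2
  · -- sizes
    intro k
    have h1 : Sm q (e (ee k).1) (fun n => ((∑ l, ((b' (ee k).1 l : RA) : ℝ)
        * ∑ j, M l j * X j n : ℝ) : ℂ)) := by
      have h2 := Sm.sum hq Finset.univ (fun l n => ((((b' (ee k).1 l : RA) : ℝ)
        * ∑ j, M l j * X j n : ℝ) : ℂ)) (e := e (ee k).1) (fun l _ => by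
          by_cases hb : b' (ee k).1 l = 0
          · rw [hb]
            have h3 := Sm.mul hq (Sm.const hq 0) (he (ee k).1)
            rw [zero_add] at h3
            refine h3.congr (Eventually.of_forall fun n => ?_)
            simp
          · have h3 := Sm.mul hq (Sm.const hq (((b' (ee k).1 l : RA) : ℝ) : ℂ)) (he l)
            rw [zero_add] at h3
            refine (Sm.mono hq h3 ?_).congr (Eventually.of_forall fun n => ?_)
            · have h4 := hbw' _ (ee k).2 l hb
              linarith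
            · push_cast
              ring)
      refine h2.congr (Eventually.of_forall fun n => ?_)
      push_cast
      rfl
    have h2 := Sm.mul hq h1 hδ
    refine h2.congr (Eventually.of_forall fun n => ?_)
    have h3 : ∑ i : P, ((γ k i : RA) : ℝ) / cc i * (z i n : ℝ)
        = (∑ l, ((b' (ee k).1 l : RA) : ℝ) * ∑ j, M l j * X j n) * (t n : ℝ)⁻¹ := by
      have h4 : ∀ l, ((b' (ee k).1 l : RA) : ℝ) = ∑ i, ((γ k i : RA) : ℝ) * ((r i l : RA) : ℝ) := by
        intro l
        rw [← hγ k, Finset.sum_apply, AddSubmonoidClass.coe_finsetSum]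
        rfl
      have h5 : ∀ i j, ∑ l, ((r i l : RA) : ℝ) * M l j = (b i.1 j : ℝ) := by
        intro i j
        have h6 := congrArg (fun x : RA => (x : ℝ)) (hrM i j)
        simp only [AddSubmonoidClass.coe_finsetSum] at h6
        simpa using h6
      have h7 : ∑ l, ((b' (ee k).1 l : RA) : ℝ) * ∑ j, M l j * X j n
          = ∑ i : P, ((γ k i : RA) : ℝ) * ∑ j, (b i.1 j : ℝ) * X j n := by
        have h8 : ∀ l, ((b' (ee k).1 l : RA) : ℝ) * ∑ j, M l j * X j n
            = ∑ i : P, ((γ k i : RA) : ℝ) * (((r i l : RA) : ℝ) * ∑ j, M l j * X j n) := by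
          intro l
          rw [h4 l, Finset.sum_mul]
          exact Finset.sum_congr rfl fun i _ => mul_assoc _ _ _
        simp only [h8]
        rw [Finset.sum_comm]
        refine Finset.sum_congr rfl fun i _ => ?_
        rw [← Finset.mul_sum]
        congr 1
        have h9 : ∀ j, (b i.1 j : ℝ) * X j n = ∑ l, ((r i l : RA) : ℝ) * (M l j * X j n) := by
          intro j
          rw [← h5 i j, Finset.sum_mul]
          exact Finset.sum_congr rfl fun l _ => mul_assoc _ _ _
        simp only [h9]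
        rw [Finset.sum_comm]
        exact Finset.sum_congr rfl fun l _ => Finset.mul_sum _ _ _
      rw [h7, Finset.sum_mul]
      refine Finset.sum_congr rfl fun i _ => ?_
      have h8 : ∑ j, (b i.1 j : ℝ) * X j n = z i n * t n / cc i := by
        rw [eq_div_iff (hcr i), ← hzr i n]
        ring
      rw [h8]
      have := htr n
      have := hcr i
      field_simp
    rw [h3]
    push_cast
    rfl

end Pool.Agent.Q4.Opt
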