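import Mathlib
import Pool.Agent.Q4.Opt.SubW

set_option autoImplicit false
set_option linter.unusedSectionVars false

/-!
# The part of a value of a polynomial composed of given primes
-/

namespace Pool.Agent.Q4.Opt

open Filter Topology Pool.Agent.TH932.Abs Pool.Agent.TH932.Germs Pool.Agent.TH932.Chi
open Pool.Agent.TH796.AL Pool.Agent.Q4.Blk Pool.Agent.Q4.Gcd Pool.Agent.Q4.Cov Module
open Pool.Agent.Q4.Tube hiding Near sm_fr sm_vs sm_dl dl_tendsto dl_le_one sm_ord sm_any lim_evr branch' expand' px_ne root_bnd approxS root_exp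
open MvPolynomial

section
variable {σ : Type} [Fintype σ] [DecidableEq σ]
variable {S : Finset ℕ} {hS : ∀ p ∈ S, p.Prime} {θ : σ → ℝ} {q : ℕ → ℕ} {x : ℕ → σ → ℤ}
  {β : Fin S.card → ℝ} {w : σ → ℝ}

lemma Ext.sm_px (H : Ext S hS θ q x β w) (i : Option σ) :
    Sm q 1 (fun n => ((px (q n) (x n) i : ℤ) : ℂ)) := by
  cases i with
  | none =>
    refine (Sm.q1 H.big).congr (Eventually.of_forall fun n => ?_)
    simp [px]
  | some s =>
    have h1 := Sm.mono H.big (H.near s) (show -(w s) ≤ 1 by have := H.w0 s; linarith)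
    have h2 := Sm.mul H.big (Sm.const H.big (θ s : ℂ)) (Sm.q1 H.big)
    rw [zero_add] at h2
    refine (Sm.sub H.big h2 h1).congr (Eventually.of_forall fun n => ?_)
    simp [px, fr]

/-- values of polynomials have polynomial growth -/
lemma Ext.sm_val (H : Ext S hS θ q x β w) (R : MvPolynomial (Option σ) ℤ) :
    Sm q R.totalDegree (fun n => ((eval (px (q n) (x n)) R : ℤ) : ℂ)) := by
  classical
  have h1 := Sm.sum H.big R.support (fun m n => ((coeff m R : ℤ) : ℂ)
    * ∏ i, ((px (q n) (x n) i : ℤ) : ℂ) ^ (m i)) (e := R.totalDegree) (fun m hm => by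
      have h2 := Sm.mul H.big (Sm.const H.big ((coeff m R : ℤ) : ℂ)) (Sm.prod' H.big Finset.univ
        (fun i => (m i : ℝ) * 1) (fun i n => ((px (q n) (x n) i : ℤ) : ℂ) ^ (m i))
        fun i _ => Sm.pow H.big (H.sm_px i) _)
      refine Sm.mono H.big h2 ?_
      rw [zero_add]
      simp only [mul_one]
      have h3 := le_totalDegree hm
      rw [sum_fs] at h3
      exact_mod_cast h3)
  refine h1.congr (Eventually.of_forall fun n => ?_)
  rw [eval_eq']
  push_cast
  rfl

lemma Ext.val_bnd (H : Ext S hS θ q x β w) (R : MvPolynomial (Option σ) ℤ) :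
    ∀ᶠ n in (UU : Filter ℕ), |eval (px (q n) (x n)) R| ≤ (q n : ℤ) ^ (R.totalDegree + 1) := by
  filter_upwards [H.sm_val R 1 one_pos] with n hn
  rw [Complex.norm_intCast] at hn
  have h1 : (q n : ℝ) ^ ((R.totalDegree : ℝ) + 1) = (q n : ℝ) ^ (R.totalDegree + 1) := by
    rw [← Real.rpow_natCast]
    push_cast
    rfl
  rw [h1] at hn
  exact_mod_cast hn

/-- **Values of polynomials which do not vanish identically on `X₀ = 0`** are hardly divisible by
the primes of `S`. -/
theorem valO (H : Ext S hS θ q x β w) (halg : ∀ s, IsAlgebraic ℚ (θ s))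
    (hind : ∀ R : MvPolynomial (Option σ) ℚ, Rel q x R → R = 0)
    (R : MvPolynomial (Option σ) ℤ) (m : Option σ →₀ ℕ) (hm : m ∈ R.support) (hm0 : m none = 0)
    (μ : Fin S.card → ℝ) (hμ : ∀ v, Dv S hS q v (μ v) (fun n => eval (px (q n) (x n)) R)) :
    ∑ v, μ v ≤ 0 := by
  classical
  set D := R.totalDegree with hD
  have hmD : (m : Option σ → ℕ) ∈ Ex (Option σ) D := by
    rw [mem_Ex, ← sum_fs]
    exact le_totalDegree hm
  set a0 : Ex (Option σ) D := ⟨(m : Option σ → ℕ), hmD⟩ with ha0
  set cR : Ex (Option σ) D → ℤ := fun a => coeff (fs a.1) R with hcR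
  have hc0 : cR a0 ≠ 0 := by
    rw [hcR]
    simp only [ha0, fs_coe]
    exact MvPolynomial.mem_support_iff.1 hm
  have hc0r : (cR a0 : ℝ) ≠ 0 := by exact_mod_cast hc0
  set mon : Ex (Option σ) D → ℕ → ℤ := fun a n => ∏ i, (px (q n) (x n) i) ^ (a.1 i) with hmon
  set X' : Ex (Option σ) D → ℕ → ℤ := fun a n => if a = a0 then eval (px (q n) (x n)) R
    else mon a n with hX'
  have hval : ∀ n, eval (px (q n) (x n)) R = ∑ a, cR a * mon a n := by
    intro n
    have h1 := map_px R (q n) (x n)
    have h2 : (map (Int.castRingHom ℚ) R).totalDegree ≤ D := by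
      refine Finset.sup_mono (support_map_subset _ _)
    unfold va at h1
    rw [eval_cf h2] at h1
    have h3 : ((eval (px (q n) (x n)) R : ℤ) : ℚ) = ((∑ a, cR a * mon a n : ℤ) : ℚ) := by
      rw [← h1]
      push_cast
      refine Finset.sum_congr rfl fun a _ => ?_
      rw [cf_apply, coeff_map]
      simp [hcR, hmon]
    exact_mod_cast h3
  have key := sub0 hS H.big X' ?_
    (fun k i => if i = a0 then Mr θ k.1 a0.1 / cR a0
      else Mr θ k.1 i.1 - Mr θ k.1 a0.1 * (cR i / cR a0)) ?_ ?_
    (fun v i => if i = a0 then μ v else β v * i.1 none) ?_ (fun k => ex w k.1) ?_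
  · have h1 : ∑ v, ∑ i : Ex (Option σ) D, (if i = a0 then μ v else β v * i.1 none)
        = ∑ v, μ v + ∑ i : Ex (Option σ) D, (∑ v, β v) * (i.1 none : ℝ) := by
      have h2 : ∀ v, ∑ i : Ex (Option σ) D, (if i = a0 then μ v else β v * i.1 none)
          = μ v + ∑ i : Ex (Option σ) D, β v * (i.1 none : ℝ) := by
        intro v
        rw [← Finset.add_sum_erase Finset.univ _ (Finset.mem_univ a0),
          ← Finset.add_sum_erase Finset.univ (fun i : Ex (Option σ) D => β v * (i.1 none : ℝ))
            (Finset.mem_univ a0), if_pos rfl]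
        have h3 : (a0.1 none : ℝ) = 0 := by
          rw [ha0]
          simp [hm0]
        rw [h3, mul_zero, zero_add]
        congr 1
        refine Finset.sum_congr rfl fun i hi => ?_
        rw [if_neg (Finset.ne_of_mem_erase hi)]
      simp only [h2]
      rw [Finset.sum_add_distrib]
      congr 1
      rw [Finset.sum_comm]
      refine Finset.sum_congr rfl fun i _ => ?_
      rw [Finset.sum_mul]
    rw [h1] at key
    have h4 := H.bal' D
    linarith
  · -- independence
    intro g hg
    have h1 : polyOf (fun a : Ex (Option σ) D => (if a = a0 then (0 : ℚ) else g a)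
        + (g a0 : ℚ) * cR a) = 0 := by
      apply hind
      filter_upwards [hg] with n hn
      rw [va_polyOf]
      have h2 : ((∑ i, g i * X' i n : ℤ) : ℚ) = 0 := by rw [hn]; rfl
      refine Eq.trans ?_ h2
      push_cast
      rw [← Finset.add_sum_erase Finset.univ (fun i => (g i : ℚ) * (X' i n : ℚ))
        (Finset.mem_univ a0)]
      have h3 : (X' a0 n : ℚ) = ∑ a, (cR a : ℚ) * (mon a n : ℚ) := by
        rw [hX']
        simp only [if_true]
        rw [hval n]
        push_cast
        rfl
      rw [h3, Finset.mul_sum]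
      have h4 : ∑ i ∈ Finset.univ.erase a0, (g i : ℚ) * (X' i n : ℚ)
          = ∑ i, (if i = a0 then (0 : ℚ) else g i) * (mon i n : ℚ) := by
        rw [← Finset.add_sum_erase Finset.univ
          (fun i => (if i = a0 then (0 : ℚ) else g i) * (mon i n : ℚ)) (Finset.mem_univ a0),
          if_pos rfl, zero_mul, zero_add]
        refine Finset.sum_congr rfl fun i hi => ?_
        have h5 := Finset.ne_of_mem_erase hi
        rw [if_neg h5, hX']
        simp only [if_neg h5]
      rw [h4, ← Finset.sum_add_distrib]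
      refine Finset.sum_congr rfl fun a _ => ?_
      have h5 : (∏ i, (px (q n) (x n) i : ℚ) ^ (a.1 i)) = (mon a n : ℚ) := by
        rw [hmon]
        push_cast
        rfl
      rw [h5]
      ring
    have h2 : ∀ a : Ex (Option σ) D, (if a = a0 then (0 : ℚ) else g a) + (g a0 : ℚ) * cR a = 0 := by
      intro a
      have h3 := coeff_polyOf (fun a : Ex (Option σ) D => (if a = a0 then (0 : ℚ) else g a)
        + (g a0 : ℚ) * cR a) a
      rw [h1, coeff_zero] at h3
      exact h3.symm
    have h3 : g a0 = 0 := by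
      have h4 := h2 a0
      rw [if_pos rfl, zero_add] at h4
      have h5 : (cR a0 : ℚ) ≠ 0 := by exact_mod_cast hc0
      exact_mod_cast (mul_eq_zero.1 h4).resolve_right h5
    intro i
    by_cases hi : i = a0
    · rw [hi, h3]
    · have h4 := h2 i
      rw [if_neg hi, h3] at h4
      simpa using h4
  · intro k i
    split_ifs
    · rw [div_eq_mul_inv]
      refine (Mr_alg halg _ _).mul ?_
      have h1 := isAlgebraic_algebraMap (R := ℚ) (A := ℝ) ((cR a0 : ℚ)⁻¹)
      simpa using h1
    · refine (Mr_alg halg _ _).sub ((Mr_alg halg _ _).mul ?_)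
      have h1 := isAlgebraic_algebraMap (R := ℚ) (A := ℝ) ((cR i : ℚ) / cR a0)
      simpa using h1
  · -- the rank
    intro b hb
    have h1 : ∑ k, b k * Mr θ k.1 a0.1 = 0 := by
      have h2 := hb a0
      simp only [if_true] at h2
      have h3 : ∑ k, b k * (Mr θ k.1 a0.1 / cR a0) = (∑ k, b k * Mr θ k.1 a0.1) / cR a0 := by
        rw [Finset.sum_div]
        exact Finset.sum_congr rfl fun k _ => by ring
      rw [h3, div_eq_zero_iff] at h2
      exact h2.resolve_right hc0r
    have h2 : ∀ i : Ex (Option σ) D, ∑ k, b k * Mr θ k.1 i.1 = 0 := by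
      intro i
      by_cases hi : i = a0
      · rw [hi]; exact h1
      · have h3 := hb i
        simp only [if_neg hi, mul_sub, Finset.sum_sub_distrib] at h3
        have h4 : ∑ k, b k * (Mr θ k.1 a0.1 * (cR i / cR a0))
            = (∑ k, b k * Mr θ k.1 a0.1) * (cR i / cR a0) := by
          rw [Finset.sum_mul]
          exact Finset.sum_congr rfl fun k _ => by ring
        rw [h4, h1, zero_mul, sub_zero] at h3
        exact h3
    intro k
    have h3 : ∑ i : Ex (Option σ) D, (∑ l, b l * Mr θ l.1 i.1) * Mr θ i.1 k.1 = b k := by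
      simp only [Finset.sum_mul]
      rw [Finset.sum_comm]
      have h4 : ∀ l : Ex (Option σ) D, ∑ i : Ex (Option σ) D, b l * Mr θ l.1 i.1 * Mr θ i.1 k.1
          = b l * (if l = k then 1 else 0) := by
        intro l
        rw [← Mr_sq θ l k, Finset.mul_sum]
        exact Finset.sum_congr rfl fun i _ => mul_assoc _ _ _
      simp only [h4]
      simp
    rw [← h3]
    exact Finset.sum_eq_zero fun i _ => by rw [h2 i, zero_mul]
  · intro v i
    by_cases hi : i = a0
    · rw [if_pos hi]
      refine (hμ v).congr (Eventually.of_forall fun n => ?_)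
      rw [hX']
      simp only [if_pos hi]
    · rw [if_neg hi]
      refine (H.mono v i.1).congr (Eventually.of_forall fun n => ?_)
      rw [hX']
      simp only [if_neg hi]
      rfl
  · intro k
    refine (H.zv k.1).congr (Eventually.of_forall fun n => ?_)
    congr 1
    rw [zv_Mr θ (q n) (x n) k.2, ← Finset.add_sum_erase Finset.univ _ (Finset.mem_univ a0),
      ← Finset.add_sum_erase Finset.univ (fun b : Ex (Option σ) D =>
        Mr θ k.1 b.1 * ∏ i, (px (q n) (x n) i : ℝ) ^ (b.1 i)) (Finset.mem_univ a0)]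
    simp only [if_true]
    have h1 : (X' a0 n : ℝ) = ∑ a, (cR a : ℝ) * ∏ i, (px (q n) (x n) i : ℝ) ^ (a.1 i) := by
      rw [hX']
      simp only [if_true]
      rw [hval n]
      simp only [hmon]
      push_cast
      rfl
    rw [h1, ← Finset.add_sum_erase Finset.univ (fun a => (cR a : ℝ)
      * ∏ i, (px (q n) (x n) i : ℝ) ^ (a.1 i)) (Finset.mem_univ a0)]
    have h2 : ∑ i ∈ Finset.univ.erase a0, (if i = a0 then Mr θ k.1 a0.1 / cR a0
        else Mr θ k.1 i.1 - Mr θ k.1 a0.1 * (cR i / cR a0)) * (X' i n : ℝ)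
        = ∑ i ∈ Finset.univ.erase a0, Mr θ k.1 i.1 * ∏ j, (px (q n) (x n) j : ℝ) ^ (i.1 j)
          - Mr θ k.1 a0.1 / cR a0 * ∑ i ∈ Finset.univ.erase a0, (cR i : ℝ)
            * ∏ j, (px (q n) (x n) j : ℝ) ^ (i.1 j) := by
      rw [Finset.mul_sum, ← Finset.sum_sub_distrib]
      refine Finset.sum_congr rfl fun i hi => ?_
      have h3 := Finset.ne_of_mem_erase hi
      have h4 : (X' i n : ℝ) = ∏ j, (px (q n) (x n) j : ℝ) ^ (i.1 j) := by
        rw [hX']
        simp only [if_neg h3]
        rw [hmon]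
        push_cast
        rfl
      rw [if_neg h3, h4]
      ring
    rw [h2]
    field_simp
    ring

/-- the part of a value composed of the primes of `S` is small -/
theorem spartO (H : Ext S hS θ q x β w) (halg : ∀ s, IsAlgebraic ℚ (θ s))
    (hind : ∀ R : MvPolynomial (Option σ) ℚ, Rel q x R → R = 0)
    (R : MvPolynomial (Option σ) ℤ) (m : Option σ →₀ ℕ) (hm : m ∈ R.support) (hm0 : m none = 0)
    (ε : ℝ) (hε : 0 < ε) :
    ∀ᶠ n in (UU : Filter ℕ), eval (px (q n) (x n)) R ≠ 0 ∧
      (spart S (eval (px (q n) (x n)) R) : ℝ) ≤ (q n : ℝ) ^ ε := by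
  classical
  have hne : ∀ᶠ n in (UU : Filter ℕ), eval (px (q n) (x n)) R ≠ 0 := by
    by_contra hcon
    have hcon' : ∀ᶠ n in (UU : Filter ℕ), eval (px (q n) (x n)) R = 0 := by
      have := Ultrafilter.eventually_not.2 hcon
      filter_upwards [this] with n hn
      exact not_not.1 hn
    have h1 := hind (map (Int.castRingHom ℚ) R) (by
      filter_upwards [hcon'] with n hn
      rw [map_px, hn]
      rfl)
    have h2 := congrArg (coeff m) h1
    rw [coeff_map, coeff_zero] at h2
    have h3 : coeff m R = 0 := by simpa using h2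
    exact MvPolynomial.mem_support_iff.1 hm h3
  obtain ⟨μ, hμ0, hμ, hlim⟩ := exists_ord hS H.big (fun n => eval (px (q n) (x n)) R)
    (R.totalDegree + 1) (by
      filter_upwards [hne, H.val_bnd R] with n h1 h2
      exact ⟨h1, h2⟩)
  have h1 := valO H halg hind R m hm hm0 μ hμ
  filter_upwards [hne, hlim.eventually (gt_mem_nhds (show ∑ v, μ v < ε by linarith))] with n h2 h3
  refine ⟨h2, ?_⟩
  rw [div_lt_iff₀ (logq_pos H.big n), ← Real.log_rpow (qpos H.big n)] at h3
  have h4 : (0 : ℝ) < spart S (eval (px (q n) (x n)) R) := by exact_mod_cast spart_pos hS _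
  have h5 : (0 : ℝ) < (q n : ℝ) ^ ε := Real.rpow_pos_of_pos (qpos H.big n) _
  exact ((Real.log_lt_log_iff h4 h5).1 h3).le

end

end Pool.Agent.Q4.Opt
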