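import Mathlib
import Pool.Agent.Q4.Opt.Val

set_option autoImplicit false
set_option linter.unusedSectionVars false

/-!
# Sums of few numbers composed of given primes at nearly optimal approximations
-/

namespace Pool.Agent.Q4.Opt

open Filter Topology Pool.Agent.TH932.Abs Pool.Agent.TH932.Germs Pool.Agent.TH932.Chi
open Pool.Agent.TH796.AL Pool.Agent.Q4.Blk Pool.Agent.Q4.Gcd Pool.Agent.Q4.Cov Module
open Pool.Agent.Q4.Tube hiding Near sm_fr sm_vs sm_dl dl_tendsto dl_le_one sm_ord sm_any lim_evr branch' expand' px_ne root_bnd approxS root_exp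
open MvPolynomial

section
variable {σ : Type} [Fintype σ] [DecidableEq σ]
variable {S : Finset ℕ} {hS : ∀ p ∈ S, p.Prime} {θ : σ → ℝ} {q : ℕ → ℕ} {x : ℕ → σ → ℤ}
  {β : Fin S.card → ℝ} {w : σ → ℝ}

/-- **Lower bounds for forms in the monomials.** -/
theorem lowO (H : Ext S hS θ q x β w) (halg : ∀ s, IsAlgebraic ℚ (θ s))
    (hind : ∀ R : MvPolynomial (Option σ) ℚ, Rel q x R → R = 0) {d : ℕ}
    (T : Ex (Option σ) d → ℝ) (hT : ∀ a, IsAlgebraic ℚ (T a)) (e : ℝ)
    (he : Sm q e (fun n => ((∑ a, T a * zv θ (q n) (x n) a.1 : ℝ) : ℂ)))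
    (m : Ex (Option σ) d) (hm : T m ≠ 0) : ex w m.1 ≤ e := by
  classical
  have key := sub1 H halg (J := Unit) (fun _ => d) (fun _ _ => 1) (by
    intro B _ hB j
    apply hind
    filter_upwards [hB] with n hn
    simpa using hn) (fun _ _ => 0) (fun v j => Dv.zero H.big v _)
    (fun k i => if k.2 = m then T i.2 else if k.2 = i.2 then 1 else 0) ?_ ?_
    (fun k => if k.2 = m then e else ex w k.2.1) ?_
  · simp only [Finset.sum_const_zero, add_zero] at key
    rw [Fintype.sum_sigma, Fintype.sum_sigma] at key
    simp only [Finset.univ_unique, Finset.sum_singleton] at key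
    rw [← Finset.add_sum_erase Finset.univ _ (Finset.mem_univ m),
      ← Finset.add_sum_erase Finset.univ (fun a : Ex (Option σ) d =>
        if a = m then e else ex w a.1) (Finset.mem_univ m), if_pos rfl] at key
    have h1 : ∑ a ∈ Finset.univ.erase m, (if a = m then e else ex w a.1)
        = ∑ a ∈ Finset.univ.erase m, ex w a.1 :=
      Finset.sum_congr rfl fun a ha => if_neg (Finset.ne_of_mem_erase ha)
    rw [h1] at key
    linarith
  · intro k i
    split_ifs
    · exact hT _
    · exact isAlgebraic_one
    · exact isAlgebraic_zero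
  · intro b hb
    have h0 : ∀ i : Ex (Option σ) d, b ⟨(), m⟩ * T i + (if i = m then 0 else b ⟨(), i⟩) = 0 := by
      intro i
      have h1 := hb ⟨(), i⟩
      rw [Fintype.sum_sigma] at h1
      simp only [Finset.univ_unique, Finset.sum_singleton] at h1
      rw [← Finset.add_sum_erase Finset.univ _ (Finset.mem_univ m), if_pos rfl] at h1
      refine Eq.trans ?_ h1
      congr 1
      by_cases hi : i = m
      · rw [if_pos hi]
        symm
        refine Finset.sum_eq_zero fun a ha => ?_
        rw [if_neg (Finset.ne_of_mem_erase ha), if_neg (by rw [hi]; exact Finset.ne_of_mem_erase ha),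
          mul_zero]
      · rw [if_neg hi, Finset.sum_eq_single i]
        · rw [if_neg hi, if_pos rfl, mul_one]
        · intro a ha hai
          rw [if_neg (Finset.ne_of_mem_erase ha), if_neg hai, mul_zero]
        · intro h
          exact absurd (Finset.mem_erase.2 ⟨hi, Finset.mem_univ i⟩) h
    have h1 : b ⟨(), m⟩ = 0 := by
      have h2 := h0 m
      rw [if_pos rfl, add_zero] at h2
      exact (mul_eq_zero.1 h2).resolve_right hm
    rintro ⟨⟨⟩, i⟩
    by_cases hi : i = m
    · rw [hi]; exact h1
    · have h2 := h0 i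
      rw [h1, zero_mul, zero_add, if_neg hi] at h2
      exact h2
  · rintro ⟨⟨⟩, k⟩
    by_cases hk : k = m
    · simp only [if_pos hk]
      refine he.congr (Eventually.of_forall fun n => ?_)
      congr 1
      rw [Fintype.sum_sigma]
      simp only [Finset.univ_unique, Finset.sum_singleton]
      refine Finset.sum_congr rfl fun i _ => ?_
      push_cast
      ring
    · simp only [if_neg hk]
      refine (H.zv k.1).congr (Eventually.of_forall fun n => ?_)
      congr 1
      rw [Fintype.sum_sigma]
      simp only [Finset.univ_unique, Finset.sum_singleton]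
      rw [Finset.sum_eq_single k]
      · rw [if_pos rfl]
        push_cast
        ring
      · intro i _ hi
        rw [if_neg (Ne.symm hi), zero_mul]
      · intro h
        exact absurd (Finset.mem_univ _) h

end

/-- rational polynomials in terms of the small coordinates -/
lemma va_tw {σ : Type} [Fintype σ] [DecidableEq σ] (θ : σ → ℝ) (G : MvPolynomial (Option σ) ℚ)
    {d : ℕ} (hG : G.totalDegree ≤ d) (q : ℕ) (x : σ → ℤ) :
    ((va q x G : ℚ) : ℝ) = ∑ a : Ex (Option σ) d,
      coeff (fs a.1) (tw θ (map (algebraMap ℚ ℝ) G)) * zv θ q x a.1 := by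
  have h1 : (tw θ (map (algebraMap ℚ ℝ) G)).totalDegree ≤ d :=
    ((tw_deg θ _).trans (Finset.sup_mono (support_map_subset _ _))).trans hG
  have h2 := eval_Ex h1 (fun o : Option σ => (o.elim (q : ℝ) (fun s => fr θ q x s) : ℝ))
  rw [← tw_eval] at h2
  have h3 : ((va q x G : ℚ) : ℝ) = eval (fun o => ((px q x o : ℤ) : ℝ)) (map (algebraMap ℚ ℝ) G) := by
    unfold va
    rw [eval_map, aeval_def, ← Rat.coe_castHom, ← coe_eval₂Hom, ← coe_eval₂Hom]
    change ((Rat.castHom ℝ).comp (eval₂Hom _ _)) G = _
    congr 1
    apply MvPolynomial.ringHom_ext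
    · intro r
      simp
    · intro i
      simp
  rw [h3, h2]
  refine Finset.sum_congr rfl fun a _ => ?_
  congr 1
  rw [Fintype.prod_option]
  rfl

/-- **Nonconstant polynomials are not small** at nearly optimal approximations. -/
theorem notsmO {S : Finset ℕ} {hS : ∀ p ∈ S, p.Prime} {θ : Unit → ℝ} {q : ℕ → ℕ}
    {x : ℕ → Unit → ℤ} (H : Ext S hS θ q x (fun _ => 0) (fun _ => 1))
    (halg : IsAlgebraic ℚ (θ ())) (h3 : 3 ≤ (minpoly ℚ (θ ())).natDegree)
    (G : MvPolynomial (Option Unit) ℚ) (hG : G.totalDegree ≠ 0) (e : ℝ)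
    (he : Sm q e (fun n => ((va (q n) (x n) G : ℚ) : ℂ))) : 1 ≤ e := by
  classical
  have hind : ∀ R : MvPolynomial (Option Unit) ℚ, Rel q x R → R = 0 :=
    fun R hR => indep H halg h3 (by simp) R hR
  set D := G.totalDegree with hD
  have hG0 : G ≠ 0 := by
    rintro rfl
    exact hG totalDegree_zero
  set T := tw θ (map (algebraMap ℚ ℝ) G) with hT
  have hTa : ∀ m, IsAlgebraic ℚ (coeff m T) := by
    intro m
    refine tw_alg (fun _ => halg) (fun k => ?_) m
    rw [coeff_map]
    exact isAlgebraic_algebraMap _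
  -- the top form
  set Gt := homogeneousComponent D G with hGt
  have hGt0 : Gt ≠ 0 := by
    obtain ⟨m, hm, hmd⟩ := Finset.exists_mem_eq_sup G.support (support_nonempty.2 hG0)
      (fun m => m.sum fun _ e => e)
    intro h
    have h1 := congrArg (coeff m) h
    rw [hGt, coeff_homogeneousComponent, if_pos, coeff_zero] at h1
    · exact MvPolynomial.mem_support_iff.1 hm h1
    · rw [hD, totalDegree, hmd]
      rfl
  obtain ⟨m, hm, hlt⟩ : ∃ m ∈ (tw (fun _ : Unit => θ ()) (map (algebraMap ℚ ℝ) Gt)).support,
      m (some ()) < m none := by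
    by_contra hcon
    push Not at hcon
    exact top_form halg h3 (Nat.pos_of_ne_zero hG) (homogeneousComponent_isHomogeneous D G) hGt0 hcon
  have h1 : tw (fun _ : Unit => θ ()) (map (algebraMap ℚ ℝ) Gt) = homogeneousComponent D T := by
    have h2 : map (algebraMap ℚ ℝ) G
        = ∑ i ∈ Finset.range (D + 1), map (algebraMap ℚ ℝ) (homogeneousComponent i G) := by
      conv_lhs => rw [← sum_homogeneousComponent G]
      rw [map_sum]
    have h4 : (fun _ : Unit => θ ()) = θ := rfl
    rw [h4, hT, h2, map_sum, map_sum, Finset.sum_eq_single D]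
    · rw [homogeneousComponent_of_mem (tw_hom θ
        ((homogeneousComponent_isHomogeneous D G).map (algebraMap ℚ ℝ))), if_pos rfl]
    · intro i _ hi
      rw [homogeneousComponent_of_mem (tw_hom θ
        ((homogeneousComponent_isHomogeneous i G).map (algebraMap ℚ ℝ))), if_neg (Ne.symm hi)]
    · intro h5
      exact absurd (Finset.mem_range.2 (Nat.lt_succ_self D)) h5
  rw [h1] at hm
  have h2 : coeff m T ≠ 0 := by
    rw [MvPolynomial.mem_support_iff] at hm
    rw [coeff_homogeneousComponent] at hm
    split_ifs at hm with h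
    · exact hm
    · exact absurd rfl hm
  have hTd : T.totalDegree ≤ D := by
    refine (tw_deg θ _).trans ?_
    refine Finset.sup_mono (support_map_subset _ _)
  have hmD : (m : Option Unit → ℕ) ∈ Ex (Option Unit) D := by
    rw [mem_Ex, ← sum_fs]
    exact (le_totalDegree (MvPolynomial.mem_support_iff.2 h2)).trans hTd
  have h4 := lowO H (fun _ => halg) hind (d := D) (fun a => coeff (fs a.1) T) (fun a => hTa _) e (by
    refine he.congr (Eventually.of_forall fun n => ?_)
    have h5 := va_tw θ G (le_refl D) (q n) (x n)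
    rw [← h5]
    push_cast
    rfl) ⟨(m : Option Unit → ℕ), hmD⟩ (by
    simp only [fs_coe]
    exact h2)
  unfold ex at h4
  simp only [Finset.univ_unique, Finset.sum_singleton, one_mul] at h4
  have h5 : (m (some ()) : ℝ) + 1 ≤ m none := by exact_mod_cast hlt
  have h6 : (m (some default) : ℝ) = m (some ()) := rfl
  rw [h6] at h4
  linarith

/-- **Sums of near units.** -/
theorem fewS {S : Finset ℕ} {hS : ∀ p ∈ S, p.Prime} {θ : Unit → ℝ} {q : ℕ → ℕ}
    {x : ℕ → Unit → ℤ} (H : Ext S hS θ q x (fun _ => 0) (fun _ => 1))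
    (halg : IsAlgebraic ℚ (θ ())) (h3 : 3 ≤ (minpoly ℚ (θ ())).natDegree)
    {J : Type} [Fintype J] [DecidableEq J] (V : J → ℕ → ℤ) (μ : Fin S.card → J → ℝ)
    (hμ : ∀ v j, Dv S hS q v (μ v j) (V j))
    (hV : ∀ j, Sm q (∑ v, μ v j) (fun n => ((V j n : ℤ) : ℂ)))
    (c : J → ℚ) (G : MvPolynomial (Option Unit) ℚ)
    (hrel : ∀ᶠ n in (UU : Filter ℕ), ∑ j, c j * V j n = va (q n) (x n) G) :
    G.totalDegree = 0 := by
  classical
  have hind : ∀ R : MvPolynomial (Option Unit) ℚ, Rel q x R → R = 0 :=
    fun R hR => indep H halg h3 (by simp) R hR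
  have hθ : ∀ s : Unit, IsAlgebraic ℚ (θ s) := fun s => halg
  set d := G.totalDegree with hd
  by_contra hGd
  -- a minimal relation
  have hex : ∃ s : ℕ, ∃ (c : J → ℚ) (G : MvPolynomial (Option Unit) ℚ), G.totalDegree ≤ d ∧
      G.totalDegree ≠ 0 ∧ (Finset.univ.filter fun j => c j ≠ 0).card = s ∧
      ∀ᶠ n in (UU : Filter ℕ), ∑ j, c j * V j n = va (q n) (x n) G :=
    ⟨_, c, G, le_rfl, hGd, rfl, hrel⟩
  obtain ⟨c, G, hGle, hG0, hcard, hrel⟩ := Nat.find_spec hex
  have hmin : ∀ (c' : J → ℚ) (G' : MvPolynomial (Option Unit) ℚ), G'.totalDegree ≤ d →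
      G'.totalDegree ≠ 0 → (∀ᶠ n in (UU : Filter ℕ), ∑ j, c' j * V j n = va (q n) (x n) G') →
      (Finset.univ.filter fun j => c j ≠ 0).card ≤ (Finset.univ.filter fun j => c' j ≠ 0).card := by
    intro c' G' h1 h2 h3
    rw [hcard]
    exact Nat.find_min' hex ⟨c', G', h1, h2, rfl, h3⟩
  -- a nonconstant monomial
  obtain ⟨m0, hm0, hm00⟩ : ∃ m ∈ G.support, m ≠ 0 := by
    by_contra hcon
    push Not at hcon
    apply hG0
    rw [totalDegree_eq_zero_iff_eq_C]
    ext m
    rw [coeff_C]
    split_ifs with h
    · rw [h]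
    · by_contra hne
      exact h (hcon m (MvPolynomial.mem_support_iff.2 hne)).symm
  have hm0D : (m0 : Option Unit → ℕ) ∈ Ex (Option Unit) d := by
    rw [mem_Ex, ← sum_fs]
    exact (le_totalDegree hm0).trans hGle
  set a0 : Ex (Option Unit) d := ⟨(m0 : Option Unit → ℕ), hm0D⟩ with ha0
  set g : Ex (Option Unit) d → ℚ := cf d G with hg
  have hg0 : g a0 ≠ 0 := by
    rw [hg, cf_apply, ha0]
    simp only [fs_coe]
    exact MvPolynomial.mem_support_iff.1 hm0
  have hg0r : (g a0 : ℝ) ≠ 0 := by exact_mod_cast hg0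
  -- the relation in coordinates
  set mon : Ex (Option Unit) d → ℕ → ℤ := fun a n => ∏ i, (px (q n) (x n) i) ^ (a.1 i) with hmon
  have hvaG : ∀ n, va (q n) (x n) G = ∑ a, g a * mon a n := by
    intro n
    unfold va
    rw [eval_cf hGle]
    refine Finset.sum_congr rfl fun a _ => ?_
    rw [hmon]
    push_cast
    rfl
  set I := {j : J // c j ≠ 0} with hI
  have hsumI : ∀ (f : J → ℚ), ∑ j, c j * f j = ∑ i : I, c i.1 * f i.1 := by
    intro f
    have h1 : ∑ i : I, c i.1 * f i.1 = ∑ j ∈ Finset.univ.filter (fun j => c j ≠ 0), c j * f j := by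
      symm
      apply Finset.sum_subtype
      intro j
      simp
    rw [h1]
    symm
    apply Finset.sum_subset (Finset.subset_univ _)
    intro j _ hj
    have h2 : c j = 0 := by
      by_contra h
      exact hj (Finset.mem_filter.2 ⟨Finset.mem_univ _, h⟩)
    rw [h2, zero_mul]
  -- extended coordinates
  set K := Ex (Option Unit) d ⊕ I with hK
  set Xx : K → ℕ → ℤ := Sum.elim mon (fun i => V i.1) with hXx
  set ι := {a : Ex (Option Unit) d // a ≠ a0} ⊕ I with hι
  set emb : ι → K := Sum.map (fun a => a.1) id with hemb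
  have hemb0 : ∀ i : ι, emb i ≠ Sum.inl a0 := by
    rintro (a | i)
    · intro h
      exact a.2 (Sum.inl_injective h)
    · intro h
      exact Sum.inr_ne_inl h
  have hsplit : ∀ f : K → ℝ, ∑ k, f k = f (Sum.inl a0) + ∑ i : ι, f (emb i) := by
    intro f
    rw [Fintype.sum_sum_type, Fintype.sum_sum_type,
      ← Finset.add_sum_erase Finset.univ _ (Finset.mem_univ a0), add_assoc]
    congr 2
    symm
    change ∑ a : {a : Ex (Option Unit) d // a ≠ a0}, f (Sum.inl a.1) = _
    symm
    apply Finset.sum_subtype
    intro a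
    simp
  set rr : K → ℝ := Sum.elim (fun a => -(g a : ℝ) / g a0) (fun i => (c i.1 : ℝ) / g a0) with hrr
  have hrr0 : rr (Sum.inl a0) = -1 := by
    rw [hrr]
    simp only [Sum.elim_inl]
    field_simp
  -- the relation
  have hrelr : ∀ᶠ n in (UU : Filter ℕ), ∑ k, rr k * (Xx k n : ℝ) = 0 := by
    filter_upwards [hrel] with n hn
    rw [Fintype.sum_sum_type]
    rw [hsumI (fun j => (V j n : ℚ)), hvaG] at hn
    have h1 : ∑ a, rr (Sum.inl a) * (Xx (Sum.inl a) n : ℝ)
        = -(((∑ a, g a * mon a n : ℚ)) : ℝ) / g a0 := by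
      push_cast
      rw [neg_div, Finset.sum_div, ← Finset.sum_neg_distrib]
      refine Finset.sum_congr rfl fun a _ => ?_
      rw [hrr, hXx]
      simp only [Sum.elim_inl]
      ring
    have h2 : ∑ i, rr (Sum.inr i) * (Xx (Sum.inr i) n : ℝ)
        = (((∑ i : I, c i.1 * V i.1 n : ℚ)) : ℝ) / g a0 := by
      push_cast
      rw [Finset.sum_div]
      refine Finset.sum_congr rfl fun i _ => ?_
      rw [hrr, hXx]
      simp only [Sum.elim_inr]
      ring
    rw [h1, h2, hn]
    ring
  have hX0 : ∀ᶠ n in (UU : Filter ℕ), (Xx (Sum.inl a0) n : ℝ)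
      = ∑ i : ι, rr (emb i) * (Xx (emb i) n : ℝ) := by
    filter_upwards [hrelr] with n hn
    rw [hsplit, hrr0] at hn
    linarith
  -- the exponents of the near units vanish
  have hzero : ∀ i0 : I, ∑ v, μ v i0.1 ≤ 0 := by
    intro i0
    set row : ι → K → ℝ := fun k => match k with
      | Sum.inl a => Sum.elim (fun b => Mr θ a.1.1 b.1) (fun _ => 0)
      | Sum.inr i => if i = i0 then Sum.elim (fun b => Mr θ a0.1 b.1) (fun _ => 0)
          else Sum.elim (fun _ => 0) (fun j => if i = j then 1 else 0) with hrow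
    have hrow_inl : ∀ (a : {a : Ex (Option Unit) d // a ≠ a0}) (k : K), row (Sum.inl a) k
        = Sum.elim (fun b : Ex (Option Unit) d => Mr θ a.1.1 b.1) (fun _ => (0 : ℝ)) k := fun a k => rfl
    have hrow_inr : ∀ (i : I) (k : K), row (Sum.inr i) k
        = (if i = i0 then Sum.elim (fun b : Ex (Option Unit) d => Mr θ a0.1 b.1) (fun _ => (0 : ℝ))
          else Sum.elim (fun _ => 0) (fun j => if i = j then 1 else 0)) k := fun i k => rfl
    have hrow_i0 : ∀ k, row k (Sum.inr i0) = 0 := by
      rintro (a | i)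
      · rfl
      · rw [hrow_inr]
        split_ifs with h
        · rfl
        · simp [h]
    -- the values of the rows
    have hval : ∀ k : ι, Sm q (match k with
        | Sum.inl a => ex (fun _ : Unit => (1 : ℝ)) a.1.1
        | Sum.inr i => if i = i0 then ex (fun _ : Unit => (1 : ℝ)) a0.1 else ∑ v, μ v i.1)
        (fun n => ((∑ j, row k j * (Xx j n : ℝ) : ℝ) : ℂ)) := by
      have hz : ∀ a : Ex (Option Unit) d, Sm q (ex (fun _ : Unit => (1 : ℝ)) a.1)
          (fun n => ((∑ j, (Sum.elim (fun b : Ex (Option Unit) d => Mr θ a.1 b.1)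
            (fun _ => (0 : ℝ)) : K → ℝ) j * (Xx j n : ℝ) : ℝ) : ℂ)) := by
        intro a
        refine (H.zv a.1).congr (Eventually.of_forall fun n => ?_)
        congr 1
        rw [Fintype.sum_sum_type, zv_Mr θ (q n) (x n) a.2]
        simp only [Sum.elim_inl, Sum.elim_inr, zero_mul, Finset.sum_const_zero, add_zero]
        refine Finset.sum_congr rfl fun b _ => ?_
        rw [hXx, hmon]
        simp only [Sum.elim_inl]
        push_cast
        rfl
      rintro (a | i)
      · exact hz a.1
      · simp only [hrow_inr]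
        by_cases h : i = i0
        · simp only [if_pos h]
          exact hz a0
        · simp only [if_neg h]
          refine (hV i.1).congr (Eventually.of_forall fun n => ?_)
          rw [Fintype.sum_sum_type]
          simp only [Sum.elim_inl, Sum.elim_inr, zero_mul, Finset.sum_const_zero, zero_add]
          rw [Finset.sum_eq_single i]
          · rw [if_pos rfl, one_mul, hXx]
            simp only [Sum.elim_inr]
            push_cast
            rfl
          · intro j _ hj
            rw [if_neg (Ne.symm hj), zero_mul]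
          · intro h
            exact absurd (Finset.mem_univ _) h
    have key := sub0 hS H.big (ι := ι) (fun i => Xx (emb i)) ?_
      (fun k i => row k (emb i) + row k (Sum.inl a0) * rr (emb i)) ?_ ?_
      (fun v i => match i with
        | Sum.inl _ => 0
        | Sum.inr i => μ v i.1) ?_
      (fun k => match k with
        | Sum.inl a => ex (fun _ : Unit => (1 : ℝ)) a.1.1
        | Sum.inr i => if i = i0 then ex (fun _ : Unit => (1 : ℝ)) a0.1 else ∑ v, μ v i.1) ?_
    · have h1 : ∑ v, ∑ i : ι, (match i with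
        | Sum.inl _ => (0 : ℝ)
        | Sum.inr i => μ v i.1) = ∑ i : I, ∑ v, μ v i.1 := by
        rw [Finset.sum_comm]
        rw [Fintype.sum_sum_type]
        simp
      have h2 : ∑ k : ι, (match k with
        | Sum.inl a => ex (fun _ : Unit => (1 : ℝ)) a.1.1
        | Sum.inr i => if i = i0 then ex (fun _ : Unit => (1 : ℝ)) a0.1 else ∑ v, μ v i.1)
          = ∑ a : Ex (Option Unit) d, ex (fun _ : Unit => (1 : ℝ)) a.1
            + ∑ i ∈ Finset.univ.erase i0, ∑ v, μ v i.1 := by
        rw [Fintype.sum_sum_type]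
        rw [← Finset.add_sum_erase Finset.univ _ (Finset.mem_univ i0),
          ← Finset.add_sum_erase Finset.univ (fun a : Ex (Option Unit) d =>
            ex (fun _ : Unit => (1 : ℝ)) a.1) (Finset.mem_univ a0)]
        simp only [if_true]
        have h3 : ∑ i ∈ Finset.univ.erase i0, (if i = i0 then ex (fun _ : Unit => (1 : ℝ)) a0.1
            else ∑ v, μ v i.1) = ∑ i ∈ Finset.univ.erase i0, ∑ v, μ v i.1 :=
          Finset.sum_congr rfl fun i hi => if_neg (Finset.ne_of_mem_erase hi)
        have h4 : ∑ a : {a : Ex (Option Unit) d // a ≠ a0}, ex (fun _ : Unit => (1 : ℝ)) a.1.1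
            = ∑ a ∈ Finset.univ.erase a0, ex (fun _ : Unit => (1 : ℝ)) a.1 := by
          symm
          apply Finset.sum_subtype
          intro a
          simp
        rw [h3, h4]
        ring
      rw [h1, h2, ← Finset.add_sum_erase Finset.univ _ (Finset.mem_univ i0)] at key
      have h3 := H.bal' d
      simp only [Finset.sum_const_zero, zero_mul] at h3
      linarith
    · -- independence
      intro b hb
      have hbr : ∀ᶠ n in (UU : Filter ℕ), ∑ i : I, (b (Sum.inr i) : ℚ) * V i.1 n
          = va (q n) (x n) (polyOf (fun a : Ex (Option Unit) d =>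
            if h : a ≠ a0 then -(b (Sum.inl ⟨a, h⟩) : ℚ) else 0)) := by
        filter_upwards [hb] with n hn
        rw [va_polyOf]
        rw [Fintype.sum_sum_type] at hn
        have hn' : ((∑ a : {a : Ex (Option Unit) d // a ≠ a0}, b (Sum.inl a) * Xx (emb (Sum.inl a)) n
          + ∑ i : I, b (Sum.inr i) * Xx (emb (Sum.inr i)) n : ℤ) : ℚ) = 0 := by
          rw [hn]; rfl
        push_cast at hn'
        have h1 : ∑ a : Ex (Option Unit) d, (if h : a ≠ a0 then -(b (Sum.inl ⟨a, h⟩) : ℚ) else 0)
            * ∏ i, (px (q n) (x n) i : ℚ) ^ (a.1 i)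
            = -∑ a : {a : Ex (Option Unit) d // a ≠ a0}, (b (Sum.inl a) : ℚ)
              * (Xx (emb (Sum.inl a)) n : ℚ) := by
          rw [← Finset.add_sum_erase Finset.univ _ (Finset.mem_univ a0), dif_neg (by simp), zero_mul,
            zero_add, ← Finset.sum_neg_distrib]
          have h2 : ∀ a : {a : Ex (Option Unit) d // a ≠ a0}, -((b (Sum.inl a) : ℚ)
              * (Xx (emb (Sum.inl a)) n : ℚ)) = (fun a : Ex (Option Unit) d =>
              (if h : a ≠ a0 then -(b (Sum.inl ⟨a, h⟩) : ℚ) else 0)
              * ∏ i, (px (q n) (x n) i : ℚ) ^ (a.1 i)) a.1 := by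
            intro a
            simp only [dif_pos a.2]
            rw [neg_mul]
            congr 2
            rw [hXx, hemb, hmon]
            simp only [Sum.map_inl, Sum.elim_inl]
            push_cast
            rfl
          simp only [h2]
          apply Finset.sum_subtype
          intro a
          simp
        rw [h1]
        have h3 : ∑ i : I, (b (Sum.inr i) : ℚ) * (V i.1 n : ℚ)
            = ∑ i : I, (b (Sum.inr i) : ℚ) * (Xx (emb (Sum.inr i)) n : ℚ) := rfl
        rw [h3]
        linarith
      set G' := polyOf (fun a : Ex (Option Unit) d =>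
            if h : a ≠ a0 then -(b (Sum.inl ⟨a, h⟩) : ℚ) else 0) with hG'
      have hG'd : G'.totalDegree ≤ d := by
        rw [hG']
        unfold polyOf
        refine (totalDegree_finsetSum _ _).trans (Finset.sup_le fun a _ => ?_)
        refine (totalDegree_monomial_le _ _).trans ?_
        have h3 := mem_Ex.1 a.2
        change (fs a.1).sum (fun _ e => e) ≤ _
        rw [sum_fs]
        simpa using h3
      have hG'0 : coeff m0 G' = 0 := by
        have h1 := coeff_polyOf (fun a : Ex (Option Unit) d =>
            if h : a ≠ a0 then -(b (Sum.inl ⟨a, h⟩) : ℚ) else 0) a0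
        rw [dif_neg (by simp)] at h1
        have h2 : fs a0.1 = m0 := by rw [ha0]; exact fs_coe m0
        rw [h2] at h1
        exact h1
      have hbI : ∀ i : I, b (Sum.inr i) = 0 := by
        intro i1
        by_contra hne
        have hner : (b (Sum.inr i1) : ℚ) ≠ 0 := by exact_mod_cast hne
        set bJ : J → ℚ := fun j => if h : c j ≠ 0 then (b (Sum.inr ⟨j, h⟩) : ℚ) else 0 with hbJ
        have hbJs : ∀ n, ∑ j, bJ j * V j n = ∑ i : I, (b (Sum.inr i) : ℚ) * V i.1 n := by
          intro n
          have h2 : ∀ i : I, (b (Sum.inr i) : ℚ) * V i.1 n = (fun j => bJ j * V j n) i.1 := by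
            intro i
            simp only [hbJ, dif_pos i.2]
            rfl
          simp only [h2]
          symm
          have h3 : ∑ i : I, (fun j => bJ j * (V j n : ℚ)) i.1
              = ∑ j ∈ Finset.univ.filter (fun j => c j ≠ 0), bJ j * (V j n : ℚ) := by
            symm
            apply Finset.sum_subtype
            intro j
            simp
          rw [h3]
          apply Finset.sum_subset (Finset.subset_univ _)
          intro j _ hj
          have h2 : ¬ c j ≠ 0 := by
            intro h
            exact hj (Finset.mem_filter.2 ⟨Finset.mem_univ _, h⟩)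
          rw [hbJ]
          simp only [dif_neg h2, zero_mul]
        set c' : J → ℚ := fun j => (b (Sum.inr i1) : ℚ) * c j - c i1.1 * bJ j with hc'
        set G'' := (b (Sum.inr i1) : ℚ) • G - c i1.1 • G' with hG''
        have h1 : ∀ᶠ n in (UU : Filter ℕ), ∑ j, c' j * V j n = va (q n) (x n) G'' := by
          filter_upwards [hrel, hbr] with n h1 h2
          rw [hG'', map_sub, map_smul, map_smul, ← h1, ← h2, ← hbJs, smul_eq_mul, smul_eq_mul,
            Finset.mul_sum, Finset.mul_sum, ← Finset.sum_sub_distrib]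
          refine Finset.sum_congr rfl fun j _ => ?_
          rw [hc']
          ring
        have h2 : G''.totalDegree ≠ 0 := by
          intro h
          rw [totalDegree_eq_zero_iff_eq_C] at h
          have h4 := congrArg (coeff m0) h
          rw [coeff_C, if_neg (Ne.symm hm00), hG'', coeff_sub, coeff_smul, coeff_smul, hG'0,
            smul_zero, sub_zero, smul_eq_mul] at h4
          exact mul_ne_zero hner (MvPolynomial.mem_support_iff.1 hm0) h4
        have h4 := hmin c' G'' ((totalDegree_sub _ _).trans (max_le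
          ((totalDegree_smul_le _ _).trans hGle) ((totalDegree_smul_le _ _).trans hG'd))) h2 h1
        have h5 : (Finset.univ.filter fun j => c' j ≠ 0) ⊂ (Finset.univ.filter fun j => c j ≠ 0) := by
          rw [Finset.ssubset_iff_of_subset]
          · refine ⟨i1.1, Finset.mem_filter.2 ⟨Finset.mem_univ _, i1.2⟩, ?_⟩
            rw [Finset.mem_filter]
            rintro ⟨_, h⟩
            apply h
            rw [hc', hbJ]
            simp only [dif_pos i1.2]
            ring
          · intro j hj
            rw [Finset.mem_filter] at hj ⊢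
            refine ⟨Finset.mem_univ _, fun h => ?_⟩
            apply hj.2
            rw [hc', hbJ]
            simp only [h]
            simp
        exact absurd h4 (not_le.2 (Finset.card_lt_card h5))
      have hG'z : G' = 0 := by
        apply hind
        filter_upwards [hbr] with n hn
        rw [← hn]
        simp [hbI]
      rintro (a | i)
      · have h1 := coeff_polyOf (fun a : Ex (Option Unit) d =>
            if h : a ≠ a0 then -(b (Sum.inl ⟨a, h⟩) : ℚ) else 0) a.1
        rw [dif_pos a.2] at h1
        have h2 : coeff (fs a.1.1) G' = 0 := by rw [hG'z, coeff_zero]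
        rw [hG', h1] at h2
        have h4 : (b (Sum.inl ⟨a.1, a.2⟩) : ℚ) = 0 := neg_eq_zero.1 h2
        exact_mod_cast h4
      · exact hbI i
    · -- algebraicity
      have hrow_alg : ∀ k j, IsAlgebraic ℚ (row k j) := by
        have h1 : ∀ (a : Ex (Option Unit) d) (j : K), IsAlgebraic ℚ
            ((Sum.elim (fun b : Ex (Option Unit) d => Mr θ a.1 b.1) (fun _ => (0 : ℝ)) : K → ℝ) j) := by
          rintro a (b | j)
          · exact Mr_alg hθ _ _
          · exact isAlgebraic_zero
        rintro (a | i) j
        · exact h1 a.1 j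
        · rw [hrow_inr]
          split_ifs
          · exact h1 a0 j
          · rcases j with b | j
            · exact isAlgebraic_zero
            · simp only [Sum.elim_inr]
              split_ifs
              · exact isAlgebraic_one
              · exact isAlgebraic_zero
      intro k i
      refine (hrow_alg _ _).add ((hrow_alg _ _).mul ?_)
      rw [hrr]
      rcases emb i with a | j
      · have h1 := isAlgebraic_algebraMap (R := ℚ) (A := ℝ) (-(g a : ℚ) / g a0)
        simpa using h1
      · have h1 := isAlgebraic_algebraMap (R := ℚ) (A := ℝ) ((c j.1 : ℚ) / g a0)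
        simpa using h1
    · -- rank
      intro b hb
      set Rv : K → ℝ := fun j => ∑ k, b k * row k j with hRv
      have h1 : ∀ i : ι, Rv (emb i) + Rv (Sum.inl a0) * rr (emb i) = 0 := by
        intro i
        have h2 := hb i
        rw [← h2, hRv]
        simp only []
        rw [Finset.sum_mul, ← Finset.sum_add_distrib]
        refine Finset.sum_congr rfl fun k _ => ?_
        ring
      have h2 : Rv (Sum.inr i0) = 0 := by
        rw [hRv]
        exact Finset.sum_eq_zero fun k _ => by rw [hrow_i0, mul_zero]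
      have h4 : Rv (Sum.inl a0) = 0 := by
        have h5 := h1 (Sum.inr i0)
        have h6 : emb (Sum.inr i0) = Sum.inr i0 := rfl
        rw [h6, h2, zero_add] at h5
        refine (mul_eq_zero.1 h5).resolve_right ?_
        rw [hrr]
        simp only [Sum.elim_inr]
        have h7 : (c i0.1 : ℝ) ≠ 0 := by exact_mod_cast i0.2
        exact div_ne_zero h7 hg0r
      have h5 : ∀ j, Rv j = 0 := by
        intro j
        by_cases hj : j = Sum.inl a0
        · rw [hj, h4]
        · have h6 : ∃ i : ι, emb i = j := by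
            rcases j with a | i
            · exact ⟨Sum.inl ⟨a, fun h => hj (by rw [h])⟩, rfl⟩
            · exact ⟨Sum.inr i, rfl⟩
          obtain ⟨i, hi⟩ := h6
          have h7 := h1 i
          rw [h4, zero_mul, add_zero, hi] at h7
          exact h7
      -- the coefficients of the near units
      have h6 : ∀ i : I, i ≠ i0 → b (Sum.inr i) = 0 := by
        intro i hi
        have h7 := h5 (Sum.inr i)
        rw [hRv] at h7
        simp only [] at h7
        rw [Finset.sum_eq_single (Sum.inr i)] at h7
        · rw [hrow_inr, if_neg hi] at h7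
          simpa using h7
        · rintro (a | i') _ hne
          · rw [hrow_inl]
            simp
          · rw [hrow_inr]
            split_ifs with h8
            · simp
            · have h9 : i' ≠ i := fun h => hne (by rw [h])
              simp [h9]
        · intro h
          exact absurd (Finset.mem_univ _) h
      set bh : Ex (Option Unit) d → ℝ := fun a => if h : a ≠ a0 then b (Sum.inl ⟨a, h⟩)
        else b (Sum.inr i0) with hbh
      have h7 : ∀ e : Ex (Option Unit) d, ∑ a, bh a * Mr θ a.1 e.1 = 0 := by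
        intro e
        have h8 := h5 (Sum.inl e)
        rw [hRv] at h8
        simp only [] at h8
        rw [Fintype.sum_sum_type] at h8
        rw [← Finset.add_sum_erase Finset.univ _ (Finset.mem_univ a0)]
        have h9 : ∑ i : I, b (Sum.inr i) * row (Sum.inr i) (Sum.inl e)
            = bh a0 * Mr θ a0.1 e.1 := by
          rw [Finset.sum_eq_single i0]
          · rw [hrow_inr, if_pos rfl, hbh]
            simp
          · intro i _ hi
            rw [h6 i hi, zero_mul]
          · intro h
            exact absurd (Finset.mem_univ _) h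
        have h10 : ∑ a : {a : Ex (Option Unit) d // a ≠ a0}, b (Sum.inl a) * row (Sum.inl a) (Sum.inl e)
            = ∑ a ∈ Finset.univ.erase a0, bh a * Mr θ a.1 e.1 := by
          have h11 : ∀ a : {a : Ex (Option Unit) d // a ≠ a0},
              b (Sum.inl a) * row (Sum.inl a) (Sum.inl e)
              = (fun a : Ex (Option Unit) d => bh a * Mr θ a.1 e.1) a.1 := by
            intro a
            simp only [hbh, dif_pos a.2]
            rfl
          simp only [h11]
          symm
          apply Finset.sum_subtype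
          intro a
          simp
        rw [h9, h10] at h8
        linarith
      have h8 : ∀ a, bh a = 0 := by
        intro k
        have h3 : ∑ i : Ex (Option Unit) d, (∑ l, bh l * Mr θ l.1 i.1) * Mr θ i.1 k.1 = bh k := by
          simp only [Finset.sum_mul]
          rw [Finset.sum_comm]
          have h4 : ∀ l : Ex (Option Unit) d, ∑ i : Ex (Option Unit) d,
              bh l * Mr θ l.1 i.1 * Mr θ i.1 k.1 = bh l * (if l = k then 1 else 0) := by
            intro l
            rw [← Mr_sq θ l k, Finset.mul_sum]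
            exact Finset.sum_congr rfl fun i _ => mul_assoc _ _ _
          simp only [h4]
          simp
        rw [← h3]
        exact Finset.sum_eq_zero fun i _ => by rw [h7 i, zero_mul]
      rintro (a | i)
      · have h9 := h8 a.1
        rw [hbh] at h9
        simp only [dif_pos a.2] at h9
        exact h9
      · by_cases hi : i = i0
        · have h9 := h8 a0
          rw [hbh] at h9
          simp only [ne_eq, not_true_eq_false, dite_false] at h9
          rw [hi]
          exact h9
        · exact h6 i hi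
    · rintro v (a | i)
      · exact Dv.zero H.big v _
      · exact hμ v i.1
    · intro k
      refine (hval k).congr ?_
      filter_upwards [hX0] with n hn
      congr 1
      rw [hsplit (fun j => row k j * (Xx j n : ℝ)), hn, Finset.mul_sum, ← Finset.sum_add_distrib]
      refine Finset.sum_congr rfl fun i _ => ?_
      ring
  -- the values are small
  have hsm : Sm q 0 (fun n => ((va (q n) (x n) G : ℚ) : ℂ)) := by
    have h1 := Sm.sum H.big Finset.univ (fun (i : I) n => ((c i.1 : ℚ) : ℂ) * ((V i.1 n : ℤ) : ℂ))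
      (e := 0) (fun i _ => by
        have h2 := Sm.mul H.big (Sm.const H.big ((c i.1 : ℚ) : ℂ)) (Sm.mono H.big (hV i.1) (hzero i))
        rwa [zero_add] at h2)
    refine h1.congr ?_
    filter_upwards [hrel] with n hn
    rw [← hn, hsumI (fun j => (V j n : ℚ))]
    push_cast
    rfl
  have h1 := notsmO H halg h3 G hG0 0 hsm
  linarith

/-- the exponents of a sequence of near units -/
lemma exists_unit {S : Finset ℕ} (hS : ∀ p ∈ S, p.Prime) {q : ℕ → ℕ} (hq : ∀ n, n + 2 ≤ q n)
    (V : ℕ → ℤ) (K : ℕ) (hV : ∀ n, |V n| ≤ (q n : ℤ) ^ K)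
    (hu : ∀ n : ℕ, |(V n : ℝ)| ≤ (q n : ℝ) ^ (1 / ((n : ℝ) + 1)) * spart S (V n)) :
    ∃ μ : Fin S.card → ℝ, (∀ v, 0 ≤ μ v) ∧ (∀ v, Dv S hS q v (μ v) V) ∧
      Sm q (∑ v, μ v) (fun n => ((V n : ℤ) : ℂ)) := by
  classical
  by_cases h0 : ∀ᶠ n in (UU : Filter ℕ), V n = 0
  · refine ⟨fun _ => 0, fun _ => le_rfl, fun v => Dv.zero hq v _, ?_⟩
    refine (Sm.zero hq _).congr ?_
    filter_upwards [h0] with n hn
    rw [hn, Int.cast_zero]
  · have h1 : ∀ᶠ n in (UU : Filter ℕ), V n ≠ 0 := Ultrafilter.eventually_not.2 h0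
    obtain ⟨μ, hμ0, hμ, hlim⟩ := exists_ord hS hq V K (by
      filter_upwards [h1] with n hn
      exact ⟨hn, hV n⟩)
    refine ⟨μ, hμ0, hμ, fun ε hε => ?_⟩
    filter_upwards [hlim.eventually (gt_mem_nhds (show ∑ v, μ v < ∑ v, μ v + ε / 2 by linarith)),
      small_of hq (fun n => (q n : ℝ) ^ (1 / ((n : ℝ) + 1))) (fun n => le_rfl) (ε / 2)
        (by positivity)] with n h3 h4
    rw [Complex.norm_intCast]
    rw [div_lt_iff₀ (logq_pos hq n), ← Real.log_rpow (qpos hq n)] at h3
    have h5 : (0 : ℝ) < spart S (V n) := by exact_mod_cast spart_pos hS _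
    have h6 : (0 : ℝ) < (q n : ℝ) ^ (∑ v, μ v + ε / 2) := Real.rpow_pos_of_pos (qpos hq n) _
    have h7 := ((Real.log_lt_log_iff h5 h6).1 h3).le
    calc |(V n : ℝ)| ≤ (q n : ℝ) ^ (1 / ((n : ℝ) + 1)) * spart S (V n) := hu n
      _ ≤ (q n : ℝ) ^ (ε / 2) * (q n : ℝ) ^ (∑ v, μ v + ε / 2) :=
          mul_le_mul h4 h7 h5.le (Real.rpow_nonneg (qpos hq n).le _)
      _ = _ := by
          rw [← Real.rpow_add (qpos hq n)]
          congr 1
          ring

/-- sequences of nearly optimal approximations in the strict sense -/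
lemma ext_one {S : Finset ℕ} {hS : ∀ p ∈ S, p.Prime} {θ : Unit → ℝ} {q : ℕ → ℕ}
    {x : ℕ → Unit → ℤ} (hq : ∀ n, n + 2 ≤ q n)
    (h : ∀ n : ℕ, (q n : ℝ) * |θ () * q n - x n ()| ≤ (q n : ℝ) ^ (1 / ((n : ℝ) + 1))) :
    Ext S hS θ q x (fun _ => 0) (fun _ => 1) := by
  refine ⟨hq, fun _ => zero_le_one, ?_, fun _ => le_rfl, fun v => Dv.zero hq v _, by simp⟩
  intro s ε hε
  filter_upwards [small_of hq (fun n => (q n : ℝ) * |fr θ (q n) (x n) ()|) (fun n => h n) ε hε]
    with n hn
  rw [Complex.norm_real, Real.norm_eq_abs]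
  have h1 : |fr θ (q n) (x n) s| ≤ (q n : ℝ) ^ ε / q n := by
    rw [le_div_iff₀ (qpos hq n), mul_comm]
    exact hn
  refine h1.trans (le_of_eq ?_)
  rw [Real.rpow_add (qpos hq n), Real.rpow_neg_one]
  field_simp

/-- **Sums of few near units at nearly optimal approximations.** -/
theorem fewO (S : Finset ℕ) (hS : ∀ p ∈ S, p.Prime) (θ : Unit → ℝ)
    (halg : IsAlgebraic ℚ (θ ())) (h3 : 3 ≤ (minpoly ℚ (θ ())).natDegree)
    (F : MvPolynomial (Option Unit) ℤ) (hF : F.totalDegree ≠ 0) (k K : ℕ) :
    ∃ (η : ℝ) (N : ℕ), 0 < η ∧ ∀ q ≥ N, ∀ x : Unit → ℤ,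
      (q : ℝ) * |θ () * q - x ()| ≤ (q : ℝ) ^ η → ∀ v : Fin k → ℤ,
      (∀ i, |v i| ≤ (q : ℤ) ^ K ∧ |(v i : ℝ)| ≤ (q : ℝ) ^ η * spart S (v i)) →
      eval (px q x) F ≠ ∑ i, v i := by
  obtain ⟨η, N, hη, h⟩ := none_leftO S hS θ (Δ := Fin k → ℤ) (fun η q x v =>
    ((q : ℝ) * |θ () * q - x ()| ≤ (q : ℝ) ^ η) ∧
    (∀ i, |v i| ≤ (q : ℤ) ^ K ∧ |(v i : ℝ)| ≤ (q : ℝ) ^ η * spart S (v i)) ∧
    eval (px q x) F = ∑ i, v i) (by
      intro q x v β w H _ hd
      have H1 : Ext S hS θ q x (fun _ => 0) (fun _ => 1) := ext_one H.big (fun n => (hd n).1)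
      choose μ hμ0 hμ hV using fun i : Fin k => exists_unit hS H.big (fun n => v n i) K
        (fun n => ((hd n).2.1 i).1) (fun n => ((hd n).2.1 i).2)
      have h1 := fewS H1 halg h3 (fun i n => v n i) (fun w' i => μ i w') (fun w' i => hμ i w') hV
        (fun _ => 1) (map (Int.castRingHom ℚ) F) (Eventually.of_forall fun n => by
          rw [map_px, (hd n).2.2]
          push_cast
          simp)
      have h2 : (map (Int.castRingHom ℚ) F).totalDegree = F.totalDegree := by
        unfold totalDegree
        rw [support_map_of_injective _ Int.cast_injective]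
      rw [h2] at h1
      exact hF h1)
  refine ⟨η, N, hη, fun q hq x hx v hv heq => ?_⟩
  exact h q hq x ⟨1, q, (one_mul q).symm, by simp, hx⟩ v ⟨hx, hv, heq⟩

end Pool.Agent.Q4.Opt
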