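import Mathlib
import Pool.Agent.Q4.Opt.Sel
import Pool.Agent.Q4.Cov.Hilb

set_option autoImplicit false
set_option linter.unusedSectionVars false

/-!
# Factors of specialised polynomials
-/

namespace Pool.Agent.Q4.Opt

open Filter Topology Pool.Agent.TH932.Abs Pool.Agent.TH932.Germs Pool.Agent.TH932.Chi
open Pool.Agent.TH796.AL Pool.Agent.Q4.Blk Pool.Agent.Q4.Gcd Module
open Pool.Agent.Q4.Cov hiding Near App
open Pool.Agent.Q4.Tube hiding Near sm_fr sm_vs sm_dl dl_tendsto dl_le_one sm_ord sm_any lim_evr branch' expand' px_ne root_bnd approxS root_exp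

section
variable {σ : Type} [Fintype σ] [DecidableEq σ]

open MvPolynomial

/-- sequences approximated by combinations of the forms -/
def App (θ : σ → ℝ) (q : ℕ → ℕ) (x : ℕ → σ → ℤ) (D : ℕ) (s : ℕ → ℂ) : Prop :=
  ∃ c : Ex (Option σ) D → QB, Sm q (-1) (fun n => s n
    - ∑ a, phi (c a) * ((zv θ (q n) (x n) a.1 : ℝ) : ℂ))

variable {θ : σ → ℝ} {q : ℕ → ℕ} {x : ℕ → σ → ℤ} {D : ℕ}

lemma App.congr {s s' : ℕ → ℂ} (h : App θ q x D s) (hs : ∀ᶠ n in (UU : Filter ℕ), s' n = s n) :
    App θ q x D s' := by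
  obtain ⟨c, h⟩ := h
  refine ⟨c, h.congr ?_⟩
  filter_upwards [hs] with n h2
  rw [h2]

lemma App.zero (hq : ∀ n, n + 2 ≤ q n) : App θ q x D (fun _ => 0) := by
  refine ⟨fun _ => 0, (Sm.zero hq (-1)).congr (Eventually.of_forall fun n => ?_)⟩
  simp

lemma App.add (hq : ∀ n, n + 2 ≤ q n) {s s' : ℕ → ℂ} (h : App θ q x D s) (h' : App θ q x D s') :
    App θ q x D (fun n => s n + s' n) := by
  obtain ⟨c, h⟩ := h
  obtain ⟨c', h'⟩ := h'
  refine ⟨fun a => c a + c' a, (Sm.add hq h h').congr (Eventually.of_forall fun n => ?_)⟩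
  simp only [map_add, add_mul, Finset.sum_add_distrib]
  ring

lemma App.mul (hq : ∀ n, n + 2 ≤ q n) {s : ℕ → ℂ} (b : QB) (h : App θ q x D s) :
    App θ q x D (fun n => phi b * s n) := by
  obtain ⟨c, h⟩ := h
  have h1 := Sm.mul hq (Sm.const hq (phi b)) h
  rw [zero_add] at h1
  refine ⟨fun a => b * c a, h1.congr (Eventually.of_forall fun n => ?_)⟩
  rw [mul_sub, Finset.mul_sum]
  congr 1
  refine Finset.sum_congr rfl fun a _ => ?_
  rw [map_mul]
  ring

lemma App.sum (hq : ∀ n, n + 2 ≤ q n) {ι : Type*} (s : Finset ι) (f : ι → ℕ → ℂ)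
    (h : ∀ i ∈ s, App θ q x D (f i)) : App θ q x D (fun n => ∑ i ∈ s, f i n) := by
  classical
  induction s using Finset.induction_on with
  | empty => simpa using App.zero hq
  | insert i s hi ih =>
    have h1 := (h i (Finset.mem_insert_self _ _)).add hq
      (ih fun j hj => h j (Finset.mem_insert_of_mem hj))
    refine h1.congr (Eventually.of_forall fun n => ?_)
    rw [Finset.sum_insert hi]

/-! ### products of linear factors -/

/-- polynomials whose coefficients are approximated to order `R` -/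
def Near (θ : σ → ℝ) (q : ℕ → ℕ) (x : ℕ → σ → ℤ) (R : ℕ) (f : ℕ → Polynomial ℂ)
    (F : Polynomial (MvPolynomial (Option σ) QB)) : Prop :=
  ∀ j, Sm q (-R) (fun n => (f n).coeff j - evr phi (vs θ q x n) (F.coeff j))

lemma Near.one (hq : ∀ n, n + 2 ≤ q n) (R : ℕ) : Near θ q x R (fun _ => 1) 1 := by
  intro j
  refine (Sm.zero hq _).congr (Eventually.of_forall fun n => ?_)
  rw [Polynomial.coeff_one, Polynomial.coeff_one]
  split_ifs <;> simp

lemma Near.mul (H : Nr θ q x) {R : ℕ} {f g : ℕ → Polynomial ℂ}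
    {F G : Polynomial (MvPolynomial (Option σ) QB)}
    (hf : Near θ q x R f F) (hg : Near θ q x R g G) :
    Near θ q x R (fun n => f n * g n) (F * G) := by
  intro j
  have h1 := Sm.sum H.big (Finset.HasAntidiagonal.antidiagonal j) (e := -(R : ℝ))
    (fun p n => (f n).coeff p.1 * (g n).coeff p.2
      - evr phi (vs θ q x n) (F.coeff p.1) * evr phi (vs θ q x n) (G.coeff p.2)) (by
    intro p _
    have hg1 : Sm q 0 (fun n => (g n).coeff p.2) := by
      have h2 := Sm.add H.big ((hg p.2).mono H.big (neg_nonpos.2 (Nat.cast_nonneg R)))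
        (sm_any phi H (G.coeff p.2))
      refine h2.congr (Eventually.of_forall fun n => ?_)
      ring
    have h3 := Sm.mul H.big (hf p.1) hg1
    have h4 := Sm.mul H.big (sm_any phi H (F.coeff p.1)) (hg p.2)
    rw [add_zero] at h3
    rw [zero_add] at h4
    refine (Sm.add H.big h3 h4).congr (Eventually.of_forall fun n => ?_)
    ring)
  refine h1.congr (Eventually.of_forall fun n => ?_)
  simp only []
  rw [Polynomial.coeff_mul, Polynomial.coeff_mul, map_sum, ← Finset.sum_sub_distrib]
  refine Finset.sum_congr rfl fun p _ => ?_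
  rw [map_mul]

lemma Near.prod (H : Nr θ q x) {R : ℕ} {ι : Type*} (s : Finset ι)
    (f : ι → ℕ → Polynomial ℂ) (F : ι → Polynomial (MvPolynomial (Option σ) QB))
    (h : ∀ i ∈ s, Near θ q x R (f i) (F i)) :
    Near θ q x R (fun n => ∏ i ∈ s, f i n) (∏ i ∈ s, F i) := by
  classical
  induction s using Finset.induction_on with
  | empty => simpa using Near.one H.big R
  | insert i s hi ih =>
    have h1 := (h i (Finset.mem_insert_self _ _)).mul H
      (ih fun j hj => h j (Finset.mem_insert_of_mem hj))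
    simp only [Finset.prod_insert hi]
    exact h1

lemma Near.linear (hq : ∀ n, n + 2 ≤ q n) {R : ℕ} {Y : ℕ → ℂ} {E : MvPolynomial (Option σ) QB}
    (h : Sm q (-R) (fun n => Y n - evr phi (vs θ q x n) E)) :
    Near θ q x R (fun n => Polynomial.X - Polynomial.C (Y n)) (Polynomial.X - Polynomial.C E) := by
  intro j
  by_cases h0 : j = 0
  · subst h0
    refine h.neg.congr (Eventually.of_forall fun n => ?_)
    rw [Polynomial.coeff_sub, Polynomial.coeff_sub, Polynomial.coeff_X, Polynomial.coeff_X,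
      Polynomial.coeff_C, Polynomial.coeff_C, map_sub]
    simp
    ring
  · refine (Sm.zero hq _).congr (Eventually.of_forall fun n => ?_)
    rw [Polynomial.coeff_sub, Polynomial.coeff_sub, Polynomial.coeff_X, Polynomial.coeff_X,
      Polynomial.coeff_C, Polynomial.coeff_C, map_sub]
    simp only [if_neg h0, map_zero, sub_zero]
    split_ifs <;> simp

variable {P : Polynomial (MvPolynomial (Option σ) ℤ)}

/-- **Coefficients of factors are approximable.** -/
theorem factor_app (H : Nr θ q x) (halg : ∀ s, IsAlgebraic ℚ (θ s)) (hP : P.Monic)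
    (hdeg : ∀ i, (P.coeff i).totalDegree ≤ (P.natDegree - i) * D)
    (hsep : (pnf P D 0 θ).Separable) {m : ℕ} (f : ℕ → Polynomial ℂ) (hf : ∀ n, (f n).Monic)
    (hm : ∀ n, (f n).natDegree = m)
    (hdvd : ∀ᶠ n in (UU : Filter ℕ), f n ∣ P.map (evx (q n) (x n) ℂ))
    {j : ℕ} (hj : j ≤ m) : App θ q x ((m - j) * D) (fun n => (f n).coeff j) := by
  have hqn0 : ∀ n, q n ≠ 0 := px_ne H
  set θK : σ → QB := fun s => ⟨(θ s : ℂ), mem_algebraicClosure_iff.2 (alg_of_real.2 (halg s))⟩ with hθK
  have hθ : ∀ s, phi (θK s) = (θ s : ℂ) := fun s => rfl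
  have hdeg' : ∀ i, (P.coeff i).totalDegree ≤ (P.natDegree - i) * D + 0 := hdeg
  choose ρ hρ using fun n => exists_roots (f n) (hf n) (hm n)
  have hlead' : topv 0 P.leadingCoeff θK ≠ 0 := by
    rw [hP.leadingCoeff, topv_one]
    exact one_ne_zero
  obtain ⟨M, hM⟩ := root_bnd (P := P) (D := D) (d := 0) H θK hlead' hdeg'
  have hcc := ptl_cc hdeg' θK
  have hp0 : (ptl P D 0 θK).map constantCoeff ≠ 0 := by
    rw [hcc]
    intro h
    have h1 := pnf_coeff_top (P := P) (D := D) (d := 0) θK
    rw [h, Polynomial.coeff_zero] at h1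
    exact hlead' h1.symm
  have hsep' : ∀ η : QB, ((ptl P D 0 θK).map constantCoeff).eval η = 0 →
      ((ptl P D 0 θK).map constantCoeff).derivative.eval η ≠ 0 := by
    rw [hcc]
    intro η h1 h2
    have h3 : (pnf P D 0 (fun s => (θ s : ℂ))).Separable := by
      have h4 := hsep.map (f := algebraMap ℝ ℂ)
      rw [pnf_map] at h4
      exact h4
    have h4 : (pnf P D 0 θK).map phi = pnf P D 0 (fun s => (θ s : ℂ)) := pnf_map phi θK
    rw [← h4] at h3
    obtain ⟨a, b, hab⟩ := h3
    have h5 := congrArg (Polynomial.eval (phi η)) hab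
    rw [Polynomial.eval_add, Polynomial.eval_mul, Polynomial.eval_mul, Polynomial.derivative_map,
      Polynomial.eval_map_apply, Polynomial.eval_map_apply, h1, h2] at h5
    simp at h5
  set Y : Fin m → ℕ → ℂ := fun l n => ρ n l / (q n : ℂ) ^ D with hY
  have hroot : ∀ l, ∀ᶠ n in (UU : Filter ℕ),
      ((ptl P D 0 θK).map (evr phi (vs θ q x n))).eval (Y l n) = 0 := by
    intro l
    filter_upwards [hdvd] with n hn
    have hqc : (q n : ℂ) ≠ 0 := by exact_mod_cast hqn0 n
    have h1 : (P.map (evx (q n) (x n) ℂ)).eval (ρ n l) = 0 := by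
      obtain ⟨g, hg⟩ := hn
      rw [hg, Polynomial.eval_mul]
      have h2 : (f n).eval (ρ n l) = 0 := by
        rw [hρ n, Polynomial.eval_prod]
        exact Finset.prod_eq_zero (Finset.mem_univ l) (by simp)
      rw [h2, zero_mul]
    rw [← ptl_eval hθ hdeg' (hqn0 n) (x n) (ρ n l)] at h1
    exact (mul_eq_zero.1 h1).resolve_left (pow_ne_zero _ hqc)
  have hE : ∀ l, ∃ E : MvPolynomial (Option σ) QB,
      Sm q (-(m * D + 1 : ℕ)) (fun n => Y l n - evr phi (vs θ q x n) E) := fun l =>
    approxS H (ptl P D 0 θK) hp0 hsep' (Y l) M (by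
      filter_upwards [hM, hroot l] with n h1 h2
      exact h1 _ h2) (hroot l) (m * D)
  choose E hE using hE
  have hnear : Near θ q x (m * D + 1) (fun n => ∏ l, (Polynomial.X - Polynomial.C (Y l n)))
      (∏ l, (Polynomial.X - Polynomial.C (E l))) :=
    Near.prod H Finset.univ (fun l n => Polynomial.X - Polynomial.C (Y l n))
      (fun l => Polynomial.X - Polynomial.C (E l)) fun l _ => Near.linear H.big (hE l)
  obtain ⟨c, hc⟩ := expand' phi H ((∏ l, (Polynomial.X - Polynomial.C (E l))).coeff j)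
    ((m - j) * D)
  refine ⟨c, ?_⟩
  have h1 := Sm.mul H.big (Sm.qpow H.big ((m - j) * D)) (hnear j)
  have h2 := h1.mono H.big (e' := -1) (by
    have h3 : ((m - j) * D : ℕ) ≤ m * D := Nat.mul_le_mul_right _ (Nat.sub_le _ _)
    have h4 : (((m - j) * D : ℕ) : ℝ) ≤ ((m * D : ℕ) : ℝ) := by exact_mod_cast h3
    push_cast at h4 ⊢
    linarith)
  refine (Sm.add H.big h2 hc).congr (Eventually.of_forall fun n => ?_)
  have hqc : (q n : ℂ) ≠ 0 := by exact_mod_cast hqn0 n
  have h10 : (f n).coeff j = (q n : ℂ) ^ ((m - j) * D)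
      * (∏ l, (Polynomial.X - Polynomial.C (Y l n))).coeff j := by
    have h11 : f n = ∏ l, (Polynomial.X - Polynomial.C ((q n : ℂ) ^ D * Y l n)) := by
      conv_lhs => rw [hρ n]
      refine Finset.prod_congr rfl fun l _ => ?_
      congr 2
      rw [hY]
      simp only []
      field_simp
    rw [h11, coeff_scale (fun l => Y l n) (pow_ne_zero D hqc) hj, ← pow_mul, mul_comm D]
  beta_reduce
  rw [h10]
  ring

/-! ### number fields -/

/-- evaluation of polynomials over a ring -/
noncomputable def evK (q : ℕ) (x : σ → ℤ) (K : Type*) [CommRing K] :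
    MvPolynomial (Option σ) K →+* K :=
  eval (fun i => ((px q x i : ℤ) : K))

lemma evK_mapK {q : ℕ} {x : σ → ℤ} {K L : Type*} [CommRing K] [CommRing L] (f : K →+* L) :
    (evK q x L).comp (map f) = f.comp (evK q x K) := by
  ext y
  · simp [evK]
  · simp [evK]

lemma evx_mapK {q : ℕ} {x : σ → ℤ} {K L : Type*} [CommRing K] [CommRing L] (f : K →+* L) :
    f.comp (evx q x K) = evx q x L := by
  ext y <;> simp [evx]

/-- vanishing over a number field -/
theorem vanishK (hind : ∀ R : MvPolynomial (Option σ) ℚ, Rel q x R → R = 0)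
    (K : Type*) [Field K] [NumberField K] (R : MvPolynomial (Option σ) K)
    (hz : ∀ᶠ n in (UU : Filter ℕ), evK (q n) (x n) K R = 0) : R = 0 := by
  classical
  set b := Module.finBasis ℚ K with hb
  have key : ∀ i, (∑ α ∈ R.support, monomial α (b.repr (R.coeff α) i) :
      MvPolynomial (Option σ) ℚ) = 0 := by
    intro i
    apply hind
    filter_upwards [hz] with n hn
    unfold va
    rw [map_sum]
    have h1 : ∑ α ∈ R.support, aeval (fun i => (px (q n) (x n) i : ℚ)) (monomial α (b.repr (R.coeff α) i))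
        = b.coord i (evK (q n) (x n) K R) := by
      unfold evK
      rw [eval_eq', map_sum]
      refine Finset.sum_congr rfl fun α _ => ?_
      rw [aeval_monomial, Finsupp.prod_fintype _ _ (by simp)]
      have h2 : (∏ j, ((px (q n) (x n) j : ℤ) : K) ^ α j)
          = algebraMap ℚ K (∏ j, ((px (q n) (x n) j : ℤ) : ℚ) ^ α j) := by
        rw [map_prod]
        refine Finset.prod_congr rfl fun j _ => ?_
        rw [map_pow, map_intCast]
      have h3 : R.coeff α * algebraMap ℚ K (∏ j, ((px (q n) (x n) j : ℤ) : ℚ) ^ α j)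
          = (∏ j, ((px (q n) (x n) j : ℤ) : ℚ) ^ α j) • R.coeff α := by
        rw [Algebra.smul_def, mul_comm]
      rw [h2, h3, map_smul, smul_eq_mul, mul_comm, Basis.coord_apply]
      rfl
    rw [h1, hn, map_zero]
  ext α
  rw [coeff_zero]
  by_contra hα
  apply hα
  apply b.ext_elem
  intro i
  have h1 := congrArg (coeff α) (key i)
  rw [coeff_sum, Finset.sum_eq_single α] at h1
  · rw [coeff_monomial, if_pos rfl, coeff_zero] at h1
    rw [h1, map_zero]
    rfl
  · intro β _ hβ
    rw [coeff_monomial, if_neg hβ]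
  · intro h
    exact absurd (MvPolynomial.mem_support_iff.2 hα) h

variable {S : Finset ℕ} {hS : ∀ p ∈ S, p.Prime} {β : Fin S.card → ℝ} {w : σ → ℝ}

/-- **Integral elements which are approximable at all places.** -/
theorem trace_app (H : Ext S hS θ q x β w) (halg : ∀ s, IsAlgebraic ℚ (θ s))
    (hind : ∀ R : MvPolynomial (Option σ) ℚ, Rel q x R → R = 0)
    {K : Type*} [Field K] [NumberField K] (c : ℕ → K)
    (hint : ∀ᶠ n in (UU : Filter ℕ), IsIntegral ℤ (c n))
    (happ : ∀ τ : K →ₐ[ℚ] ℂ, App θ q x D (fun n => τ (c n))) :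
    ∃ G : MvPolynomial (Option σ) K, ∀ᶠ n in (UU : Filter ℕ), c n = evK (q n) (x n) K G := by
  classical
  set b := NumberField.integralBasis K with hb
  have hbint : ∀ i, IsIntegral ℤ (b i) := by
    intro i
    rw [hb, NumberField.integralBasis_apply]
    exact NumberField.RingOfIntegers.isIntegral_coe _
  have hz : ∀ i, ∀ᶠ n in (UU : Filter ℕ),
      (((Algebra.trace ℚ K (c n * b i)).num : ℤ) : ℚ) = Algebra.trace ℚ K (c n * b i) := by
    intro i
    filter_upwards [hint] with n hn
    have h1 : IsIntegral ℤ (Algebra.trace ℚ K (c n * b i)) := Algebra.isIntegral_trace (hn.mul (hbint i))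
    obtain ⟨y, hy⟩ := IsIntegrallyClosed.isIntegral_iff.1 h1
    rw [← hy]
    simp
  have hG : ∀ i, ∃ G : MvPolynomial (Option σ) ℚ, ∀ᶠ n in (UU : Filter ℕ),
      (((Algebra.trace ℚ K (c n * b i)).num : ℤ) : ℚ) = va (q n) (x n) G := by
    intro i
    have halg' : ∀ τ : K →ₐ[ℚ] ℂ, τ (b i) ∈ algebraicClosure ℚ ℂ := fun τ =>
      mem_algebraicClosure_iff.2 ((Algebra.IsAlgebraic.isAlgebraic (b i)).algHom τ)
    obtain ⟨cc, hcc⟩ := (App.sum (θ := θ) (q := q) (x := x) (D := D) H.big Finset.univ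
      (fun τ n => phi (⟨τ (b i), halg' τ⟩ : QB) * τ (c n))
      (fun τ _ => (happ τ).mul H.big _)).congr
      (s' := fun n => ((((Algebra.trace ℚ K (c n * b i)).num : ℤ) : ℤ) : ℂ)) (by
      filter_upwards [hz i] with n hn
      have h1 := trace_eq_sum_embeddings (K := ℚ) (L := K) ℂ (x := c n * b i)
      have h2 : (((Algebra.trace ℚ K (c n * b i)).num : ℤ) : ℂ)
          = algebraMap ℚ ℂ (Algebra.trace ℚ K (c n * b i)) := by
        conv_rhs => rw [← hn]
        rw [map_intCast]
      rw [h2, h1]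
      refine Finset.sum_congr rfl fun τ _ => ?_
      rw [map_mul, mul_comm]
      rfl)
    obtain ⟨G, _, hG⟩ := engineO H halg hind D _ cc 1 one_pos hcc
    exact ⟨G, hG⟩
  choose G hG using hG
  refine ⟨∑ i, C (b.traceDual i) * map (algebraMap ℚ K) (G i), ?_⟩
  have hall : ∀ᶠ n in (UU : Filter ℕ), ∀ i,
      Algebra.trace ℚ K (c n * b i) = va (q n) (x n) (G i) := by
    rw [Filter.eventually_all]
    intro i
    filter_upwards [hG i, hz i] with n h1 h2
    rw [← h2, h1]
  filter_upwards [hall] with n hn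
  have h1 := b.traceDual.sum_repr (c n)
  conv_lhs => rw [← h1]
  rw [map_sum]
  refine Finset.sum_congr rfl fun i _ => ?_
  rw [Basis.traceDual_repr_apply, Algebra.traceForm_apply, hn i, map_mul, Algebra.smul_def, mul_comm]
  unfold evK va
  rw [eval_C, eval_map]
  congr 1
  rw [aeval_def]
  have h2 := eval₂_comp_left (algebraMap ℚ K) (algebraMap ℚ ℚ) (fun i => (px (q n) (x n) i : ℚ)) (G i)
  rw [h2]
  congr 1
  funext i
  simp

/-- **Factors over number fields.** -/
theorem factor_seq (H : Ext S hS θ q x β w) (halg : ∀ s, IsAlgebraic ℚ (θ s))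
    (hind : ∀ R : MvPolynomial (Option σ) ℚ, Rel q x R → R = 0) (hP : P.Monic)
    (hdeg : ∀ i, (P.coeff i).totalDegree ≤ (P.natDegree - i) * D)
    (hsep : (pnf P D 0 θ).Separable) (K : Type*) [Field K] [NumberField K] {m : ℕ}
    (A : ℕ → Polynomial K) (hA : ∀ n, (A n).Monic) (hm : ∀ n, (A n).natDegree = m)
    (hdvd : ∀ᶠ n in (UU : Filter ℕ), A n ∣ P.map (evx (q n) (x n) K)) :
    ∃ B : Polynomial (MvPolynomial (Option σ) K), B.Monic ∧ B.natDegree = m ∧
      B ∣ P.map (map (Int.castRingHom K)) ∧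
      ∀ᶠ n in (UU : Filter ℕ), A n = B.map (evK (q n) (x n) K) := by
  classical
  have hint : ∀ᶠ n in (UU : Filter ℕ), ∀ j, IsIntegral ℤ ((A n).coeff j) := by
    filter_upwards [hdvd] with n hn j
    have h1 : P.map (evx (q n) (x n) K) = (P.map (eval (px (q n) (x n)))).map (algebraMap ℤ K) := by
      rw [Polynomial.map_map]
      rfl
    rw [h1] at hn
    have h2 := integralClosure.mem_lifts_of_monic_of_dvd_map K (hP.map (eval (px (q n) (x n)))) (hA n) hn
    rw [Polynomial.lifts_iff_coeff_lifts] at h2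
    obtain ⟨y, hy⟩ := h2 j
    rw [← hy]
    exact y.2
  have hG : ∀ j : Fin m, ∃ G : MvPolynomial (Option σ) K, ∀ᶠ n in (UU : Filter ℕ),
      (A n).coeff j = evK (q n) (x n) K G := by
    intro j
    apply trace_app (D := (m - j) * D) H halg hind
    · filter_upwards [hint] with n hn
      exact hn j
    · intro τ
      have h1 := factor_app (P := P) (D := D) H.nr halg hP hdeg hsep (m := m)
        (fun n => (A n).map (τ : K →+* ℂ)) (fun n => (hA n).map _)
        (fun n => by rw [(hA n).natDegree_map, hm n]) (by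
          filter_upwards [hdvd] with n hn
          have h2 := Polynomial.map_dvd (τ : K →+* ℂ) hn
          rw [Polynomial.map_map, evx_mapK] at h2
          exact h2) (j := j) j.2.le
      refine h1.congr (Eventually.of_forall fun n => ?_)
      rw [Polynomial.coeff_map]
      rfl
  choose G hG using hG
  set B : Polynomial (MvPolynomial (Option σ) K) :=
    Polynomial.X ^ m + ∑ j : Fin m, Polynomial.C (G j) * Polynomial.X ^ (j : ℕ) with hB
  have hBdeg : (∑ j : Fin m, Polynomial.C (G j) * Polynomial.X ^ (j : ℕ)).degree < (m : WithBot ℕ) :=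
    Polynomial.degree_sum_fin_lt G
  have hBm : B.Monic := Polynomial.monic_X_pow_add hBdeg
  have hBn : B.natDegree = m := by
    rw [hB]
    apply Polynomial.natDegree_eq_of_degree_eq_some
    rw [Polynomial.degree_add_eq_left_of_degree_lt, Polynomial.degree_X_pow]
    rw [Polynomial.degree_X_pow]
    exact hBdeg
  have hBA : ∀ᶠ n in (UU : Filter ℕ), A n = B.map (evK (q n) (x n) K) := by
    have hall : ∀ᶠ n in (UU : Filter ℕ), ∀ j : Fin m, (A n).coeff j = evK (q n) (x n) K (G j) := by
      rw [Filter.eventually_all]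
      exact hG
    filter_upwards [hall] with n hn
    have h1 := (hA n).as_sum
    rw [hm n, Finset.sum_range] at h1
    rw [h1, hB, Polynomial.map_add, Polynomial.map_pow, Polynomial.map_X, Polynomial.map_sum]
    congr 1
    refine Finset.sum_congr rfl fun j _ => ?_
    rw [Polynomial.map_mul, Polynomial.map_pow, Polynomial.map_X, Polynomial.map_C, hn j]
  refine ⟨B, hBm, hBn, ?_, hBA⟩
  rw [← Polynomial.modByMonic_eq_zero_iff_dvd hBm]
  ext1 j
  rw [Polynomial.coeff_zero]
  apply vanishK hind K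
  filter_upwards [hBA, hdvd] with n h1 h2
  rw [← Polynomial.coeff_map, Polynomial.map_modByMonic _ hBm, ← h1, Polynomial.map_map]
  have h3 : (evK (q n) (x n) K).comp (map (Int.castRingHom K)) = evx (q n) (x n) K := by
    ext y
    · simp
    · simp [evK, evx]
  rw [h3, (Polynomial.modByMonic_eq_zero_iff_dvd (hA n)).2 h2, Polynomial.coeff_zero]

end

end Pool.Agent.Q4.Opt
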