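import Mathlib
import Pool.Agent.Q4.Opt.Val
import Pool.Agent.Q4.Gcd.Thm

set_option autoImplicit false
set_option linter.unusedSectionVars false

/-!
# Common divisors at nearly optimal approximations
-/

namespace Pool.Agent.Q4.Opt

open Filter Topology Pool.Agent.TH932.Abs Pool.Agent.TH932.Germs Pool.Agent.TH932.Chi
open Pool.Agent.TH796.AL Pool.Agent.Q4.Blk Pool.Agent.Q4.Gcd Pool.Agent.Q4.Cov Module
open Pool.Agent.Q4.Tube hiding Near sm_fr sm_vs sm_dl dl_tendsto dl_le_one sm_ord sm_any lim_evr branch' expand' px_ne root_bnd approxS root_exp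
open MvPolynomial

theorem gcd_seqO {S : Finset ℕ} {hS : ∀ p ∈ S, p.Prime} {θ : Unit → ℝ} {q : ℕ → ℕ}
    {x : ℕ → Unit → ℤ} {β : Fin S.card → ℝ} {w : Unit → ℝ} (H : Ext S hS θ q x β w)
    (halg : IsAlgebraic ℚ (θ ())) (h3 : 3 ≤ (minpoly ℚ (θ ())).natDegree)
    (heq : ∑ v, β v + w () = 1) (P Q : MvPolynomial (Option Unit) ℤ) (hP0 : P ≠ 0) (hQ0 : Q ≠ 0)
    (hPQ : IsRelPrime (map (Int.castRingHom ℚ) P) (map (Int.castRingHom ℚ) Q))
    {ε : ℝ} (hε : 0 < ε) (D : ℕ → ℕ)
    (hDP : ∀ n, (D n : ℤ) ∣ eval (px (q n) (x n)) P)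
    (hDQ : ∀ n, (D n : ℤ) ∣ eval (px (q n) (x n)) Q)
    (hbig : ∀ n, (q n : ℝ) ^ ε ≤ D n) : False := by
  classical
  have hind : ∀ R : MvPolynomial (Option Unit) ℚ, Rel q x R → R = 0 :=
    fun R hR => indep H halg h3 heq R hR
  have hθ : ∀ s : Unit, IsAlgebraic ℚ (θ s) := fun s => halg
  set B := bas S hS with hB
  set P' := map (Int.castRingHom ℚ) P with hP'
  set Q' := map (Int.castRingHom ℚ) Q with hQ'
  have hqp : ∀ n, (0 : ℝ) < q n := qpos H.big
  have hD0 : ∀ n, D n ≠ 0 := by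
    intro n h
    have h1 := hbig n
    rw [h, Nat.cast_zero] at h1
    exact absurd h1 (not_le.2 (Real.rpow_pos_of_pos (hqp n) ε))
  set s : ℕ → ℕ := fun n => spart S (D n) with hs
  have hs0 : ∀ n, 0 < s n := fun n => spart_pos hS _
  have hsD : ∀ n, s n ∣ D n := fun n => by
    have := spart_dvd hS (D n : ℤ)
    exact_mod_cast this
  -- the part composed of the primes of `S` is small
  have hstep : ∀ R : MvPolynomial (Option Unit) ℤ, (∀ n, (D n : ℤ) ∣ eval (px (q n) (x n)) R) →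
      ¬ X none ∣ map (Int.castRingHom ℚ) R →
      ∀ᶠ n in (UU : Filter ℕ), (s n : ℝ) ≤ (q n : ℝ) ^ (ε / 2) := by
    intro R hR hn
    obtain ⟨k, hk, hk2⟩ := exists_coeff none hn
    have hkm : k ∈ R.support := by
      rw [MvPolynomial.mem_support_iff]
      intro h
      apply hk2
      rw [coeff_map, h]
      rfl
    filter_upwards [spartO H hθ hind R k hkm hk (ε / 2) (by positivity)] with n hn
    refine le_trans ?_ hn.2
    have h1 : s n ≤ spart S (eval (px (q n) (x n)) R) := by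
      rw [hs]
      simp only []
      unfold spart
      refine Finset.prod_le_prod' fun p hp => ?_
      refine Nat.pow_le_pow_right (hS p hp).pos ?_
      have h2 : (D n : ℤ).natAbs ∣ (eval (px (q n) (x n)) R).natAbs := Int.natAbs_dvd_natAbs.2 (hR n)
      rw [Int.natAbs_natCast] at h2 ⊢
      exact (Nat.factorization_le_iff_dvd (hD0 n) (Int.natAbs_ne_zero.2 hn.1)).2 h2 p
    exact_mod_cast h1
  have hsmall : ∀ᶠ n in (UU : Filter ℕ), (s n : ℝ) ≤ (q n : ℝ) ^ (ε / 2) := by
    by_cases h1 : X none ∣ P'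
    · by_cases h2 : X none ∣ Q'
      · exfalso
        have hunit := hPQ h1 h2
        have h1 := hunit.map (eval (fun _ : Option Unit => (0 : ℚ)))
        rw [eval_X] at h1
        exact not_isUnit_zero h1
      · exact hstep Q hDQ h2
    · exact hstep P hDP h1
  -- the rest of the divisor
  set t : ℕ → ℕ := fun n => D n / s n with ht
  have hst : ∀ n, s n * t n = D n := fun n => Nat.mul_div_cancel' (hsD n)
  have ht0 : ∀ n, t n ≠ 0 := fun n h => hD0 n (by rw [← hst n, h, mul_zero])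
  have htcop : ∀ n v, IsCoprime (t n : ℤ) (B.P v : ℤ) := by
    intro n v
    rw [Nat.isCoprime_iff_coprime]
    have hp : (B.P v).Prime := bas_prime hS v
    rw [Nat.coprime_comm, hp.coprime_iff_not_dvd]
    intro hdvd
    have h1 : 0 < (t n).factorization (B.P v) := hp.factorization_pos_of_dvd (ht0 n) hdvd
    have h2 : (D n).factorization (B.P v)
        = (s n).factorization (B.P v) + (t n).factorization (B.P v) := by
      rw [← hst n, Nat.factorization_mul (hs0 n).ne' (ht0 n)]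
      rfl
    have h3 : (s n).factorization (B.P v) = (D n).factorization (B.P v) := by
      have h4 : B.P v ∈ S := (S.equivFin.symm v).2
      have h5 : (B.P v) ^ ((D n).factorization (B.P v)) ∣ s n := by
        rw [hs]
        simp only []
        unfold spart
        simp only [Int.natAbs_natCast]
        exact Finset.dvd_prod_of_mem (fun p => p ^ (D n).factorization p) h4
      have h6 := (hp.pow_dvd_iff_le_factorization (hs0 n).ne').1 h5
      omega
    omega
  have hδ : Sm q (-(ε / 2)) (fun n => ((t n : ℂ))⁻¹) := by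
    intro η hη
    filter_upwards [hsmall] with n hn
    have htp : (0 : ℝ) < t n := by exact_mod_cast Nat.pos_of_ne_zero (ht0 n)
    rw [norm_inv, Complex.norm_natCast]
    have h1 := hbig n
    rw [← hst n, Nat.cast_mul] at h1
    have h2 : (q n : ℝ) ^ ε = (q n : ℝ) ^ (ε / 2) * (q n : ℝ) ^ (ε / 2) := by
      rw [← Real.rpow_add (hqp n)]
      congr 1
      ring
    rw [h2] at h1
    have h4 := h1.trans (mul_le_mul_of_nonneg_right hn htp.le)
    have h5 : (0 : ℝ) < (q n : ℝ) ^ (ε / 2) := Real.rpow_pos_of_pos (hqp n) _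
    have h6 := le_of_mul_le_mul_left h4 h5
    calc ((t n : ℝ))⁻¹ ≤ ((q n : ℝ) ^ (ε / 2))⁻¹ := by
          rw [inv_le_inv₀ htp h5]
          exact h6
      _ = (q n : ℝ) ^ (-(ε / 2)) := (Real.rpow_neg (hqp n).le _).symm
      _ ≤ _ := Real.rpow_le_rpow_of_exponent_le (qone H.big n) (by linarith)
  have hβ0 : 0 ≤ ∑ v, β v := Finset.sum_nonneg fun v _ => H.β0 v
  have hw0 := H.w0 ()
  have hβ1 : ∑ v, β v ≤ 1 := by linarith
  have hw1 : w () ≤ 1 := by linarith
  have hinj : Function.Injective (map (Int.castRingHom ℚ) :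
      MvPolynomial (Option Unit) ℤ → MvPolynomial (Option Unit) ℚ) :=
    map_injective _ Int.cast_injective
  have hP0' : P' ≠ 0 := by
    intro h
    apply hP0
    apply hinj
    rw [map_zero]
    exact h
  have hQ0' : Q' ≠ 0 := by
    intro h
    apply hQ0
    apply hinj
    rw [map_zero]
    exact h
  set f := P'.totalDegree with hf
  set g := Q'.totalDegree with hg
  -- the subspace theorem
  have hmain : ∀ d, f + g ≤ d → ((Ex (Option Unit) d).card : ℝ) * (ε / 2)
      ≤ (f * g : ℝ) * (2 * d + ε / 2) := by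
    intro d hd
    obtain ⟨A, A', hA, hA', key⟩ := subW hS H.big (ι := Ex (Option Unit) d)
      (fun a n => ∏ i, (px (q n) (x n) i) ^ (a.1 i)) (fun c hc => by
        have h1 := hind (polyOf c) (by
          unfold Rel
          simp only [va_polyOf]
          filter_upwards [hc] with n hn
          push_cast at hn
          exact hn)
        intro i
        have h2 := coeff_polyOf c i
        rw [h1, coeff_zero] at h2
        exact h2.symm)
      (fun a c => Mr θ a.1 c.1) (fun a c => Mr_alg hθ _ _) (fun a c => Mr_sq θ a c)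
      (fun a => (a.1 none : ℝ)) β H.β0 (fun v a => H.mono v a.1) (fun a => ex w a.1)
      (fun a => by
        refine (H.zv a.1).congr (Eventually.of_forall fun n => ?_)
        rw [zv_Mr θ (q n) (x n) a.2]
        push_cast
        rfl) (US P' Q' d) t ht0 htcop (by
      intro u hu
      obtain ⟨R, hR, rfl⟩ := hu
      obtain ⟨A, A', hAA⟩ := UU'_comb hR
      obtain ⟨N, hN, hA⟩ := int_mul A
      obtain ⟨N', hN', hA'⟩ := int_mul A'
      refine ⟨(N : ℤ) * N', mul_ne_zero (by exact_mod_cast hN) (by exact_mod_cast hN'), fun n => ?_⟩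
      obtain ⟨a, ha⟩ := hA (px (q n) (x n))
      obtain ⟨a', ha'⟩ := hA' (px (q n) (x n))
      have htD : (t n : ℤ) ∣ D n := by
        have : t n ∣ D n := ⟨s n, by rw [mul_comm, hst]⟩
        exact_mod_cast this
      obtain ⟨b, hb⟩ := htD.trans (hDP n)
      obtain ⟨b', hb'⟩ := htD.trans (hDQ n)
      refine ⟨N' * a * b + N * a' * b', ?_⟩
      have h1 : ∑ i : Ex (Option Unit) d, (cf d R i) * ((∏ j, (px (q n) (x n) j) ^ (i.1 j) : ℤ) : ℚ)
          = va (q n) (x n) R := by
        unfold va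
        rw [eval_cf (UU'_deg (by omega) (by omega) hR)]
        refine Finset.sum_congr rfl fun i _ => ?_
        push_cast
        rfl
      rw [h1, hAA, map_add, map_mul, map_mul, hP', hQ', map_px, map_px, hb, hb']
      have h2 : va (q n) (x n) A = aeval (fun i => ((px (q n) (x n) i : ℤ) : ℚ)) A := rfl
      have h3 : va (q n) (x n) A' = aeval (fun i => ((px (q n) (x n) i : ℤ) : ℚ)) A' := rfl
      rw [h2, h3]
      push_cast
      rw [← ha, ← ha']
      ring) (ε / 2) hδ
    have h2 := finrank_US hP0' hQ0' hPQ hd (i := none) (j := some ()) (by simp)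
    have hcard : Fintype.card (Option Unit) - 2 = 0 := by simp
    rw [hcard, pow_zero, mul_one, ← hf, ← hg] at h2
    have h4 : ((Ex (Option Unit) d).card : ℝ) ≤ finrank ℚ (US P' Q' d) + (f * g : ℝ) := by
      exact_mod_cast h2
    have hAc : ((Aᶜ : Finset (Ex (Option Unit) d)).card : ℝ)
        = (Ex (Option Unit) d).card - finrank ℚ (US P' Q' d) := by
      rw [Finset.card_compl, Nat.cast_sub (Finset.card_le_univ A), hA, Fintype.card_coe]
    have hAc' : ((A'ᶜ : Finset (Ex (Option Unit) d)).card : ℝ)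
        = (Ex (Option Unit) d).card - finrank ℚ (US P' Q' d) := by
      rw [Finset.card_compl, Nat.cast_sub (Finset.card_le_univ A'), hA', Fintype.card_coe]
    have hdeg : ∀ (a : Ex (Option Unit) d) (o : Option Unit), (a.1 o : ℝ) ≤ d := by
      intro a o
      have h5 := Finset.single_le_sum (f := a.1) (fun _ _ => Nat.zero_le _) (Finset.mem_univ o)
      exact_mod_cast h5.trans (mem_Ex.1 a.2)
    have h5 : -∑ a ∈ A'ᶜ, ex w a.1 ≤ ((Ex (Option Unit) d).card - finrank ℚ (US P' Q' d)) * d := by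
      rw [← Finset.sum_neg_distrib, ← hAc', ← nsmul_eq_mul]
      refine Finset.sum_le_card_nsmul _ _ _ fun a _ => ?_
      unfold ex
      simp only [Finset.univ_unique, Finset.sum_singleton]
      have h6 := hdeg a (some ())
      have h7 : (0 : ℝ) ≤ a.1 none := Nat.cast_nonneg _
      have h8 : (0 : ℝ) ≤ a.1 (some ()) := Nat.cast_nonneg _
      have h9 : w default * (a.1 (some default) : ℝ) ≤ 1 * (a.1 (some ()) : ℝ) :=
        mul_le_mul_of_nonneg_right hw1 h8
      linarith
    have h6 : ∑ a ∈ Aᶜ, (∑ v, β v) * (a.1 none : ℝ)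
        ≤ ((Ex (Option Unit) d).card - finrank ℚ (US P' Q' d)) * d := by
      rw [← hAc, ← nsmul_eq_mul]
      refine Finset.sum_le_card_nsmul _ _ _ fun a _ => ?_
      have h7 := hdeg a none
      have h8 : (0 : ℝ) ≤ a.1 none := Nat.cast_nonneg _
      nlinarith
    have h7 := H.bal' d
    have h8 : ∑ a ∈ A', ex w a.1 + ∑ a ∈ A'ᶜ, ex w a.1 = ∑ a : Ex (Option Unit) d, ex w a.1 :=
      Finset.sum_add_sum_compl A' _
    have h9 : ∑ a ∈ A, (∑ v, β v) * (a.1 none : ℝ) + ∑ a ∈ Aᶜ, (∑ v, β v) * (a.1 none : ℝ)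
        = ∑ a : Ex (Option Unit) d, (∑ v, β v) * (a.1 none : ℝ) :=
      Finset.sum_add_sum_compl A _
    have h10 : (finrank ℚ (US P' Q' d) : ℝ) * (ε / 2)
        ≤ 2 * (((Ex (Option Unit) d).card - finrank ℚ (US P' Q' d)) * d) := by linarith
    have h11 : (0 : ℝ) ≤ d := Nat.cast_nonneg _
    nlinarith
  -- the contradiction
  have hf0 : (0 : ℝ) ≤ f := Nat.cast_nonneg _
  have hg0 : (0 : ℝ) ≤ g := Nat.cast_nonneg _
  set K : ℝ := f * g * (4 + ε / 2) with hK
  obtain ⟨e1, he1⟩ := exists_nat_gt (2 * K / ε)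
  set e2 := e1 + f + g with he2
  have hT : Fintype.card (Option Unit) = 2 := by simp
  have h1 := hmain (2 * e2) (by omega)
  have h2 : ((e2 : ℝ) + 1) ^ 2 ≤ (Ex (Option Unit) (2 * e2)).card := by
    have := card_big (τ := Option Unit) e2
    rw [hT] at this
    exact_mod_cast this
  have he2p : (0 : ℝ) ≤ e2 := Nat.cast_nonneg _
  have h4 : (f * g : ℝ) * (2 * ((2 * e2 : ℕ) : ℝ) + ε / 2) ≤ K * (e2 + 1) := by
    rw [hK, mul_assoc (f * g : ℝ)]
    apply mul_le_mul_of_nonneg_left _ (by positivity)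
    push_cast
    nlinarith
  have h5 : ((e2 : ℝ) + 1) ^ 2 * (ε / 2) ≤ K * (e2 + 1) :=
    (mul_le_mul_of_nonneg_right h2 (by positivity)).trans (h1.trans h4)
  have h6 : ((e2 : ℝ) + 1) * (ε / 2) ≤ K := by
    have h7 : (((e2 : ℝ) + 1) * (ε / 2)) * ((e2 : ℝ) + 1) ≤ K * (e2 + 1) := by
      calc _ = ((e2 : ℝ) + 1) ^ 2 * (ε / 2) := by ring
        _ ≤ _ := h5
    exact le_of_mul_le_mul_right h7 (by positivity)
  rw [div_lt_iff₀ hε] at he1
  have h12 : (e1 : ℝ) ≤ e2 := by
    rw [he2]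
    push_cast
    linarith
  nlinarith

/-- **Greatest common divisors at nearly optimal approximations.** -/
theorem gcdO (S : Finset ℕ) (hS : ∀ p ∈ S, p.Prime) (θ : Unit → ℝ)
    (halg : IsAlgebraic ℚ (θ ())) (h3 : 3 ≤ (minpoly ℚ (θ ())).natDegree)
    (P Q : MvPolynomial (Option Unit) ℤ) (hP0 : P ≠ 0) (hQ0 : Q ≠ 0)
    (hPQ : IsRelPrime (map (Int.castRingHom ℚ) P) (map (Int.castRingHom ℚ) Q))
    {ε : ℝ} (hε : 0 < ε) :
    ∃ (η : ℝ) (N : ℕ), 0 < η ∧ ∀ q ≥ N, ∀ x, NearOpt S θ η q x → ∀ D : ℕ,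
      (D : ℤ) ∣ eval (px q x) P → (D : ℤ) ∣ eval (px q x) Q → (D : ℝ) < (q : ℝ) ^ ε := by
  obtain ⟨η, N, hη, h⟩ := none_leftO S hS θ (Δ := ℕ) (fun _ q x D =>
    (D : ℤ) ∣ eval (px q x) P ∧ (D : ℤ) ∣ eval (px q x) Q ∧ (q : ℝ) ^ ε ≤ D)
    (fun q x D β w H heq hd => gcd_seqO H halg h3 heq P Q hP0 hQ0 hPQ hε D
      (fun n => (hd n).1) (fun n => (hd n).2.1) (fun n => (hd n).2.2))
  refine ⟨η, N, hη, fun q hq x hx D h1 h2 => ?_⟩
  by_contra hcon
  exact h q hq x hx D ⟨h1, h2, not_lt.1 hcon⟩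

end Pool.Agent.Q4.Opt
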