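import Mathlib
import Pool.Agent.Q4.Opt.Fac

set_option autoImplicit false
set_option linter.unusedSectionVars false

/-!
# Hilbert irreducibility at nearly optimal approximations
-/

namespace Pool.Agent.Q4.Opt

open Filter Topology Pool.Agent.TH932.Abs Pool.Agent.TH932.Germs Pool.Agent.TH932.Chi
open Pool.Agent.TH796.AL Pool.Agent.Q4.Blk Pool.Agent.Q4.Gcd Module
open Pool.Agent.Q4.Cov hiding Near App factor_seq factor_app trace_app vanishK evK_mapK evK factors_lift
open Pool.Agent.Q4.Tube hiding Near sm_fr sm_vs sm_dl dl_tendsto dl_le_one sm_ord sm_any lim_evr branch' expand' px_ne root_bnd approxS root_exp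
open MvPolynomial

/-- **Factors are specialisations.** -/
theorem factors_lift (S : Finset ℕ) (hS : ∀ p ∈ S, p.Prime) (θ : Unit → ℝ)
    (halg : IsAlgebraic ℚ (θ ())) (h3 : 3 ≤ (minpoly ℚ (θ ())).natDegree)
    (P : Polynomial (MvPolynomial (Option Unit) ℤ)) (D : ℕ) (hP : P.Monic)
    (hdeg : ∀ i, (P.coeff i).totalDegree ≤ (P.natDegree - i) * D)
    (hsep : (pnf P D 0 θ).Separable) (Bd : ℕ) :
    ∃ (η : ℝ) (N : ℕ), 0 < η ∧ ∀ q ≥ N, ∀ x, NearOpt S θ η q x → ∀ (K : Type) [Field K] [NumberField K],
      |NumberField.discr K| ≤ Bd → ∀ g : Polynomial K, g.Monic → g ∣ P.map (evx q x K) →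
      ∃ G : Polynomial (MvPolynomial (Option Unit) K), G.Monic ∧
        G ∣ P.map (map (Int.castRingHom K)) ∧ G.map (evK q x K) = g := by
  classical
  by_contra hcon
  push Not at hcon
  choose q hq x hx K iF iN hd g hg hgdvd hgno using fun n : ℕ =>
    hcon (1 / (n + 1 : ℝ)) (n + 2) (by positivity)
  have hq' : ∀ n, n + 2 ≤ q n := hq
  choose u v huv huS hnear using hx
  obtain ⟨β', w, H, heq⟩ := ext_of S hS θ q x hq' u v huv huS (fun ε hε =>
    small_of hq' (fun n => (v n : ℝ) * |fr θ (q n) (x n) ()|) (fun n => by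
      have h1 := hnear n
      unfold fr
      exact h1) ε hε)
  have hind : ∀ R : MvPolynomial (Option Unit) ℚ, Rel q x R → R = 0 := indep H halg h3 heq
  obtain ⟨F, hNF, hF⟩ := exists_field Bd K iF iN hd
  -- the degree
  have hmall : ∀ᶠ n in (UU : Filter ℕ), ∃ m ∈ (Finset.range (P.natDegree + 1) : Set ℕ),
      (g n).natDegree = m := by
    refine Eventually.of_forall fun n => ⟨(g n).natDegree, ?_, rfl⟩
    have h1 : (P.map (evx (q n) (x n) (K n))) ≠ 0 := (hP.map _).ne_zero
    have h2 := Polynomial.natDegree_le_of_dvd (hgdvd n) h1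
    rw [hP.natDegree_map] at h2
    exact Finset.mem_coe.2 (Finset.mem_range.2 (Nat.lt_succ_of_le h2))
  rw [Ultrafilter.eventually_exists_mem_iff (Finset.finite_toSet _)] at hmall
  obtain ⟨m, _, hm⟩ := hmall
  set A : ℕ → Polynomial F := fun n =>
    if h : Nonempty (K n ≃+* F) ∧ (g n).natDegree = m then
      (g n).map (h.1.some : K n →+* F) else Polynomial.X ^ m with hA
  have hAm : ∀ n, (A n).Monic := by
    intro n
    rw [hA]
    simp only []
    split_ifs with h
    · exact (hg n).map _
    · exact Polynomial.monic_X_pow m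
  have hAd : ∀ n, (A n).natDegree = m := by
    intro n
    rw [hA]
    simp only []
    split_ifs with h
    · rw [(hg n).natDegree_map, h.2]
    · exact Polynomial.natDegree_X_pow m
  have hAdvd : ∀ᶠ n in (UU : Filter ℕ), A n ∣ P.map (evx (q n) (x n) F) := by
    filter_upwards [hF, hm] with n h1 h2
    have h3 : A n = (g n).map (h1.some : K n →+* F) := by
      rw [hA]
      simp only []
      rw [dif_pos ⟨h1, h2⟩]
    rw [h3]
    have h4 := Polynomial.map_dvd (h1.some : K n →+* F) (hgdvd n)
    rw [Polynomial.map_map, evx_mapK] at h4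
    exact h4
  obtain ⟨B, hBm, _, hBdvd, hBA⟩ := factor_seq (P := P) (D := D) H (fun _ => halg) hind hP hdeg hsep
    F A hAm hAd hAdvd
  obtain ⟨n, h1, h2, h5⟩ := (hF.and (hm.and hBA)).exists
  have h3 : A n = (g n).map (h1.some : K n →+* F) := by
    rw [hA]
    simp only []
    rw [dif_pos ⟨h1, h2⟩]
  set e : K n ≃+* F := h1.some with he
  have hcomp : ((e.symm : F ≃+* K n) : F →+* K n).comp (e : K n →+* F) = RingHom.id (K n) := by
    ext y
    simp
  refine hgno n (B.map (map ((e.symm : F ≃+* K n) : F →+* K n))) (hBm.map _) ?_ ?_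
  · have h4 := Polynomial.map_dvd (map ((e.symm : F ≃+* K n) : F →+* K n)) hBdvd
    rw [Polynomial.map_map] at h4
    have h6 : (MvPolynomial.map ((e.symm : F ≃+* K n) : F →+* K n) :
        MvPolynomial (Option Unit) F →+* MvPolynomial (Option Unit) (K n)).comp
        (MvPolynomial.map (Int.castRingHom F))
        = (MvPolynomial.map (Int.castRingHom (K n)) :
          MvPolynomial (Option Unit) ℤ →+* MvPolynomial (Option Unit) (K n)) := by
      ext y <;> simp
    rw [h6] at h4
    exact h4
  · rw [Polynomial.map_map, evK_mapK, ← Polynomial.map_map, ← h5, h3, Polynomial.map_map, hcomp,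
      Polynomial.map_id]

end Pool.Agent.Q4.Opt
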